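import Pool.Agent.Lib.MP_1a91b9_ntT.CF.PrimeSum

/-! # CF: sums over places in extensions

PROOF (complete; job of helper29, see team-store bsd_D_doc_CF.md):
PZ_mono/union/finite: comparison of (summable) nonnegative series; a finite set contributes at most
its cardinality (N w^(-s) <= 1). PZ_high_deg: nrm w = nrm v ^ f (Ideal.absNorm_pow_inertiaDeg, see
S4/Quad.lean quad_cases), so f >= 2 gives N w^(-s) <= N v^(-2); at most n = finrank k E places w above
each v (sum of e f = n). Sum over the fibres of w -> w.under. Bound n * sum_v N v^(-2). PZ_down: same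
fibre argument with N w = N v (f = 1). PZ_up: v in Z has exactly n places above, all with N w = N v
(ncard_primesOver_mul_ramificationIdxIn_mul_inertiaDegIn with e = f = 1). ram_finite: the different /
discriminant; or: O_E = finitely generated, see the library (S5/S6 have such lemmas), e.g. places
dividing the discriminant ideal or the different ideal (`differentIdeal`), or: choose theta in O_E
generating E with minimal polynomial g over O_k; v not containing disc(g) is unramified. spl_low: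
PZ_down with Z' = {w : f(w) = 1, w.under not Ram}, Z = {Spl}: a Galois extension: e and f are
constant above v, so e = 1 and f(w) = 1 for one w means Spl; PZ Z' >= PZ univ - PZ{f <> 1} - PZ{w above
a ramified place} >= log(1/(s-1)) - B by prime_sum, PZ_high_deg, PZ_finite.
-/

set_option autoImplicit false

namespace Pool.Agent.Lib.MP_1a91b9_ntT.CF

open NumberField IsDedekindDomain UniqueFactorizationMonoid Pool.Agent.Lib.MP_1a91b9_nt S4

universe u

section
variable {F : Type u} [Field F] [NumberField F]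

private theorem extsum_two_le (v : HeightOneSpectrum (𝓞 F)) : (2 : ℝ) ≤ (nrm v : ℝ) := by
  have := finite_residue v
  have h : 2 ≤ nrm v := Finite.one_lt_card
  exact_mod_cast h

private theorem extsum_term_nonneg (v : HeightOneSpectrum (𝓞 F)) (s : ℝ) :
    0 ≤ (nrm v : ℝ) ^ (-s) := by positivity

private theorem extsum_term_le_one (v : HeightOneSpectrum (𝓞 F)) (s : ℝ) (hs : 0 ≤ s) :
    (nrm v : ℝ) ^ (-s) ≤ 1 := by
  have h2 := extsum_two_le v
  exact Real.rpow_le_one_of_one_le_of_nonpos (by linarith) (by linarith)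

private theorem extsum_ind_nonneg (Z : Set (HeightOneSpectrum (𝓞 F))) (s : ℝ)
    (v : HeightOneSpectrum (𝓞 F)) : 0 ≤ Z.indicator (fun w => (nrm w : ℝ) ^ (-s)) v :=
  Set.indicator_nonneg (fun w _ => extsum_term_nonneg w s) v

private theorem extsum_summable (Z : Set (HeightOneSpectrum (𝓞 F))) (s : ℝ) (hs : 1 < s) :
    Summable (Z.indicator (fun w => (nrm w : ℝ) ^ (-s))) :=
  (summable_nrm (K := F) s hs).indicator Z

theorem PZ_nonneg (Z : Set (HeightOneSpectrum (𝓞 F))) (s : ℝ) : 0 ≤ PZ Z s := by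
  exact tsum_nonneg fun v => extsum_ind_nonneg Z s v

theorem PZ_mono {Z Z' : Set (HeightOneSpectrum (𝓞 F))} (h : Z ⊆ Z') (s : ℝ) (hs : 1 < s) :
    PZ Z s ≤ PZ Z' s := by
  unfold PZ
  refine Summable.tsum_le_tsum (fun v => ?_) (extsum_summable Z s hs) (extsum_summable Z' s hs)
  exact Set.indicator_le_indicator_of_subset h (fun w => extsum_term_nonneg w s) v

theorem PZ_union (Z Z' : Set (HeightOneSpectrum (𝓞 F))) (s : ℝ) (hs : 1 < s) :
    PZ (Z ∪ Z') s ≤ PZ Z s + PZ Z' s := by
  unfold PZ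
  rw [← Summable.tsum_add (extsum_summable Z s hs) (extsum_summable Z' s hs)]
  refine Summable.tsum_le_tsum (fun v => ?_) (extsum_summable (Z ∪ Z') s hs)
    ((extsum_summable Z s hs).add (extsum_summable Z' s hs))
  by_cases h1 : v ∈ Z
  · rw [Set.indicator_of_mem (Set.mem_union_left Z' h1), Set.indicator_of_mem h1]
    have := extsum_ind_nonneg Z' s v
    linarith
  · by_cases h2 : v ∈ Z'
    · rw [Set.indicator_of_mem (Set.mem_union_right Z h2), Set.indicator_of_mem h2]
      have := extsum_ind_nonneg Z s v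
      linarith
    · rw [Set.indicator_of_notMem (fun h => h.elim h1 h2)]
      have h3 := extsum_ind_nonneg Z s v
      have h4 := extsum_ind_nonneg Z' s v
      linarith

theorem PZ_finite (Z : Set (HeightOneSpectrum (𝓞 F))) (hZ : Z.Finite) :
    ∃ B : ℝ, ∀ s : ℝ, 1 < s → PZ Z s ≤ B := by
  refine ⟨(hZ.toFinset.card : ℝ), fun s hs => ?_⟩
  unfold PZ
  rw [tsum_eq_sum (s := hZ.toFinset) (fun v hv => Set.indicator_of_notMem
    (fun h => hv (hZ.mem_toFinset.mpr h)) _)]
  calc ∑ v ∈ hZ.toFinset, Z.indicator (fun w => (nrm w : ℝ) ^ (-s)) v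
      ≤ ∑ v ∈ hZ.toFinset, (1 : ℝ) := by
        refine Finset.sum_le_sum fun v hv => ?_
        rw [Set.indicator_of_mem (hZ.mem_toFinset.mp hv)]
        exact extsum_term_le_one v s (by linarith)
    _ = (hZ.toFinset.card : ℝ) := by simp

end

section
variable (k E : Type u) [Field k] [NumberField k] [Field E] [NumberField E] [Algebra k E]

private theorem extsum_hasSum_over (g : HeightOneSpectrum (𝓞 E) → ℝ) (a : ℝ) (h : HasSum g a) :
    HasSum (fun v : HeightOneSpectrum (𝓞 k) => ∑ w : Over E v, g w.1) a := by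
  let pr : HeightOneSpectrum (𝓞 E) → HeightOneSpectrum (𝓞 k) := fun w => w.under (𝓞 k)
  have h2 : HasSum (fun x : Σ v : HeightOneSpectrum (𝓞 k), {w // pr w = v} => g x.2.1) a := by
    rw [← (Equiv.sigmaFiberEquiv pr).symm.hasSum_iff]
    exact h
  refine h2.sigma fun v => ?_
  let e : Over E v ≃ {w // pr w = v} :=
    Equiv.subtypeEquivRight fun w =>
      ⟨fun h => HeightOneSpectrum.ext h, fun h => congrArg HeightOneSpectrum.asIdeal h⟩
  rw [← e.hasSum_iff]
  exact hasSum_fintype _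

private theorem extsum_card_le (v : HeightOneSpectrum (𝓞 k)) :
    Fintype.card (Over E v) ≤ Module.finrank k E := by
  have hvm : v.asIdeal.IsMaximal := v.isMaximal
  have h1 : (IsDedekindDomain.primesOverFinset v.asIdeal (𝓞 E)).card ≤ Module.finrank k E := by
    rw [← Ideal.sum_ramification_inertia (𝓞 E) k E v.ne_bot, Finset.card_eq_sum_ones]
    refine Finset.sum_le_sum fun P hP => ?_
    have hP1 : P.IsPrime := ((IsDedekindDomain.mem_primesOverFinset_iff v.ne_bot _).mp hP).1
    have hP2 : P.LiesOver v.asIdeal :=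
      ((IsDedekindDomain.mem_primesOverFinset_iff v.ne_bot _).mp hP).2
    refine Right.one_le_mul ?_ ?_
    · exact Nat.pos_iff_ne_zero.mpr <|
        Ideal.IsDedekindDomain.ramificationIdx'_ne_zero_of_liesOver _ v.ne_bot
    · exact Nat.pos_iff_ne_zero.mpr <| Ideal.inertiaDeg'_ne_zero v.asIdeal P
  have h2 : Fintype.card (Over E v) = (v.asIdeal.primesOver (𝓞 E)).ncard := by
    rw [← card_over_eq, Nat.card_eq_fintype_card]
  have h3 : ((IsDedekindDomain.primesOverFinset v.asIdeal (𝓞 E) : Finset (Ideal (𝓞 E))) :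
      Set (Ideal (𝓞 E))) = v.asIdeal.primesOver (𝓞 E) := by
    ext P
    rw [Finset.mem_coe, IsDedekindDomain.mem_primesOverFinset_iff v.ne_bot]
  rw [h2, ← h3, Set.ncard_coe_finset]
  exact h1

private theorem extsum_nrm_over (v : HeightOneSpectrum (𝓞 k)) (w : Over E v) :
    (nrm w.1 : ℝ) = (nrm v : ℝ) ^ w.1.asIdeal.inertiaDeg (𝓞 k) := by
  have hvm : v.asIdeal.IsMaximal := v.isMaximal
  have i2 : w.1.asIdeal.LiesOver v.asIdeal := ⟨w.2.symm⟩
  have h : nrm w.1 = nrm v ^ w.1.asIdeal.inertiaDeg (𝓞 k) := by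
    rw [nrm_eq, nrm_eq, Ideal.absNorm_pow_inertiaDeg v.asIdeal w.1.asIdeal]
  rw [h, Nat.cast_pow]

/-- places of relative degree at least two contribute a bounded amount -/
theorem PZ_high_deg : ∃ B : ℝ, ∀ s : ℝ, 1 < s →
    PZ {w : HeightOneSpectrum (𝓞 E) | w.asIdeal.inertiaDeg (𝓞 k) ≠ 1} s ≤ B := by
  have hsum : Summable fun v : HeightOneSpectrum (𝓞 k) =>
      (Module.finrank k E : ℝ) * (nrm v : ℝ) ^ (-(2 : ℝ)) :=
    (summable_nrm (K := k) 2 (by norm_num)).mul_left _
  refine ⟨∑' v : HeightOneSpectrum (𝓞 k), (Module.finrank k E : ℝ) * (nrm v : ℝ) ^ (-(2 : ℝ)),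
    fun s hs => ?_⟩
  set Z : Set (HeightOneSpectrum (𝓞 E)) := {w | w.asIdeal.inertiaDeg (𝓞 k) ≠ 1} with hZ
  have h1 := extsum_hasSum_over k E _ _ (extsum_summable Z s hs).hasSum
  refine hasSum_le (fun v => ?_) h1 hsum.hasSum
  have hv2 := extsum_two_le v
  have hv0 : (0 : ℝ) < (nrm v : ℝ) := by linarith
  calc ∑ w : Over E v, Z.indicator (fun w => (nrm w : ℝ) ^ (-s)) w.1
      ≤ ∑ w : Over E v, (nrm v : ℝ) ^ (-(2 : ℝ)) := by
        refine Finset.sum_le_sum fun w _ => ?_
        by_cases hw : w.1 ∈ Z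
        · rw [Set.indicator_of_mem hw]
          have hw' : w.1.asIdeal.inertiaDeg (𝓞 k) ≠ 1 := hw
          have hp : w.1.asIdeal.IsPrime := w.1.isPrime
          have hpos : 0 < w.1.asIdeal.inertiaDeg (𝓞 k) := Ideal.inertiaDeg_pos _ _
          have hge : 2 ≤ w.1.asIdeal.inertiaDeg (𝓞 k) := by omega
          have hww := extsum_two_le w.1
          have h3 : (nrm v : ℝ) ^ (2 : ℕ) ≤ (nrm w.1 : ℝ) := by
            rw [extsum_nrm_over k E v w]
            exact pow_le_pow_right₀ (by linarith) hge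
          calc (nrm w.1 : ℝ) ^ (-s) ≤ (nrm w.1 : ℝ) ^ (-(1 : ℝ)) :=
                Real.rpow_le_rpow_of_exponent_le (by linarith) (by linarith)
            _ = ((nrm w.1 : ℝ))⁻¹ := Real.rpow_neg_one _
            _ ≤ ((nrm v : ℝ) ^ (2 : ℕ))⁻¹ := inv_anti₀ (by positivity) h3
            _ = (nrm v : ℝ) ^ (-(2 : ℝ)) := by
                rw [Real.rpow_neg hv0.le]
                norm_num
        · rw [Set.indicator_of_notMem hw]
          positivity
    _ = (Fintype.card (Over E v) : ℝ) * (nrm v : ℝ) ^ (-(2 : ℝ)) := by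
        rw [Finset.sum_const, Finset.card_univ, nsmul_eq_mul]
    _ ≤ (Module.finrank k E : ℝ) * (nrm v : ℝ) ^ (-(2 : ℝ)) := by
        refine mul_le_mul_of_nonneg_right ?_ (by positivity)
        exact_mod_cast extsum_card_le k E v

/-- places of relative degree one, seen below -/
theorem PZ_down (Z : Set (HeightOneSpectrum (𝓞 k))) (Z' : Set (HeightOneSpectrum (𝓞 E)))
    (h : ∀ w ∈ Z', w.under (𝓞 k) ∈ Z ∧ w.asIdeal.inertiaDeg (𝓞 k) = 1) (s : ℝ) (hs : 1 < s) :
    PZ Z' s ≤ (Module.finrank k E : ℝ) * PZ Z s := by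
  have h1 := extsum_hasSum_over k E _ _ (extsum_summable Z' s hs).hasSum
  have h2 := ((extsum_summable Z s hs).hasSum).mul_left (Module.finrank k E : ℝ)
  refine hasSum_le (fun v => ?_) h1 h2
  by_cases hv : v ∈ Z
  · rw [Set.indicator_of_mem hv]
    calc ∑ w : Over E v, Z'.indicator (fun w => (nrm w : ℝ) ^ (-s)) w.1
        ≤ ∑ w : Over E v, (nrm v : ℝ) ^ (-s) := by
          refine Finset.sum_le_sum fun w _ => ?_
          by_cases hw : w.1 ∈ Z'
          · rw [Set.indicator_of_mem hw, extsum_nrm_over k E v w, (h w.1 hw).2, pow_one]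
          · rw [Set.indicator_of_notMem hw]
            positivity
      _ = (Fintype.card (Over E v) : ℝ) * (nrm v : ℝ) ^ (-s) := by
          rw [Finset.sum_const, Finset.card_univ, nsmul_eq_mul]
      _ ≤ (Module.finrank k E : ℝ) * (nrm v : ℝ) ^ (-s) := by
          refine mul_le_mul_of_nonneg_right ?_ (by positivity)
          exact_mod_cast extsum_card_le k E v
  · rw [Set.indicator_of_notMem hv, mul_zero]
    refine le_of_eq (Finset.sum_eq_zero fun w _ => ?_)
    refine Set.indicator_of_notMem (fun hw => hv ?_) _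
    have h3 := (h w.1 hw).1
    have h4 : w.1.under (𝓞 k) = v := HeightOneSpectrum.ext w.2
    rwa [h4] at h3

/-- completely split places, seen above -/
theorem PZ_up [IsGalois k E] (Z : Set (HeightOneSpectrum (𝓞 k)))
    (h : ∀ v ∈ Z, Spl E v) (s : ℝ) (hs : 1 < s) :
    (Module.finrank k E : ℝ) * PZ Z s ≤ PZ (Set.univ : Set (HeightOneSpectrum (𝓞 E))) s := by
  have h1 := extsum_hasSum_over k E _ _ (extsum_summable (F := E) Set.univ s hs).hasSum
  have h2 := ((extsum_summable Z s hs).hasSum).mul_left (Module.finrank k E : ℝ)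
  refine hasSum_le (fun v => ?_) h2 h1
  by_cases hv : v ∈ Z
  · rw [Set.indicator_of_mem hv]
    have hvp : v.asIdeal.IsPrime := v.isPrime
    have hvm : v.asIdeal.IsMaximal := v.isMaximal
    have hfund := Ideal.ncard_primesOver_mul_ramificationIdxIn_mul_inertiaDegIn v.asIdeal (𝓞 E)
      Gal(E/k)
    rw [IsGalois.card_aut_eq_finrank, (h v hv).1, (h v hv).2, one_mul, mul_one] at hfund
    have hc : Fintype.card (Over E v) = Module.finrank k E := by
      rw [← hfund, ← card_over_eq, Nat.card_eq_fintype_card]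
    refine le_of_eq ?_
    rw [← hc, ← nsmul_eq_mul, ← Finset.card_univ, ← Finset.sum_const]
    refine Finset.sum_congr rfl fun w _ => ?_
    have i1 : w.1.asIdeal.IsPrime := w.1.isPrime
    have i2 : w.1.asIdeal.LiesOver v.asIdeal := ⟨w.2.symm⟩
    have h3 : w.1.asIdeal.inertiaDeg (𝓞 k) = 1 := by
      rw [← (h v hv).2]
      exact (Ideal.inertiaDegIn_eq_inertiaDeg v.asIdeal w.1.asIdeal Gal(E/k)).symm
    rw [Set.indicator_univ, extsum_nrm_over k E v w, h3, pow_one]
  · rw [Set.indicator_of_notMem hv, mul_zero]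
    exact Finset.sum_nonneg fun w _ => extsum_ind_nonneg _ s w.1

end

open NumberField IsDedekindDomain UniqueFactorizationMonoid Pool.Agent.Lib.MP_1a91b9_nt S4

section
variable {F : Type u} [Field F] [NumberField F]

end

section
variable (k E : Type u) [Field k] [NumberField k] [Field E] [NumberField E] [Algebra k E]

private theorem extsum_exists_over (v : HeightOneSpectrum (𝓞 k)) :
    ∃ w : HeightOneSpectrum (𝓞 E), w.under (𝓞 k) = v := by
  have hvm : v.asIdeal.IsMaximal := v.isMaximal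
  obtain ⟨P, hP, hPv⟩ := Ideal.exists_maximal_ideal_liesOver_of_isIntegral (S := 𝓞 E) v.asIdeal
  have hPne : P ≠ ⊥ := by
    rintro rfl
    apply v.ne_bot
    rw [hPv.over]
    exact Ideal.under_bot _ _
  exact ⟨⟨P, hP.isPrime, hPne⟩, HeightOneSpectrum.ext hPv.over.symm⟩

/-- only finitely many places ramify in a Galois extension -/
theorem ram_finite [IsGalois k E] : {v : HeightOneSpectrum (𝓞 k) | Ram E v}.Finite := by
  have hne : differentIdeal (𝓞 k) (𝓞 E) ≠ ⊥ := differentIdeal_ne_bot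
  have hfin : {w : HeightOneSpectrum (𝓞 E) | w.asIdeal ∣ differentIdeal (𝓞 k) (𝓞 E)}.Finite :=
    Ideal.finite_factors hne
  refine (hfin.image (fun w => w.under (𝓞 k))).subset fun v hv => ?_
  obtain ⟨w, hw⟩ := extsum_exists_over k E v
  refine ⟨w, ?_, hw⟩
  have i0 : v.asIdeal.IsMaximal := v.isMaximal
  have i1 : w.asIdeal.IsPrime := w.isPrime
  have i2 : w.asIdeal.LiesOver v.asIdeal := ⟨(congrArg HeightOneSpectrum.asIdeal hw).symm⟩
  show w.asIdeal ∣ differentIdeal (𝓞 k) (𝓞 E)
  rw [dvd_differentIdeal_iff]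
  intro hun
  apply hv
  rw [Ideal.ramificationIdxIn_eq_ramificationIdx v.asIdeal w.asIdeal Gal(E/k)]
  exact Ideal.ramificationIdx_eq_one _ _

/-- the density of the completely split places is at least `1 / n` -/
theorem spl_low [IsGalois k E] : ∃ B : ℝ, ∀ s : ℝ, 1 < s → s ≤ 2 → Real.log (1 / (s - 1)) - B ≤
    (Module.finrank k E : ℝ) * PZ {v : HeightOneSpectrum (𝓞 k) | Spl E v} s := by
  obtain ⟨B₀, h0⟩ := prime_sum E
  obtain ⟨B₁, h1⟩ := PZ_high_deg k E
  have hfin : {w : HeightOneSpectrum (𝓞 E) | Ram E (w.under (𝓞 k))}.Finite := by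
    refine (ram_finite k E).preimage' (f := fun w : HeightOneSpectrum (𝓞 E) => w.under (𝓞 k))
      fun v _ => ?_
    have h2 : Finite (Over E v) := pf_finite_over v
    have h2' : Finite ({w : HeightOneSpectrum (𝓞 E) |
      w.asIdeal.under (𝓞 k) = v.asIdeal} : Set (HeightOneSpectrum (𝓞 E))) := h2
    have h3 : (fun w : HeightOneSpectrum (𝓞 E) => w.under (𝓞 k)) ⁻¹' {v} =
        {w : HeightOneSpectrum (𝓞 E) | w.asIdeal.under (𝓞 k) = v.asIdeal} := by
      ext w
      exact ⟨fun h => congrArg HeightOneSpectrum.asIdeal h, fun h => HeightOneSpectrum.ext h⟩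
    rw [h3]
    exact Set.toFinite _
  obtain ⟨B₂, h2⟩ := PZ_finite _ hfin
  refine ⟨B₀ + B₁ + B₂, fun s hs hs2 => ?_⟩
  set Z' : Set (HeightOneSpectrum (𝓞 E)) :=
    {w | w.asIdeal.inertiaDeg (𝓞 k) = 1 ∧ ¬ Ram E (w.under (𝓞 k))} with hZ'
  have h3 : PZ Z' s ≤ (Module.finrank k E : ℝ) * PZ {v : HeightOneSpectrum (𝓞 k) | Spl E v} s := by
    refine PZ_down k E _ _ (fun w hw => ⟨?_, hw.1⟩) s hs
    have i0 : (w.under (𝓞 k)).asIdeal.IsMaximal := (w.under (𝓞 k)).isMaximal
    have i1 : w.asIdeal.IsPrime := w.isPrime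
    have i2 : w.asIdeal.LiesOver (w.under (𝓞 k)).asIdeal := ⟨rfl⟩
    refine ⟨not_not.mp hw.2, ?_⟩
    rw [Ideal.inertiaDegIn_eq_inertiaDeg (w.under (𝓞 k)).asIdeal w.asIdeal Gal(E/k)]
    exact hw.1
  have h4 : PZ (Set.univ : Set (HeightOneSpectrum (𝓞 E))) s ≤
      PZ (Z' ∪ ({w : HeightOneSpectrum (𝓞 E) | w.asIdeal.inertiaDeg (𝓞 k) ≠ 1} ∪
        {w : HeightOneSpectrum (𝓞 E) | Ram E (w.under (𝓞 k))})) s := by
    refine PZ_mono (fun w _ => ?_) s hs
    by_cases h5 : w.asIdeal.inertiaDeg (𝓞 k) = 1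
    · by_cases h6 : Ram E (w.under (𝓞 k))
      · exact Or.inr (Or.inr h6)
      · exact Or.inl ⟨h5, h6⟩
    · exact Or.inr (Or.inl h5)
  have h5 := PZ_union Z' ({w : HeightOneSpectrum (𝓞 E) | w.asIdeal.inertiaDeg (𝓞 k) ≠ 1} ∪
        {w : HeightOneSpectrum (𝓞 E) | Ram E (w.under (𝓞 k))}) s hs
  have h6 := PZ_union {w : HeightOneSpectrum (𝓞 E) | w.asIdeal.inertiaDeg (𝓞 k) ≠ 1}
        {w : HeightOneSpectrum (𝓞 E) | Ram E (w.under (𝓞 k))} s hs
  have h7 := h1 s hs
  have h8 := h2 s hs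
  have h9 := (abs_le.mp (h0 s hs hs2)).1
  linarith

end

end Pool.Agent.Lib.MP_1a91b9_ntT.CF
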