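import Pool.Agent.Lib.MP_1a91b9_ntT.CF.Defs

/-! # CF: adjoining a root of unity to `L`

PROOF (complete; job of helper29, see team-store bsd_D_doc_CF.md):
N = a cyclotomic extension of L (CyclotomicField q L) with the algebra structure over k by
composition (universe u). N/L is generated by zeta. phi fixing L and zeta is the identity. N/k is
normal: N is the splitting field over k of the product of X^q - 1 and of a polynomial whose
splitting field is L; or: any k-embedding of N in an algebraic closure of N maps L to itself (L/k
normal) and zeta to a power of zeta, so maps N to itself. Separable: characteristic 0.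
-/

set_option autoImplicit false

namespace Pool.Agent.Lib.MP_1a91b9_ntT.CF

open NumberField IsDedekindDomain UniqueFactorizationMonoid Pool.Agent.Lib.MP_1a91b9_nt S4

universe u

/-- `N = L(ζ_q)` is Galois over `k`, and an automorphism over `k` is determined by its action on
`L` and on `ζ_q` -/
theorem exists_cyc (k L : Type u) [Field k] [NumberField k] [Field L] [NumberField L] [Algebra k L]
    [IsGalois k L] (q : ℕ) (hq : q.Prime) :
    ∃ (N : Type u) (_ : Field N) (_ : NumberField N) (_ : Algebra k N) (_ : Algebra L N)
      (_ : IsScalarTower k L N) (ζ : N), IsGalois k N ∧ IsPrimitiveRoot ζ q ∧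
      ∀ φ : Gal(N/k), (∀ x : L, φ (algebraMap L N x) = algebraMap L N x) → φ ζ = ζ → φ = 1 := by
  classical
  haveI : NeZero q := ⟨hq.ne_zero⟩
  have hζ : IsPrimitiveRoot (IsCyclotomicExtension.zeta q L (CyclotomicField q L)) q :=
    IsCyclotomicExtension.zeta_spec q L (CyclotomicField q L)
  generalize IsCyclotomicExtension.zeta q L (CyclotomicField q L) = ζ at hζ
  haveI hcyc : IsCyclotomicExtension {q} L (CyclotomicField q L) := inferInstance
  have hadj : Algebra.adjoin L {ζ} = (⊤ : Subalgebra L (CyclotomicField q L)) :=
    IsCyclotomicExtension.adjoin_primitive_root_eq_top hζ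
  refine ⟨CyclotomicField q L, inferInstance, inferInstance, inferInstance, inferInstance,
    inferInstance, ζ, ?_, hζ, ?_⟩
  · let E : IntermediateField k (CyclotomicField q L) :=
      (IsScalarTower.toAlgHom k L (CyclotomicField q L)).fieldRange
    let E' : IntermediateField k (CyclotomicField q L) := IntermediateField.adjoin k {ζ}
    haveI : Normal k E := Normal.of_algEquiv
      (AlgEquiv.ofInjectiveField (IsScalarTower.toAlgHom k L (CyclotomicField q L)))
    haveI : IsCyclotomicExtension {q} k E' := hζ.intermediateField_adjoin_isCyclotomicExtension k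
    haveI : IsGalois k E' := IsCyclotomicExtension.isGalois {q} k E'
    have htop : E ⊔ E' = ⊤ := by
      rw [eq_top_iff]
      intro x _
      have hx : x ∈ Algebra.adjoin L {ζ} := by rw [hadj]; trivial
      induction hx using Algebra.adjoin_induction with
      | mem x hx =>
        rw [Set.mem_singleton_iff] at hx
        rw [hx]
        exact (le_sup_right : E' ≤ E ⊔ E') (IntermediateField.mem_adjoin_simple_self k ζ)
      | algebraMap r =>
        exact (le_sup_left : E ≤ E ⊔ E') ⟨r, rfl⟩
      | add x y _ _ hx hy => exact add_mem (hx trivial) (hy trivial)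
      | mul x y _ _ hx hy => exact mul_mem (hx trivial) (hy trivial)
    haveI h1 : Normal k (E ⊔ E' : IntermediateField k (CyclotomicField q L)) := inferInstance
    rw [htop] at h1
    haveI : Normal k (CyclotomicField q L) := Normal.of_algEquiv IntermediateField.topEquiv
    exact {}
  · intro φ h1 h2
    let ψ : CyclotomicField q L →ₐ[L] CyclotomicField q L :=
      { (φ : CyclotomicField q L →+* CyclotomicField q L) with commutes' := h1 }
    have h3 : ψ = AlgHom.id L _ := by
      apply AlgHom.ext_of_adjoin_eq_top hadj
      intro x hx
      rw [Set.mem_singleton_iff] at hx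
      rw [hx]
      exact h2
    ext x
    exact DFunLike.congr_fun h3 x

end Pool.Agent.Lib.MP_1a91b9_ntT.CF
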