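import Pool.Agent.Lib.MP_1a91b9_ntT.CF.Defs

/-! # CF: the cyclic subextensions cut out by one automorphism

PROOF (complete; job of helper29, see team-store bsd_D_doc_CF.md):
E = fixed field of zpowers phi, E1 = fixed field of zpowers (phi^ell) (IntermediateField k N), with
the evident algebras. N/E is Galois with group zpowers phi (cyclic): every tau in Gal(N/E) is a power
phi^i, i a natural number (finite order). phi^ell fixes L: the restriction of phi to L (Galois over
k) lies in a group of order ell. So L is contained in E1. E1/E is Galois since Gal(N/E) is abelian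
(every subgroup is normal), of degree [zpowers phi : zpowers phi^ell] = ell: the order m of phi is
divisible by ell because the restriction of phi to L has order exactly ell; finrank E1 N = order of
phi^ell = m/ell. phi maps E1 to itself (commutes with phi^ell), giving tau.
-/

set_option autoImplicit false

namespace Pool.Agent.Lib.MP_1a91b9_ntT.CF

open NumberField IsDedekindDomain UniqueFactorizationMonoid Pool.Agent.Lib.MP_1a91b9_nt S4

universe u

/-- `φ ^ ℓ` is the identity on `L` -/
private theorem fixedf_pow (k L N : Type u) [Field k] [Field L] [Field N]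
    [Algebra k L] [Algebra k N] [Algebra L N] [IsScalarTower k L N]
    [IsGalois k L] [FiniteDimensional k L] (ℓ : ℕ) (hdeg : Module.finrank k L = ℓ)
    (φ : Gal(N/k)) (x : L) : (φ ^ ℓ) (algebraMap L N x) = algebraMap L N x := by
  have h1 : (AlgEquiv.restrictNormalHom L (φ ^ ℓ) : Gal(L/k)) = 1 := by
    rw [map_pow, ← hdeg, ← IsGalois.card_aut_eq_finrank k L]
    exact pow_card_eq_one'
  have h2 := AlgEquiv.restrictNormal_commutes (φ ^ ℓ) L x
  have h3 : (φ ^ ℓ).restrictNormal L = 1 := h1
  rw [h3] at h2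
  exact h2.symm

/-- the fixed fields `E` of `φ` and `E1` of `φ ^ ℓ`, where `φ` restricts to an automorphism of
order `ℓ` of `L` -/
theorem exists_fixed (k L N : Type u) [Field k] [NumberField k] [Field L] [NumberField L]
    [Field N] [NumberField N] [Algebra k L] [Algebra k N] [Algebra L N] [IsScalarTower k L N]
    [IsGalois k L] [IsGalois k N] (ℓ : ℕ) [Fact ℓ.Prime] (hdeg : Module.finrank k L = ℓ)
    (φ : Gal(N/k)) (hφ : ∃ x : L, φ (algebraMap L N x) ≠ algebraMap L N x) :
    ∃ (E E1 : Type u) (_ : Field E) (_ : NumberField E) (_ : Field E1) (_ : NumberField E1)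
      (_ : Algebra k E) (_ : Algebra k E1) (_ : Algebra E E1) (_ : Algebra E N) (_ : Algebra E1 N)
      (_ : Algebra L E1) (_ : IsScalarTower k E E1) (_ : IsScalarTower k E N)
      (_ : IsScalarTower k E1 N) (_ : IsScalarTower E E1 N) (_ : IsScalarTower k L E1)
      (_ : IsScalarTower L E1 N),
      IsGalois E E1 ∧ Module.finrank E E1 = ℓ ∧ IsGalois E N ∧
      (∀ x : N, x ∈ Set.range (algebraMap E N) ↔ φ x = x) ∧
      (∀ x : N, x ∈ Set.range (algebraMap E1 N) ↔ (φ ^ ℓ) x = x) ∧
      (∀ τ : Gal(N/E), ∃ i : ℕ, ∀ x : N, τ x = (φ ^ i) x) ∧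
      (∃ τ : Gal(E1/E), ∀ x : E1, algebraMap E1 N (τ x) = φ (algebraMap E1 N x)) := by
  classical
  have hℓ : ℓ.Prime := Fact.out
  have hfin : FiniteDimensional k N := inferInstance
  -- membership in the fixed fields
  have memE : ∀ (ψ : Gal(N/k)) (x : N),
      x ∈ IntermediateField.fixedField (Subgroup.zpowers ψ) ↔ ψ x = x := by
    intro ψ x
    rw [IntermediateField.mem_fixedField_iff]
    constructor
    · intro h
      exact h ψ (Subgroup.mem_zpowers ψ)
    · intro h f hf
      have h1 : Subgroup.zpowers ψ ≤ MulAction.stabilizer Gal(N/k) x := by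
        rw [Subgroup.zpowers_le]
        exact h
      exact h1 hf
  let E : IntermediateField k N := IntermediateField.fixedField (Subgroup.zpowers φ)
  let E1 : IntermediateField k N := IntermediateField.fixedField (Subgroup.zpowers (φ ^ ℓ))
  have hE : ∀ x : N, x ∈ E ↔ φ x = x := memE φ
  have hE1 : ∀ x : N, x ∈ E1 ↔ (φ ^ ℓ) x = x := memE (φ ^ ℓ)
  have hpow : ∀ (i : ℕ) (x : N), φ x = x → (φ ^ i) x = x := by
    intro i x hx
    induction i with
    | zero => rfl
    | succ i ih => rw [pow_succ, AlgEquiv.mul_apply, hx, ih]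
  have hle : E ≤ E1 := fun x hx => (hE1 x).2 (hpow ℓ x ((hE x).1 hx))
  have hL : ∀ x : L, algebraMap L N x ∈ E1 := fun x =>
    (hE1 _).2 (fixedf_pow k L N ℓ hdeg φ x)
  letI iEE1 : Algebra E E1 := (IntermediateField.inclusion hle).toRingHom.toAlgebra
  letI iLE1 : Algebra L E1 := ((algebraMap L N).codRestrict E1 hL).toAlgebra
  haveI t1 : IsScalarTower k E E1 := IsScalarTower.of_algebraMap_eq (fun x => rfl)
  haveI t2 : IsScalarTower k E N := inferInstance
  haveI t3 : IsScalarTower k E1 N := inferInstance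
  haveI t4 : IsScalarTower E E1 N := IsScalarTower.of_algebraMap_eq (fun x => rfl)
  haveI t5 : IsScalarTower k L E1 := IsScalarTower.of_algebraMap_eq (fun x => by
    apply Subtype.ext
    show algebraMap k N x = algebraMap L N (algebraMap k L x)
    exact IsScalarTower.algebraMap_apply k L N x)
  haveI t6 : IsScalarTower L E1 N := IsScalarTower.of_algebraMap_eq (fun x => rfl)
  haveI f1 : FiniteDimensional E N := inferInstance
  haveI f2 : FiniteDimensional E1 N := inferInstance
  haveI f3 : FiniteDimensional E E1 := FiniteDimensional.left E E1 N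
  -- the automorphism `τ`
  have hφE1 : ∀ x : N, x ∈ E1 → φ x ∈ E1 := by
    intro x hx
    rw [hE1] at hx ⊢
    have : (φ ^ ℓ) (φ x) = φ ((φ ^ ℓ) x) := by
      rw [← AlgEquiv.mul_apply, ← AlgEquiv.mul_apply, ← pow_succ, ← pow_succ']
    rw [this, hx]
  let τ0 : E1 →ₐ[E] E1 :=
    { toFun := fun x => ⟨φ x, hφE1 x x.2⟩
      map_one' := Subtype.ext (map_one φ)
      map_mul' := fun x y => Subtype.ext (map_mul φ _ _)
      map_zero' := Subtype.ext (map_zero φ)
      map_add' := fun x y => Subtype.ext (map_add φ _ _)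
      commutes' := fun x => Subtype.ext ((hE _).1 x.2) }
  let τ : Gal(E1/E) := AlgEquiv.ofBijective τ0 τ0.bijective
  have hτ : ∀ x : E1, ((τ x : E1) : N) = φ x := fun x => rfl
  have hτpow : ∀ (i : ℕ) (x : E1), (((τ ^ i) x : E1) : N) = (φ ^ i) x := by
    intro i
    induction i with
    | zero => intro x; rfl
    | succ i ih =>
      intro x
      rw [pow_succ, AlgEquiv.mul_apply, ih, hτ, pow_succ, AlgEquiv.mul_apply]
  have hτℓ : τ ^ ℓ = 1 := by
    ext x
    rw [hτpow]
    exact (hE1 _).1 x.2
  have hτ1 : τ ≠ 1 := by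
    intro h
    obtain ⟨x, hx⟩ := hφ
    apply hx
    have h1 := hτ ⟨algebraMap L N x, hL x⟩
    rw [h] at h1
    exact h1.symm
  have hord : orderOf τ = ℓ := orderOf_eq_prime hτℓ hτ1
  have hcard1 : ℓ ≤ Nat.card Gal(E1/E) := by
    rw [← hord]
    exact orderOf_le_card
  have hcard2 : Nat.card Gal(E1/E) ≤ Module.finrank E E1 := by
    rw [Nat.card_eq_fintype_card]
    exact AlgEquiv.card_le
  -- the degree
  have hEN : Module.finrank E N = orderOf φ := by
    rw [← Nat.card_zpowers]
    exact IntermediateField.finrank_fixedField_eq_card _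
  have hE1N : Module.finrank E1 N = orderOf (φ ^ ℓ) := by
    rw [← Nat.card_zpowers]
    exact IntermediateField.finrank_fixedField_eq_card _
  have htow : Module.finrank E E1 * Module.finrank E1 N = Module.finrank E N :=
    Module.finrank_mul_finrank E E1 N
  have hφpos : 0 < orderOf φ := orderOf_pos φ
  have hdegle : Module.finrank E E1 ≤ ℓ := by
    rw [hEN, hE1N, orderOf_pow' φ hℓ.ne_zero] at htow
    have hg : orderOf φ = (orderOf φ / (orderOf φ).gcd ℓ) * (orderOf φ).gcd ℓ :=
      (Nat.div_mul_cancel (Nat.gcd_dvd_left _ _)).symm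
    have hq : 0 < orderOf φ / (orderOf φ).gcd ℓ :=
      Nat.div_pos (Nat.gcd_le_left _ hφpos) (Nat.gcd_pos_of_pos_left _ hφpos)
    have h1 : Module.finrank E E1 = (orderOf φ).gcd ℓ := by
      apply Nat.eq_of_mul_eq_mul_right hq
      rw [htow, mul_comm]
      exact hg
    rw [h1]
    exact Nat.gcd_le_right _ hℓ.pos
  have hdeg1 : Module.finrank E E1 = ℓ := le_antisymm hdegle (hcard1.trans hcard2)
  have hcard : Nat.card Gal(E1/E) = Module.finrank E E1 :=
    le_antisymm hcard2 (hdeg1.le.trans hcard1)
  have hgal : IsGalois E E1 := IsGalois.of_card_aut_eq_finrank E E1 hcard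
  refine ⟨E, E1, inferInstance, inferInstance, inferInstance, inferInstance, inferInstance,
    inferInstance, iEE1, inferInstance, inferInstance, iLE1, t1, t2, t3, t4, t5, t6, hgal, hdeg1,
    inferInstance, ?_, ?_, ?_, τ, hτ⟩
  · intro x
    rw [← hE]
    constructor
    · rintro ⟨y, rfl⟩
      exact y.2
    · intro h
      exact ⟨⟨x, h⟩, rfl⟩
  · intro x
    rw [← hE1]
    constructor
    · rintro ⟨y, rfl⟩
      exact y.2
    · intro h
      exact ⟨⟨x, h⟩, rfl⟩
  · intro σ
    have h1 : (σ.restrictScalars k : Gal(N/k)) ∈ Subgroup.zpowers φ := by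
      rw [← IntermediateField.fixingSubgroup_fixedField (Subgroup.zpowers φ)]
      intro x
      exact σ.commutes x
    rw [← mem_powers_iff_mem_zpowers] at h1
    obtain ⟨i, hi⟩ := h1
    refine ⟨i, fun x => ?_⟩
    have hi' : φ ^ i = σ.restrictScalars k := hi
    rw [hi']
    rfl

end Pool.Agent.Lib.MP_1a91b9_ntT.CF
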