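import Pool.Agent.Lib.MP_1a91b9_ntT.CF.Bump
import Pool.Agent.Lib.MP_1a91b9_ntT.CF.ZLat

/-! # CF: smooth counting of the elements of a ray class modulo units

PROOF (complete; job of helper29, see team-store bsd_D_doc_CF.md):
n = finrank Q F. U_m = {u unit : u - 1 in m} has finite index in the units (kernel of the map to
(O/m)^x). Choose M >= 1 with u^M in U_m for all units u (M = the order of (O/m)^x or the factorial of
the index). V = {prod fundSystem_i^(M e_i) : e in Z^r} is contained in U_m, e -> product is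
injective, and V has finite index in U_m: let c = [U_m : V]. Let G be from exists_bump F M. For
z <> 0 in O_F and Y > 0: sum_{e} G(v_e . z / Y^(1/n)) = tent(log(|N z| / Y)) = tentN Y (absNorm(z)).
Claim: sum_{r in R} tentN(N(b) y)(N r) = (1/c) sum_{z in t + m b, z <> 0} G(z / (N(b) y)^(1/n)).
Indeed every z <> 0 in t + mb is u r with r in R unique and u in U_m unique (r <> 0), and conversely
u r - t = (u-1) r + (r - t) in m b (r in b as t in b). So the sum over z is sum_r sum_{u in U_m}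
G(u r / .) = sum_r c * tentN(..)(N r) (write U_m as the disjoint union of c cosets w_j V and use
sum_{v in V} G(v w_j r/.) = tent(log N(w_j r)/..) and |N w_j| = 1). All sums are finite sums (compact
support and the lattice; only finitely many z contribute). z = 0 (when t in m b) contributes G(0) = 0
as the norm of 0 is 0. Now {mixedEmbedding z : z in m b} is a Z-lattice (idealLattice) with covolume
absNorm(m) absNorm(b) * c_F, c_F = 2^(-r2) sqrt|d| (covolume_idealLattice). By ZLat with t' =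
mixedEmbedding t and R = (N(b) y)^(1/n) >= 1: the sum over z = R^n int G/(N(m) N(b) c_F) + O(R^(n-1))
= N(b) y int G /(N(m) N(b) c_F) + O(...) = y * (int G /(N(m) c_F)) + O(y^(1 - 1/n)), the O-constant
may depend on b, t (also N(b)^(1-1/n) is absorbed in it). kappa = (1/c) int G / (N(m) c_F) depends
only on F and m (M, G, c are chosen before b, t).
-/

set_option autoImplicit false

namespace Pool.Agent.Lib.MP_1a91b9_ntT.CF

open NumberField IsDedekindDomain UniqueFactorizationMonoid Pool.Agent.Lib.MP_1a91b9_nt S4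

universe u

noncomputable section Aux

variable (F : Type u) [Field F] [NumberField F]

/-- the units which are `1` modulo `m` -/
def classsum_Um (m : Ideal (𝓞 F)) : Subgroup (𝓞 F)ˣ where
  carrier := {u | (u : 𝓞 F) - 1 ∈ m}
  mul_mem' := by
    intro u v hu hv
    show ((u * v : (𝓞 F)ˣ) : 𝓞 F) - 1 ∈ m
    have e : ((u * v : (𝓞 F)ˣ) : 𝓞 F) - 1 = (u : 𝓞 F) * ((v : 𝓞 F) - 1) + ((u : 𝓞 F) - 1) := by
      push_cast
      ring
    rw [e]
    exact Ideal.add_mem _ (Ideal.mul_mem_left _ _ hv) hu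
  one_mem' := by
    show ((1 : (𝓞 F)ˣ) : 𝓞 F) - 1 ∈ m
    simp
  inv_mem' := by
    intro u hu
    show ((u⁻¹ : (𝓞 F)ˣ) : 𝓞 F) - 1 ∈ m
    have e : ((u⁻¹ : (𝓞 F)ˣ) : 𝓞 F) - 1 = -(((u⁻¹ : (𝓞 F)ˣ) : 𝓞 F) * ((u : 𝓞 F) - 1)) := by
      have h1 : ((u⁻¹ : (𝓞 F)ˣ) : 𝓞 F) * u = 1 := Units.inv_mul u
      linear_combination h1
    rw [e]
    exact (Ideal.neg_mem_iff _).2 (Ideal.mul_mem_left _ _ hu)

/-- the products of the `M`-th powers of the fundamental units -/
def classsum_ve (M : ℕ) : Multiplicative (Fin (Units.rank F) → ℤ) →* (𝓞 F)ˣ where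
  toFun e := ∏ i, (Units.fundSystem F i) ^ ((M : ℤ) * (Multiplicative.toAdd e) i)
  map_one' := by simp
  map_mul' := by
    intro a b
    rw [← Finset.prod_mul_distrib]
    refine Finset.prod_congr rfl fun i _ => ?_
    rw [toAdd_mul, Pi.add_apply, mul_add, zpow_add]

theorem classsum_M (m : Ideal (𝓞 F)) (hm : m ≠ 0) :
    ∃ M : ℕ, 0 < M ∧ ∀ u : (𝓞 F)ˣ, u ^ M ∈ classsum_Um F m := by
  have hfin : Finite (𝓞 F ⧸ m) := m.finiteQuotientOfFreeOfNeBot hm
  have hfin2 : Finite (𝓞 F ⧸ m)ˣ := inferInstance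
  refine ⟨Nat.card (𝓞 F ⧸ m)ˣ, Nat.card_pos, fun u => ?_⟩
  show ((u ^ Nat.card (𝓞 F ⧸ m)ˣ : (𝓞 F)ˣ) : 𝓞 F) - 1 ∈ m
  rw [← Ideal.Quotient.eq, map_one]
  have h1 : (Units.map (Ideal.Quotient.mk m : 𝓞 F →* 𝓞 F ⧸ m) u) ^ Nat.card (𝓞 F ⧸ m)ˣ = 1 :=
    pow_card_eq_one'
  rw [← map_pow] at h1
  have h2 := congrArg (Units.val) h1
  exact h2

theorem classsum_ve_inj {M : ℕ} (hM : 0 < M) : Function.Injective (classsum_ve F M) := by
  intro a b hab
  obtain ⟨ζe, -, huniq⟩ := Units.exist_unique_eq_mul_prod F (classsum_ve F M a)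
  have h1 := huniq (⟨1, one_mem _⟩, fun i => (M : ℤ) * (Multiplicative.toAdd a) i) (by
    show classsum_ve F M a = 1 * _
    rw [one_mul]
    rfl)
  have h2 := huniq (⟨1, one_mem _⟩, fun i => (M : ℤ) * (Multiplicative.toAdd b) i) (by
    show classsum_ve F M a = 1 * _
    rw [one_mul, hab]
    rfl)
  have h3 := congrArg Prod.snd (h1.trans h2.symm)
  apply Multiplicative.toAdd.injective
  funext i
  have h4 := congrFun h3 i
  have hM' : (M : ℤ) ≠ 0 := by exact_mod_cast hM.ne'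
  exact mul_left_cancel₀ hM' h4

theorem classsum_fin {M : ℕ} (hM : 0 < M) : (classsum_ve F M).range.FiniteIndex := by
  have htor : IsMulTorsion ((𝓞 F)ˣ ⧸ (classsum_ve F M).range) := by
    intro q
    induction q using QuotientGroup.induction_on with
    | H x =>
      obtain ⟨⟨ζ, f⟩, hx, -⟩ := Units.exist_unique_eq_mul_prod F x
      have hζ : IsOfFinOrder (ζ : (𝓞 F)ˣ) := (CommGroup.mem_torsion _).1 ζ.2
      obtain ⟨w, hw, hw1⟩ := isOfFinOrder_iff_pow_eq_one.1 hζ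
      refine isOfFinOrder_iff_pow_eq_one.2 ⟨w * M, Nat.mul_pos hw hM, ?_⟩
      rw [← QuotientGroup.mk_pow, QuotientGroup.eq_one_iff]
      refine ⟨Multiplicative.ofAdd (fun i => (w : ℤ) * f i), ?_⟩
      rw [hx, mul_pow, pow_mul, hw1, one_pow, one_mul, ← Finset.prod_pow]
      show ∏ i, Units.fundSystem F i ^ ((M : ℤ) * ((w : ℤ) * f i)) = _
      refine Finset.prod_congr rfl fun i _ => ?_
      rw [← zpow_natCast, ← zpow_mul]
      congr 1
      push_cast
      ring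
  have hfg0 : Group.FG (𝓞 F)ˣ := (Group.fg_iff_monoid_fg).2 inferInstance
  have hfg : Group.FG ((𝓞 F)ˣ ⧸ (classsum_ve F M).range) := inferInstance
  have : Finite ((𝓞 F)ˣ ⧸ (classsum_ve F M).range) :=
    CommGroup.finite_of_fg_isMulTorsion (G := (𝓞 F)ˣ ⧸ (classsum_ve F M).range) htor
  exact Subgroup.finiteIndex_of_finite_quotient

/-- A group with a subgroup: representatives times elements. -/
def classsum_eqv {G : Type*} [Group G] (V : Subgroup G) : (G ⧸ V) × V ≃ G :=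
  Equiv.ofBijective (fun p => Quotient.out p.1 * (p.2 : G)) (by
    constructor
    · rintro ⟨q, v⟩ ⟨q', v'⟩ h
      have h1 : (Quotient.out q : G) * (v : G) = Quotient.out q' * (v' : G) := h
      have hq : q = q' := by
        have e1 : ((Quotient.out q * (v : G) : G) : G ⧸ V) = q := by
          rw [QuotientGroup.mk_mul_of_mem _ v.2]
          exact Quotient.out_eq q
        have e2 : ((Quotient.out q' * (v' : G) : G) : G ⧸ V) = q' := by
          rw [QuotientGroup.mk_mul_of_mem _ v'.2]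
          exact Quotient.out_eq q'
        rw [← e1, ← e2, h1]
      subst hq
      have hv : v = v' := Subtype.ext (mul_left_cancel h1)
      rw [hv]
    · intro g
      have h : (Quotient.out (g : G ⧸ V) : G)⁻¹ * g ∈ V := by
        rw [← QuotientGroup.eq]
        exact Quotient.out_eq _
      exact ⟨(↑g, ⟨_, h⟩), mul_inv_cancel_left _ _⟩)

open scoped Classical in
open mixedEmbedding in
/-- the sum over the units which are `1` modulo `m` -/
theorem classsum_units (m : Ideal (𝓞 F)) {M : ℕ} (hM : 0 < M)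
    (hMm : ∀ u : (𝓞 F)ˣ, u ^ M ∈ classsum_Um F m) (G : mixedEmbedding.mixedSpace F → ℝ)
    (hG : ∀ x, mixedEmbedding.norm x ≠ 0 →
        HasSum (fun e : Fin (Units.rank F) → ℤ =>
          G ((∏ i, (Units.fundSystem F i) ^ ((M : ℤ) * e i)) • x))
          (tent (Real.log (mixedEmbedding.norm x)))) :
    ∃ c : ℝ, 0 < c ∧ ∀ x : mixedEmbedding.mixedSpace F, mixedEmbedding.norm x ≠ 0 →
      (Function.support fun u : classsum_Um F m => G ((u : (𝓞 F)ˣ) • x)).Finite →
      ∑' u : classsum_Um F m, G ((u : (𝓞 F)ˣ) • x) =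
        c * tent (Real.log (mixedEmbedding.norm x)) := by
  have hmem : ∀ e, classsum_ve F M e ∈ classsum_Um F m := by
    intro e
    show (∏ i, (Units.fundSystem F i) ^ ((M : ℤ) * (Multiplicative.toAdd e) i)) ∈
      classsum_Um F m
    refine Subgroup.prod_mem (classsum_Um F m) fun i _ => ?_
    rw [zpow_mul, zpow_natCast]
    exact Subgroup.zpow_mem _ (hMm _) _
  set V : Subgroup (classsum_Um F m) := (classsum_ve F M).range.subgroupOf (classsum_Um F m)
    with hV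
  have hfi : (classsum_ve F M).range.FiniteIndex := classsum_fin F hM
  have hfi2 : V.FiniteIndex := Subgroup.instFiniteIndex_subgroupOf _ _
  have hfin : Finite (classsum_Um F m ⧸ V) := Subgroup.finite_quotient_of_finiteIndex
  have : Fintype (classsum_Um F m ⧸ V) := Fintype.ofFinite _
  let ε : (Fin (Units.rank F) → ℤ) ≃ V := Equiv.ofBijective
    (fun e => ⟨⟨classsum_ve F M (Multiplicative.ofAdd e), hmem _⟩, ⟨Multiplicative.ofAdd e, rfl⟩⟩)
    (by
      constructor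
      · intro e e' h
        have h1 : classsum_ve F M (Multiplicative.ofAdd e) =
            classsum_ve F M (Multiplicative.ofAdd e') :=
          congrArg (fun v : V => ((v : classsum_Um F m) : (𝓞 F)ˣ)) h
        exact Multiplicative.ofAdd.injective (classsum_ve_inj F hM h1)
      · rintro ⟨⟨u, hu⟩, ⟨e, he⟩⟩
        refine ⟨Multiplicative.toAdd e, ?_⟩
        apply Subtype.ext
        apply Subtype.ext
        exact he)
  refine ⟨(Fintype.card (classsum_Um F m ⧸ V) : ℝ), ?_, ?_⟩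
  · have : 0 < Fintype.card (classsum_Um F m ⧸ V) := Fintype.card_pos
    exact_mod_cast this
  · intro x hx hsupp
    rw [← (classsum_eqv V).tsum_eq]
    have hs : Summable fun p : (classsum_Um F m ⧸ V) × V =>
        G (((classsum_eqv V p : classsum_Um F m) : (𝓞 F)ˣ) • x) := by
      have h1 := hsupp.preimage ((classsum_eqv V).injective.injOn)
      exact summable_of_hasFiniteSupport h1
    rw [hs.tsum_prod]
    have h2 : ∀ q : classsum_Um F m ⧸ V, ∑' v : V,
        G (((classsum_eqv V (q, v) : classsum_Um F m) : (𝓞 F)ˣ) • x) =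
          tent (Real.log (mixedEmbedding.norm x)) := by
      intro q
      rw [← ε.tsum_eq]
      have hn : mixedEmbedding.norm (((Quotient.out q : classsum_Um F m) : (𝓞 F)ˣ) • x) =
          mixedEmbedding.norm x := norm_unit_smul _ _
      have h3 := (hG (((Quotient.out q : classsum_Um F m) : (𝓞 F)ˣ) • x)
        (by rw [hn]; exact hx)).tsum_eq
      rw [hn] at h3
      rw [← h3]
      refine tsum_congr fun e => ?_
      congr 1
      rw [← mul_smul]
      congr 1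
      show ((Quotient.out q : classsum_Um F m) : (𝓞 F)ˣ) * classsum_ve F M _ = _
      rw [mul_comm]
      rfl
    rw [tsum_congr h2, tsum_fintype, Finset.sum_const, nsmul_eq_mul, Finset.card_univ]

/-- the norm of `R⁻¹ z` -/
theorem classsum_norm (z : 𝓞 F) (Y : ℝ) (R : ℝ) (hR : 0 < R)
    (hRY : R ^ Module.finrank ℚ F = Y) :
    mixedEmbedding.norm (R⁻¹ • mixedEmbedding F (z : F)) =
      (Ideal.absNorm (Ideal.span {z}) : ℝ) / Y := by
  rw [mixedEmbedding.norm_smul, mixedEmbedding.norm_eq_norm, abs_of_pos (inv_pos.2 hR), inv_pow,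
    hRY, Ideal.absNorm_span_singleton]
  have h1 : (Algebra.norm ℚ (z : F)) = ((Algebra.norm ℤ z : ℤ) : ℚ) := by
    rw [← Algebra.coe_norm_int]
  rw [h1, Nat.cast_natAbs]
  push_cast
  rw [div_eq_inv_mul]

/-- The sum over the lattice points. -/
theorem classsum_lat (m : Ideal (𝓞 F)) (hm : m ≠ 0) (b : Ideal (𝓞 F)) (hb : b ≠ 0)
    (t : 𝓞 F) :
    ∃ ε : {z : 𝓞 F // z - t ∈ m * b} ≃ mixedEmbedding.idealLattice F
        (FractionalIdeal.mk0 F ⟨m * b, mem_nonZeroDivisors_of_ne_zero (mul_ne_zero hm hb)⟩),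
      ∀ z : {z : 𝓞 F // z - t ∈ m * b}, mixedEmbedding F ((z : 𝓞 F) : F) =
        mixedEmbedding F (t : F) + (ε z : mixedEmbedding.mixedSpace F) := by
  have hmem : ∀ z : {z : 𝓞 F // z - t ∈ m * b}, mixedEmbedding F (((z : 𝓞 F) - t : 𝓞 F) : F) ∈
      mixedEmbedding.idealLattice F
        (FractionalIdeal.mk0 F ⟨m * b, mem_nonZeroDivisors_of_ne_zero (mul_ne_zero hm hb)⟩) := by
    intro z
    rw [mixedEmbedding.mem_idealLattice]
    refine ⟨(((z : 𝓞 F) - t : 𝓞 F) : F), ?_, rfl⟩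
    rw [FractionalIdeal.coe_mk0]
    exact (FractionalIdeal.mem_coeIdeal _).2 ⟨_, z.2, rfl⟩
  refine ⟨Equiv.ofBijective (fun z => ⟨_, hmem z⟩) ?_, ?_⟩
  · constructor
    · intro z z' h
      have h1 : mixedEmbedding F (((z : 𝓞 F) - t : 𝓞 F) : F) =
          mixedEmbedding F (((z' : 𝓞 F) - t : 𝓞 F) : F) := congrArg Subtype.val h
      have h2 := mixedEmbedding_injective F h1
      have h3 : (z : 𝓞 F) - t = (z' : 𝓞 F) - t := RingOfIntegers.coe_injective h2
      exact Subtype.ext (sub_left_injective h3)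
    · rintro ⟨x, hx⟩
      obtain ⟨y, hy, rfl⟩ := (mixedEmbedding.mem_idealLattice F _).1 hx
      rw [FractionalIdeal.coe_mk0] at hy
      obtain ⟨w, hw, rfl⟩ := (FractionalIdeal.mem_coeIdeal _).1 hy
      refine ⟨⟨w + t, by rwa [add_sub_cancel_right]⟩, ?_⟩
      apply Subtype.ext
      show mixedEmbedding F (((w + t) - t : 𝓞 F) : F) = _
      rw [add_sub_cancel_right]
  · intro z
    show _ = mixedEmbedding F (t : F) + mixedEmbedding F (((z : 𝓞 F) - t : 𝓞 F) : F)
    rw [← map_add]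
    congr 1
    push_cast
    ring

open scoped Classical in
open mixedEmbedding in
/-- The sum over the representatives as a sum over the lattice. -/
theorem classsum_unfold (m : Ideal (𝓞 F)) (hm : m ≠ 0) (b : Ideal (𝓞 F)) (hb : b ≠ 0) (t : 𝓞 F)
    (ht : t ∈ b) (G : mixedEmbedding.mixedSpace F → ℝ) (hGc : HasCompactSupport G)
    (hG0 : G 0 = 0) (c : ℝ)
    (hc : ∀ x : mixedEmbedding.mixedSpace F, mixedEmbedding.norm x ≠ 0 →
      (Function.support fun u : classsum_Um F m => G ((u : (𝓞 F)ˣ) • x)).Finite →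
      ∑' u : classsum_Um F m, G ((u : (𝓞 F)ˣ) • x) =
        c * tent (Real.log (mixedEmbedding.norm x)))
    (S : Set (𝓞 F)) (hS : IsRep m b t S) (Y : ℝ) (hY : 0 < Y) (R : ℝ) (hR : 0 < R)
    (hRY : R ^ Module.finrank ℚ F = Y) :
    ∑' x : mixedEmbedding.idealLattice F
        (FractionalIdeal.mk0 F ⟨m * b, mem_nonZeroDivisors_of_ne_zero (mul_ne_zero hm hb)⟩),
      G (R⁻¹ • (mixedEmbedding F (t : F) + (x : mixedEmbedding.mixedSpace F))) =
      c * ∑' r : S, tentN Y (Ideal.absNorm (Ideal.span {(r : 𝓞 F)})) := by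
  obtain ⟨ε, hε⟩ := classsum_lat F m hm b hb t
  rw [← ε.tsum_eq]
  have e1 : ∀ z : {z : 𝓞 F // z - t ∈ m * b},
      G (R⁻¹ • (mixedEmbedding F (t : F) + (ε z : mixedEmbedding.mixedSpace F))) =
        G (R⁻¹ • mixedEmbedding F ((z : 𝓞 F) : F)) := by
    intro z
    rw [hε z]
  rw [tsum_congr e1]
  have hfinΛ := zlat_support_finite (mixedEmbedding.idealLattice F
    (FractionalIdeal.mk0 F ⟨m * b, mem_nonZeroDivisors_of_ne_zero (mul_ne_zero hm hb)⟩)) G hGc
    (mixedEmbedding F (t : F)) R hR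
  have hfinZ : (Function.support fun z : {z : 𝓞 F // z - t ∈ m * b} =>
      G (R⁻¹ • mixedEmbedding F ((z : 𝓞 F) : F))).Finite := by
    have h1 := hfinΛ.preimage (f := ε) ε.injective.injOn
    refine h1.subset fun z hz => ?_
    have hz' : G (R⁻¹ • mixedEmbedding F ((z : 𝓞 F) : F)) ≠ 0 := hz
    show G (R⁻¹ • (mixedEmbedding F (t : F) + (ε z : mixedEmbedding.mixedSpace F))) ≠ 0
    rwa [e1 z]
  have hmbb : m * b ≤ b := Ideal.mul_le_right
  have hSb : ∀ r ∈ S, r ∈ b := by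
    intro r hr
    have h1 := hmbb (hS.mem r hr)
    have h2 := Ideal.add_mem _ h1 ht
    rwa [sub_add_cancel] at h2
  have hmemz : ∀ (p : {r : S // (r : 𝓞 F) ≠ 0} × classsum_Um F m),
      (((p.2 : (𝓞 F)ˣ) : 𝓞 F) * (p.1.1 : 𝓞 F)) - t ∈ m * b := by
    rintro ⟨⟨⟨r, hr⟩, hr0⟩, ⟨u, hu⟩⟩
    show (u : 𝓞 F) * r - t ∈ m * b
    have e : (u : 𝓞 F) * r - t = ((u : 𝓞 F) - 1) * r + (r - t) := by ring
    rw [e]
    exact Ideal.add_mem _ (Ideal.mul_mem_mul hu (hSb r hr)) (hS.mem r hr)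
  let Φ : {r : S // (r : 𝓞 F) ≠ 0} × classsum_Um F m → {z : 𝓞 F // z - t ∈ m * b} :=
    fun p => ⟨_, hmemz p⟩
  have hΦinj : Function.Injective Φ := by
    rintro ⟨⟨⟨r, hr⟩, hr0⟩, ⟨u, hu⟩⟩ ⟨⟨⟨r', hr'⟩, hr0'⟩, ⟨u', hu'⟩⟩ h
    have h1 : (u : 𝓞 F) * r = (u' : 𝓞 F) * r' := congrArg Subtype.val h
    have hw : u'⁻¹ * u ∈ classsum_Um F m := Subgroup.mul_mem _ (Subgroup.inv_mem _ hu') hu
    have h2 : r' = ((u'⁻¹ * u : (𝓞 F)ˣ) : 𝓞 F) * r := by
      rw [Units.val_mul, mul_assoc, h1, ← mul_assoc, Units.inv_mul, one_mul]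
    have h3 : r = r' := hS.uniq r hr r' hr' _ hw h2
    subst h3
    have h4 : (u : 𝓞 F) = (u' : 𝓞 F) := mul_right_cancel₀ hr0 h1
    have h5 : u = u' := Units.ext h4
    subst h5
    rfl
  have hrange : (Function.support fun z : {z : 𝓞 F // z - t ∈ m * b} =>
      G (R⁻¹ • mixedEmbedding F ((z : 𝓞 F) : F))) ⊆ Set.range Φ := by
    rintro ⟨z, hz⟩ hz0
    have hz0' : G (R⁻¹ • mixedEmbedding F (z : F)) ≠ 0 := hz0
    obtain ⟨u, hu, r, hr, rfl⟩ := hS.ex z hz
    have hr0 : r ≠ 0 := by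
      rintro rfl
      apply hz0'
      rw [mul_zero]
      simpa using hG0
    exact ⟨(⟨⟨r, hr⟩, hr0⟩, ⟨u, hu⟩), rfl⟩
  rw [← hΦinj.tsum_eq hrange]
  have hsum : Summable fun p : {r : S // (r : 𝓞 F) ≠ 0} × classsum_Um F m =>
      G (R⁻¹ • mixedEmbedding F (((Φ p : {z : 𝓞 F // z - t ∈ m * b}) : 𝓞 F) : F)) := by
    have h1 := hfinZ.preimage (f := Φ) hΦinj.injOn
    exact summable_of_hasFiniteSupport h1
  rw [hsum.tsum_prod]
  have hinner : ∀ r : {r : S // (r : 𝓞 F) ≠ 0}, ∑' u : classsum_Um F m,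
      G (R⁻¹ • mixedEmbedding F (((Φ (r, u) : {z : 𝓞 F // z - t ∈ m * b}) : 𝓞 F) : F)) =
        c * tentN Y (Ideal.absNorm (Ideal.span {((r : S) : 𝓞 F)})) := by
    intro r
    have hn := classsum_norm F ((r : S) : 𝓞 F) Y R hR hRY
    have hN : Ideal.absNorm (Ideal.span {((r : S) : 𝓞 F)}) ≠ 0 := by
      rw [Ne, Ideal.absNorm_eq_zero_iff, Ideal.span_singleton_eq_bot]
      exact r.2
    have hN' : (0 : ℝ) < (Ideal.absNorm (Ideal.span {((r : S) : 𝓞 F)}) : ℝ) := by
      exact_mod_cast Nat.pos_of_ne_zero hN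
    have hx : mixedEmbedding.norm (R⁻¹ • mixedEmbedding F (((r : S) : 𝓞 F) : F)) ≠ 0 := by
      rw [hn]
      exact (div_pos hN' hY).ne'
    have e2 : ∀ u : classsum_Um F m,
        G (R⁻¹ • mixedEmbedding F (((Φ (r, u) : {z : 𝓞 F // z - t ∈ m * b}) : 𝓞 F) : F)) =
        G ((u : (𝓞 F)ˣ) • (R⁻¹ • mixedEmbedding F (((r : S) : 𝓞 F) : F))) := by
      intro u
      congr 1
      rw [unitSMul_smul, mul_smul_comm, ← map_mul]
      rfl
    have hfs : (Function.support fun u : classsum_Um F m =>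
        G ((u : (𝓞 F)ˣ) • (R⁻¹ • mixedEmbedding F (((r : S) : 𝓞 F) : F)))).Finite := by
      have hinj : Function.Injective fun u : classsum_Um F m => Φ (r, u) := by
        intro u u' h
        exact (Prod.ext_iff.1 (hΦinj h)).2
      have h1 := hfinZ.preimage (f := fun u : classsum_Um F m => Φ (r, u)) hinj.injOn
      refine h1.subset fun u hu => ?_
      have hu' : G ((u : (𝓞 F)ˣ) • (R⁻¹ • mixedEmbedding F (((r : S) : 𝓞 F) : F))) ≠ 0 := hu
      show G (R⁻¹ • mixedEmbedding F (((Φ (r, u) : {z : 𝓞 F // z - t ∈ m * b}) : 𝓞 F) : F)) ≠ 0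
      rwa [e2 u]
    rw [tsum_congr e2, hc _ hx hfs, hn, tentN, if_neg hN]
  rw [tsum_congr hinner, tsum_mul_left]
  congr 1
  have hinj2 : Function.Injective (fun r : {r : S // (r : 𝓞 F) ≠ 0} => (r : S)) :=
    Subtype.val_injective
  rw [← hinj2.tsum_eq (f := fun r : S => tentN Y (Ideal.absNorm (Ideal.span {(r : 𝓞 F)})))]
  intro r hr
  refine ⟨⟨r, fun h0 => ?_⟩, rfl⟩
  have hr' : tentN Y (Ideal.absNorm (Ideal.span {(r : 𝓞 F)})) ≠ 0 := hr
  apply hr'
  rw [h0, Ideal.span_singleton_zero, Ideal.absNorm_bot]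
  simp [tentN]

end Aux

/-- The smooth count of a system of representatives of `{z ∈ t + m b}` modulo the units which are
`1` modulo `m`: the main term does not depend on `b` and `t`. -/
theorem class_sum (F : Type u) [Field F] [NumberField F] (m : Ideal (𝓞 F)) (hm : m ≠ 0) :
    ∃ κ : ℝ, ∀ (b : Ideal (𝓞 F)) (t : 𝓞 F), b ≠ 0 → t ∈ b →
      ∃ D : ℝ, ∀ (R : Set (𝓞 F)), IsRep m b t R → ∀ y : ℝ, 1 ≤ y →
        |∑' r : R, tentN ((Ideal.absNorm b : ℝ) * y) (Ideal.absNorm (Ideal.span {(r : 𝓞 F)})) -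
            κ * y| ≤
          D * y ^ (1 - 1 / (Module.finrank ℚ F : ℝ)) := by
  classical
  obtain ⟨M, hM, hMm⟩ := classsum_M F m hm
  obtain ⟨G, C, hGL, hGc, hGz, hG⟩ := exists_bump F M hM
  obtain ⟨c, hc0, hc⟩ := classsum_units F m hM hMm G hG
  have hn : 0 < Module.finrank ℚ F := Module.finrank_pos
  have hG0 : G 0 = 0 := hGz 0 (map_zero _)
  set cF : ℝ := (2⁻¹) ^ (InfinitePlace.nrComplexPlaces F) * √|(discr F : ℝ)| with hcF
  have hcF0 : 0 < cF := by
    have h1 : (0 : ℝ) < |(discr F : ℝ)| := abs_pos.2 (by exact_mod_cast discr_ne_zero F)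
    positivity
  have hNm : (0 : ℝ) < (Ideal.absNorm m : ℝ) := by
    exact_mod_cast Nat.pos_of_ne_zero (by rw [Ne, Ideal.absNorm_eq_zero_iff]; exact hm)
  refine ⟨(∫ x, G x) / ((Ideal.absNorm m : ℝ) * cF) / c, fun b t hb ht => ?_⟩
  obtain ⟨D, hD⟩ := zlat_sum (MeasureTheory.volume : MeasureTheory.Measure
    (mixedEmbedding.mixedSpace F)) (mixedEmbedding.idealLattice F
    (FractionalIdeal.mk0 F ⟨m * b, mem_nonZeroDivisors_of_ne_zero (mul_ne_zero hm hb)⟩)) G C
    hGL hGc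
  have hNb1 : (1 : ℝ) ≤ (Ideal.absNorm b : ℝ) := by
    exact_mod_cast Nat.one_le_iff_ne_zero.2 (by rw [Ne, Ideal.absNorm_eq_zero_iff]; exact hb)
  have hNb : (0 : ℝ) < (Ideal.absNorm b : ℝ) := zero_lt_one.trans_le hNb1
  refine ⟨D * (Ideal.absNorm b : ℝ) ^ (1 - 1 / (Module.finrank ℚ F : ℝ)) / c,
    fun S hS y hy => ?_⟩
  have hy0 : (0 : ℝ) < y := zero_lt_one.trans_le hy
  set Y : ℝ := (Ideal.absNorm b : ℝ) * y with hYdef
  have hY1 : 1 ≤ Y := one_le_mul_of_one_le_of_one_le hNb1 hy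
  have hY0 : 0 < Y := zero_lt_one.trans_le hY1
  set R : ℝ := Y ^ ((Module.finrank ℚ F : ℝ)⁻¹) with hRdef
  have hR1 : 1 ≤ R := Real.one_le_rpow hY1 (by positivity)
  have hR0 : 0 < R := zero_lt_one.trans_le hR1
  have hRY : R ^ Module.finrank ℚ F = Y := Real.rpow_inv_natCast_pow hY0.le hn.ne'
  have h1 := hD (mixedEmbedding F (t : F)) R hR1
  rw [classsum_unfold F m hm b hb t ht G hGc hG0 c hc S hS Y hY0 R hR0 hRY,
    mixedEmbedding.finrank, hRY, mixedEmbedding.covolume_idealLattice] at h1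
  rw [FractionalIdeal.coe_mk0, FractionalIdeal.coeIdeal_absNorm] at h1
  have e1 : (((Ideal.absNorm (m * b) : ℕ) : ℚ) : ℝ) =
      (Ideal.absNorm m : ℝ) * (Ideal.absNorm b : ℝ) := by
    rw [map_mul]
    push_cast
    ring
  rw [e1, mul_assoc ((Ideal.absNorm m : ℝ) * (Ideal.absNorm b : ℝ)), ← hcF] at h1
  have e2 : Y * ((∫ x, G x) / ((Ideal.absNorm m : ℝ) * (Ideal.absNorm b : ℝ) * cF)) =
      c * ((∫ x, G x) / ((Ideal.absNorm m : ℝ) * cF) / c * y) := by
    rw [hYdef]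
    field_simp
  have e3 : D * Y / R = c * (D * (Ideal.absNorm b : ℝ) ^ (1 - 1 / (Module.finrank ℚ F : ℝ)) / c *
      y ^ (1 - 1 / (Module.finrank ℚ F : ℝ))) := by
    have e4 : Y / R = (Ideal.absNorm b : ℝ) ^ (1 - 1 / (Module.finrank ℚ F : ℝ)) *
        y ^ (1 - 1 / (Module.finrank ℚ F : ℝ)) := by
      rw [← Real.mul_rpow hNb.le hy0.le, ← hYdef, hRdef, Real.rpow_sub hY0, Real.rpow_one,
        one_div]
    rw [mul_div_assoc, e4]
    field_simp
  rw [e2, e3, ← mul_sub, abs_mul, abs_of_pos hc0] at h1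
  exact le_of_mul_le_mul_left h1 hc0

end Pool.Agent.Lib.MP_1a91b9_ntT.CF
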