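import Pool.Agent.Lib.MP_1a91b9_ntT.CF.RayFun

/-! # CF: the ray class function of a cyclotomic extension

PROOF (complete; job of helper29, see team-store bsd_D_doc_CF.md):
Let alpha : zpowers a -> ZMod ell be the homomorphism a^i -> i (well defined since ell | order of a).
For w not containing q: nrm w = a^i mod q; put x w = i (any such i; well defined mod ell), x w = 0 if
q in w. princ: z - 1 in (q), z <> 0: prod_w nrm(w)^(ord_w z) = absNorm (z) = |N_{E/Q} z|, and N z = 1
mod q (NormRC.norm_one_mod for k = Q or directly: Algebra.norm Z, matrix congruent to 1 mod q), so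
prod = +-1 mod q. With nrm w = a^(i_w): a^(sum ord_w i_w) = +-1, so a^(2 sum) = 1, ell | order a | 2 sum,
ell odd: ell | sum = evI x (z). (The factors w of (z) do not contain q.)
-/

set_option autoImplicit false

namespace Pool.Agent.Lib.MP_1a91b9_ntT.CF

open NumberField IsDedekindDomain UniqueFactorizationMonoid Pool.Agent.Lib.MP_1a91b9_nt S4

universe u

private theorem cycRC_norm (E : Type u) [Field E] [NumberField E] (q : ℕ) (z : 𝓞 E)
    (hz : z - 1 ∈ Ideal.span {(q : 𝓞 E)}) : ((Algebra.norm ℤ z : ℤ) : ZMod q) = 1 := by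
  rw [Ideal.mem_span_singleton] at hz
  obtain ⟨s, hs⟩ := hz
  have hz' : z = 1 + (q : ℤ) • s := by
    rw [zsmul_eq_mul, Int.cast_natCast, ← hs]
    ring
  set B := Module.Free.chooseBasis ℤ (𝓞 E)
  rw [Algebra.norm_eq_matrix_det B]
  show (Int.castRingHom (ZMod q)) (Matrix.det _) = 1
  rw [RingHom.map_det]
  have h1 : (Int.castRingHom (ZMod q)).mapMatrix (Algebra.leftMulMatrix B z) = 1 := by
    ext i j
    rw [hz', map_add, map_one, map_smul]
    simp only [RingHom.mapMatrix_apply, Matrix.map_apply, Matrix.add_apply, Matrix.smul_apply,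
      map_add, smul_eq_mul, map_mul, eq_intCast, Int.cast_natCast, CharP.cast_eq_zero, zero_mul,
      add_zero]
    rcases eq_or_ne i j with rfl | hij
    · rw [Matrix.one_apply_eq, Matrix.one_apply_eq, Int.cast_one]
    · rw [Matrix.one_apply_ne hij, Matrix.one_apply_ne hij, Int.cast_zero]
  rw [h1, Matrix.det_one]

private theorem cycRC_prod (E : Type u) [Field E] [NumberField E] (q : ℕ) (a : (ZMod q)ˣ)
    (g : Ideal (𝓞 E) → ℕ) (s : Multiset (Ideal (𝓞 E)))
    (h : ∀ P ∈ s, (Ideal.absNorm P : ZMod q) = ((a ^ g P : (ZMod q)ˣ) : ZMod q)) :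
    (Ideal.absNorm s.prod : ZMod q) = ((a ^ (s.map g).sum : (ZMod q)ˣ) : ZMod q) := by
  induction s using Multiset.induction_on with
  | empty => simp
  | cons P s ih =>
    rw [Multiset.prod_cons, map_mul, Nat.cast_mul, Multiset.map_cons, Multiset.sum_cons, pow_add,
      Units.val_mul, h P (Multiset.mem_cons_self P s),
      ih fun Q hQ => h Q (Multiset.mem_cons_of_mem hQ)]

/-- if all the norms of places prime to `q` are powers of `a` modulo `q`, the exponent modulo `ℓ`
(odd, dividing the order of `a`) is a ray class function modulo `q` -/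
theorem rc_cyc (E : Type u) [Field E] [NumberField E] (ℓ q : ℕ) [Fact ℓ.Prime] (h2 : ℓ ≠ 2)
    (hq : q.Prime) (a : (ZMod q)ˣ) (ha : ℓ ∣ orderOf a)
    (h : ∀ w : HeightOneSpectrum (𝓞 E), (q : 𝓞 E) ∉ w.asIdeal → ∃ i : ℕ,
        (nrm w : ZMod q) = ((a ^ i : (ZMod q)ˣ) : ZMod q)) :
    ∃ x : HeightOneSpectrum (𝓞 E) → ZMod ℓ, RC (Ideal.span {(q : 𝓞 E)}) x ∧
      ∀ w : HeightOneSpectrum (𝓞 E), (q : 𝓞 E) ∉ w.asIdeal → ∀ i : ℕ,
        (nrm w : ZMod q) = ((a ^ i : (ZMod q)ˣ) : ZMod q) → x w = (i : ZMod ℓ) := by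
  classical
  have hwd : ∀ i j : ℕ, ((a ^ i : (ZMod q)ˣ) : ZMod q) = ((a ^ j : (ZMod q)ˣ) : ZMod q) →
      (i : ZMod ℓ) = (j : ZMod ℓ) := by
    intro i j hij
    have h1 : a ^ i = a ^ j := Units.ext hij
    rw [pow_eq_pow_iff_modEq] at h1
    exact (ZMod.natCast_eq_natCast_iff _ _ _).2 (h1.of_dvd ha)
  let x : HeightOneSpectrum (𝓞 E) → ZMod ℓ := fun w =>
    if hw : (q : 𝓞 E) ∈ w.asIdeal then 0 else ((h w hw).choose : ZMod ℓ)
  have hx0 : ∀ w : HeightOneSpectrum (𝓞 E), (q : 𝓞 E) ∈ w.asIdeal → x w = 0 := fun w hw =>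
    dif_pos hw
  have hx1 : ∀ w : HeightOneSpectrum (𝓞 E), (q : 𝓞 E) ∉ w.asIdeal → ∀ i : ℕ,
      (nrm w : ZMod q) = ((a ^ i : (ZMod q)ˣ) : ZMod q) → x w = (i : ZMod ℓ) := by
    intro w hw i hi
    have h1 : x w = ((h w hw).choose : ZMod ℓ) := dif_neg hw
    rw [h1]
    exact hwd _ _ ((h w hw).choose_spec.symm.trans hi)
  refine ⟨x, ⟨fun v hv => hx0 v ?_, fun z hz0 hz => ?_⟩, hx1⟩
  · exact hv (Ideal.mem_span_singleton_self _)
  · have hI : Ideal.span {z} ≠ (⊥ : Ideal (𝓞 E)) := by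
      rw [Ne, Ideal.span_singleton_eq_bot]
      exact hz0
    -- the exponents of the norms
    have hP : ∀ P ∈ normalizedFactors (Ideal.span {z}), ∃ w : HeightOneSpectrum (𝓞 E),
        w.asIdeal = P ∧ (q : 𝓞 E) ∉ w.asIdeal := by
      intro P hP
      have hPp := UniqueFactorizationMonoid.prime_of_normalized_factor P hP
      have hPI : P.IsPrime := Ideal.isPrime_of_prime hPp
      refine ⟨⟨P, hPI, hPp.ne_zero⟩, rfl, fun hq' => ?_⟩
      have hzP : z ∈ P := by
        have h1 := UniqueFactorizationMonoid.dvd_of_mem_normalizedFactors hP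
        exact (Ideal.dvd_iff_le.1 h1) (Ideal.mem_span_singleton_self z)
      have h2 : z - 1 ∈ P := (Ideal.span_singleton_le_iff_mem _).2 hq' hz
      have h3 : (1 : 𝓞 E) ∈ P := by
        have h4 := P.sub_mem hzP h2
        rwa [sub_sub_cancel] at h4
      exact hPI.ne_top ((Ideal.eq_top_iff_one _).2 h3)
    let g : Ideal (𝓞 E) → ℕ := fun P =>
      if hg : ∃ i : ℕ, (Ideal.absNorm P : ZMod q) = ((a ^ i : (ZMod q)ˣ) : ZMod q) then hg.choose
      else 0
    have hg1 : ∀ P ∈ normalizedFactors (Ideal.span {z}),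
        (Ideal.absNorm P : ZMod q) = ((a ^ g P : (ZMod q)ˣ) : ZMod q) := by
      intro P hPm
      obtain ⟨w, hw, hwq⟩ := hP P hPm
      obtain ⟨i, hi⟩ := h w hwq
      rw [nrm_eq, hw] at hi
      have hg : ∃ i : ℕ, (Ideal.absNorm P : ZMod q) = ((a ^ i : (ZMod q)ˣ) : ZMod q) := ⟨i, hi⟩
      have h5 : g P = hg.choose := dif_pos hg
      rw [h5]
      exact hg.choose_spec
    have hg2 : ∀ P ∈ normalizedFactors (Ideal.span {z}), atI x P = (g P : ZMod ℓ) := by
      intro P hPm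
      have h6 := hg1 P hPm
      obtain ⟨w, rfl, hwq⟩ := hP P hPm
      rw [atI_place]
      exact hx1 w hwq _ (by rw [nrm_eq]; exact h6)
    have h7 : evI x (Ideal.span {z}) =
        ((((normalizedFactors (Ideal.span {z})).map g).sum : ℕ) : ZMod ℓ) := by
      unfold evI
      rw [Multiset.map_congr rfl hg2, Nat.cast_multiset_sum, Multiset.map_map]
      rfl
    have h8 := cycRC_prod E q a g _ hg1
    rw [Ideal.prod_normalizedFactors_eq_self hI, Ideal.absNorm_span_singleton] at h8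
    have h9 : (((Algebra.norm ℤ z).natAbs : ℕ) : ZMod q) ^ 2 = 1 := by
      have h10 : ((((Algebra.norm ℤ z).natAbs : ℕ) : ℤ) : ZMod q) ^ 2 = 1 := by
        rw [← Int.cast_pow, Int.natAbs_sq, Int.cast_pow, cycRC_norm E q z hz, one_pow]
      rwa [Int.cast_natCast] at h10
    rw [h8, ← Units.val_pow_eq_pow_val, Units.val_eq_one, ← pow_mul] at h9
    have h11 : ℓ ∣ ((normalizedFactors (Ideal.span {z})).map g).sum * 2 :=
      ha.trans (orderOf_dvd_of_pow_eq_one h9)
    have h12 : ℓ ∣ ((normalizedFactors (Ideal.span {z})).map g).sum := by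
      rcases (Fact.out : ℓ.Prime).dvd_mul.1 h11 with h13 | h13
      · exact h13
      · exact absurd ((Nat.prime_dvd_prime_iff_eq (Fact.out : ℓ.Prime) Nat.prime_two).1 h13) h2
    rw [h7]
    exact (ZMod.natCast_eq_zero_iff _ _).2 h12

end Pool.Agent.Lib.MP_1a91b9_ntT.CF
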