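import Pool.Agent.Lib.MP_1a91b9_ntT.S4.Quad
import Pool.Agent.Lib.MP_1a91b9_ntT.S4.LProd
import Pool.Agent.Lib.MP_1a91b9_ntT.S4.Unfold

/-!
# CF: tame reciprocity for cyclic extensions of odd prime degree: definitions
-/

set_option autoImplicit false

namespace Pool.Agent.Lib.MP_1a91b9_ntT.CF

open NumberField IsDedekindDomain UniqueFactorizationMonoid Pool.Agent.Lib.MP_1a91b9_nt S4

universe u

noncomputable section

/-- the tent function -/
def tent (t : ℝ) : ℝ := max 0 (1 - |t|)

/-- a smooth cutoff of the integers `n` of size `c` -/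
def tentN (c : ℝ) (n : ℕ) : ℝ := if n = 0 then 0 else tent (Real.log (n / c))

section
variable {F : Type*} [Field F]

/-- the value of `x` at a prime ideal (`0` at other ideals) -/
def atI {A : Type*} [Zero A] (x : HeightOneSpectrum (𝓞 F) → A) (P : Ideal (𝓞 F)) : A :=
  open Classical in if h : P.IsPrime ∧ P ≠ ⊥ then x ⟨P, h.1, h.2⟩ else 0

variable [NumberField F]

/-- the additive extension of `x` to all ideals: `∑ ord_v(I) x(v)` -/
def evI {A : Type*} [AddCommMonoid A] (x : HeightOneSpectrum (𝓞 F) → A) (I : Ideal (𝓞 F)) : A :=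
  ((normalizedFactors I).map (atI x)).sum

/-- `x` is a ray class function modulo `m` with values in `A` -/
structure RC {A : Type*} [AddCommMonoid A] (m : Ideal (𝓞 F))
    (x : HeightOneSpectrum (𝓞 F) → A) : Prop where
  zero : ∀ v : HeightOneSpectrum (𝓞 F), m ≤ v.asIdeal → x v = 0
  princ : ∀ z : 𝓞 F, z ≠ 0 → z - 1 ∈ m → evI x (Ideal.span {z}) = 0

/-- a (completely multiplicative) ray class character modulo `m` on ideals -/
structure IsRay (m : Ideal (𝓞 F)) (X : Ideal (𝓞 F) → ℂ) : Prop where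
  one : X 1 = 1
  mul : ∀ I J, X (I * J) = X I * X J
  zero : ∀ I, ¬ IsCoprime I m → X I = 0
  norm : ∀ I, IsCoprime I m → ‖X I‖ = 1
  ray : ∀ I J, RayEq m I J → X I = X J

/-- the sum of `N w ^ (-s)` over the places in `Z` -/
def PZ (Z : Set (HeightOneSpectrum (𝓞 F))) (s : ℝ) : ℝ :=
  ∑' w : HeightOneSpectrum (𝓞 F), Z.indicator (fun w => (nrm w : ℝ) ^ (-s)) w

end

section
variable {k : Type*} [Field k] [NumberField k] (L : Type*) [Field L] [NumberField L] [Algebra k L]

/-- `v` ramifies in `L` (for `L / k` Galois) -/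
def Ram (v : HeightOneSpectrum (𝓞 k)) : Prop := v.asIdeal.ramificationIdxIn (𝓞 L) ≠ 1

/-- `v` splits completely in `L` (for `L / k` Galois) -/
def Spl (v : HeightOneSpectrum (𝓞 k)) : Prop :=
  v.asIdeal.ramificationIdxIn (𝓞 L) = 1 ∧ v.asIdeal.inertiaDegIn (𝓞 L) = 1

end

end

end Pool.Agent.Lib.MP_1a91b9_ntT.CF
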