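import Pool.Agent.Lib.MP_1a91b9_ntT.CF.FirstIneq
import Pool.Agent.Lib.MP_1a91b9_ntT.CF.ExtSum

/-! # CF: density arguments

PROOF (complete; job of helper29, see team-store bsd_D_doc_CF.md):
dens_zero: PZ{not m <= v, x v = 0, not Spl} + PZ{Spl, not m <= v} = PZ{not m <= v, x = 0} <= (1/ell)
(log(1/(s-1)) + B) by dens_one (x = 0 on Spl), and PZ{Spl} >= (1/ell)(log(1/(s-1)) - B') by spl_low;
{Spl, m <= v} is finite.
norm_ne_zero: suppose f(w) x(w.under) = 0 for all w not dividing n. For w with f(w) = 1 over k and n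
not <= w: x(w.under) = 0. So up to the finite sets (w dividing n; w above places dividing m) and the
set {f <> 1} (PZ_high_deg), every w lies over v with x v = 0: either Spl L v or v in T, T the set of
hT; PZ{w : f = 1, w.under in T} <= [E:k] PZ T <= B (PZ_down). So PZ univ_E <= PZ{w : Spl L w.under} + B.
By hup and PZ_up: ell PZ{w : Spl L w.under} <= PZ univ_{E1} <= log(1/(s-1)) + B. And PZ univ_E >=
log(1/(s-1)) - B (prime_sum). So ell (log(1/(s-1)) - B) <= log(1/(s-1)) + B, contradiction for s -> 1+.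
-/

set_option autoImplicit false

namespace Pool.Agent.Lib.MP_1a91b9_ntT.CF

open NumberField IsDedekindDomain UniqueFactorizationMonoid Pool.Agent.Lib.MP_1a91b9_nt S4

universe u

section
variable (k L : Type u) [Field k] [NumberField k] [Field L] [NumberField L] [Algebra k L]
  [IsGalois k L] (ℓ : ℕ) [Fact ℓ.Prime]

/-- the places where `x` vanishes without being completely split have density zero -/
theorem dens_zero (hdeg : Module.finrank k L = ℓ) (m : Ideal (𝓞 k)) (hm0 : m ≠ 0) (hm1 : m ≠ 1)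
    (x : HeightOneSpectrum (𝓞 k) → ZMod ℓ) (hx : RC m x) (hne : ∃ v, x v ≠ 0)
    (hspl : ∀ v, Spl L v → x v = 0) :
    ∃ B : ℝ, ∀ s : ℝ, 1 < s → s ≤ 2 →
      PZ {v : HeightOneSpectrum (𝓞 k) | ¬ m ≤ v.asIdeal ∧ x v = 0 ∧ ¬ Spl L v} s ≤ B := by
  obtain ⟨B1, h1⟩ := dens_one ℓ m hm0 hm1 x hx hne
  obtain ⟨B2, h2⟩ := spl_low k L
  have hfin : {v : HeightOneSpectrum (𝓞 k) | m ≤ v.asIdeal}.Finite := by
    refine (Ideal.finite_factors hm0).subset fun v hv => ?_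
    exact Ideal.dvd_iff_le.2 hv
  obtain ⟨B3, h3⟩ := PZ_finite _ hfin
  have hℓ : (0 : ℝ) < ℓ := by exact_mod_cast (Fact.out : ℓ.Prime).pos
  refine ⟨(B1 + B2 + ℓ * B3) / ℓ, fun s hs hs2 => ?_⟩
  rw [le_div_iff₀ hℓ]
  have e1 := h1 s hs hs2
  have e2 := h2 s hs hs2
  have e3 := h3 s hs
  rw [hdeg] at e2
  have e4 : PZ {v : HeightOneSpectrum (𝓞 k) | Spl L v} s ≤
      PZ {v : HeightOneSpectrum (𝓞 k) | ¬ m ≤ v.asIdeal ∧ Spl L v} s +
        PZ {v : HeightOneSpectrum (𝓞 k) | m ≤ v.asIdeal} s := by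
    refine (PZ_mono ?_ s hs).trans (PZ_union _ _ s hs)
    intro v hv
    by_cases h : m ≤ v.asIdeal
    · exact Or.inr h
    · exact Or.inl ⟨h, hv⟩
  have e5 : PZ {v : HeightOneSpectrum (𝓞 k) | ¬ m ≤ v.asIdeal ∧ x v = 0 ∧ ¬ Spl L v} s +
      PZ {v : HeightOneSpectrum (𝓞 k) | ¬ m ≤ v.asIdeal ∧ Spl L v} s ≤
        PZ {v : HeightOneSpectrum (𝓞 k) | ¬ m ≤ v.asIdeal ∧ x v = 0} s := by
    unfold PZ
    rw [← ((summable_places k s hs).indicator _).tsum_add ((summable_places k s hs).indicator _)]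
    refine (((summable_places k s hs).indicator _).add
      ((summable_places k s hs).indicator _)).tsum_le_tsum (fun v => ?_)
      ((summable_places k s hs).indicator _)
    by_cases ha : v ∈ {v : HeightOneSpectrum (𝓞 k) | ¬ m ≤ v.asIdeal ∧ x v = 0 ∧ ¬ Spl L v}
    · have hb : v ∉ {v : HeightOneSpectrum (𝓞 k) | ¬ m ≤ v.asIdeal ∧ Spl L v} := fun h =>
        ha.2.2 h.2
      have hc : v ∈ {v : HeightOneSpectrum (𝓞 k) | ¬ m ≤ v.asIdeal ∧ x v = 0} :=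
        ⟨ha.1, ha.2.1⟩
      rw [Set.indicator_of_mem ha, Set.indicator_of_notMem hb, Set.indicator_of_mem hc, add_zero]
    · by_cases hb : v ∈ {v : HeightOneSpectrum (𝓞 k) | ¬ m ≤ v.asIdeal ∧ Spl L v}
      · have hc : v ∈ {v : HeightOneSpectrum (𝓞 k) | ¬ m ≤ v.asIdeal ∧ x v = 0} :=
          ⟨hb.1, hspl v hb.2⟩
        rw [Set.indicator_of_notMem ha, Set.indicator_of_mem hb, Set.indicator_of_mem hc, zero_add]
      · rw [Set.indicator_of_notMem ha, Set.indicator_of_notMem hb, zero_add]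
        exact Set.indicator_nonneg (fun w _ => Real.rpow_nonneg (Nat.cast_nonneg _) _) v
  have e6 := mul_le_mul_of_nonneg_left e5 hℓ.le
  have e7 := mul_le_mul_of_nonneg_left e4 hℓ.le
  have e8 := mul_le_mul_of_nonneg_left e3 hℓ.le
  rw [mul_add] at e6 e7
  linarith

end

open NumberField IsDedekindDomain UniqueFactorizationMonoid Pool.Agent.Lib.MP_1a91b9_nt S4

section
variable (k L : Type u) [Field k] [NumberField k] [Field L] [NumberField L] [Algebra k L]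
  [IsGalois k L] (ℓ : ℕ) [Fact ℓ.Prime]

omit [NumberField k] [NumberField L] [IsGalois k L] in
private theorem DB_final (ℓ : ℕ) [hℓ : Fact ℓ.Prime] (A B : ℝ)
    (h : ∀ s : ℝ, 1 < s → s ≤ 2 →
      (ℓ : ℝ) * (Real.log (1 / (s - 1)) - A) ≤ Real.log (1 / (s - 1)) + B) : False := by
  have h2 : (2 : ℝ) ≤ ℓ := by exact_mod_cast hℓ.out.two_le
  obtain ⟨M, hM⟩ : ∃ M : ℝ, M = (ℓ : ℝ) * |A| + |B| + 1 := ⟨_, rfl⟩
  have hM0 : 0 < M := by
    rw [hM]
    positivity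
  have h1 := h (1 + Real.exp (-M)) (by
    have := Real.exp_pos (-M)
    linarith) (by
    have : Real.exp (-M) ≤ 1 := Real.exp_le_one_iff.mpr (by linarith)
    linarith)
  have h3 : Real.log (1 / (1 + Real.exp (-M) - 1)) = M := by
    rw [add_sub_cancel_left, one_div, ← Real.exp_neg, neg_neg, Real.log_exp]
  rw [h3] at h1
  have h4 : (ℓ : ℝ) * A ≤ (ℓ : ℝ) * |A| :=
    mul_le_mul_of_nonneg_left (le_abs_self A) (by linarith)
  have h5 : B ≤ |B| := le_abs_self B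
  have h6 : 2 * M ≤ (ℓ : ℝ) * M := mul_le_mul_of_nonneg_right h2 hM0.le
  rw [mul_sub] at h1
  linarith

/-- in the auxiliary field `E`, the composition of `x` with the norm does not vanish -/
theorem norm_ne_zero (E E1 : Type u) [Field E] [NumberField E] [Field E1] [NumberField E1]
    [Algebra k E] [Algebra E E1] [IsGalois E E1] (hdeg : Module.finrank E E1 = ℓ)
    (m : Ideal (𝓞 k)) (hm0 : m ≠ 0) (x : HeightOneSpectrum (𝓞 k) → ZMod ℓ)
    (hT : ∃ B : ℝ, ∀ s : ℝ, 1 < s → s ≤ 2 →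
      PZ {v : HeightOneSpectrum (𝓞 k) | ¬ m ≤ v.asIdeal ∧ x v = 0 ∧ ¬ Spl L v} s ≤ B)
    (hup : ∀ w : HeightOneSpectrum (𝓞 E), Spl L (w.under (𝓞 k)) → Spl E1 w)
    (n : Ideal (𝓞 E)) (hn : n ≠ 0) :
    ∃ w : HeightOneSpectrum (𝓞 E), ¬ n ≤ w.asIdeal ∧
      (w.asIdeal.inertiaDeg (𝓞 k) : ZMod ℓ) * x (w.under (𝓞 k)) ≠ 0 := by
  by_contra hcon
  push Not at hcon
  obtain ⟨BT, hBT⟩ := hT
  obtain ⟨BE, hBE⟩ := prime_sum E
  obtain ⟨BE1, hBE1⟩ := prime_sum E1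
  obtain ⟨B3, hB3⟩ := PZ_high_deg k E
  have hfin4 : {w : HeightOneSpectrum (𝓞 E) | n ≤ w.asIdeal}.Finite := by
    have h1 := Ideal.finite_factors hn
    refine h1.subset fun w hw => ?_
    exact Ideal.dvd_iff_le.mpr hw
  have hfin5 : {w : HeightOneSpectrum (𝓞 E) | m ≤ (w.under (𝓞 k)).asIdeal}.Finite := by
    have h0 : m.map (algebraMap (𝓞 k) (𝓞 E)) ≠ 0 := Ideal.map_ne_bot_of_ne_bot hm0
    have h1 := Ideal.finite_factors h0
    refine h1.subset fun w hw => ?_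
    exact Ideal.dvd_iff_le.mpr (Ideal.map_le_iff_le_comap.mpr hw)
  obtain ⟨B4, hB4⟩ := PZ_finite _ hfin4
  obtain ⟨B5, hB5⟩ := PZ_finite _ hfin5
  have hcover : (Set.univ : Set (HeightOneSpectrum (𝓞 E))) ⊆
      (((({w | Spl L (w.under (𝓞 k))} ∪ {w | (¬ m ≤ (w.under (𝓞 k)).asIdeal ∧
        x (w.under (𝓞 k)) = 0 ∧ ¬ Spl L (w.under (𝓞 k))) ∧ w.asIdeal.inertiaDeg (𝓞 k) = 1}) ∪
        {w | w.asIdeal.inertiaDeg (𝓞 k) ≠ 1}) ∪ {w | n ≤ w.asIdeal}) ∪
          {w | m ≤ (w.under (𝓞 k)).asIdeal}) := by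
    intro w _
    by_cases h4 : n ≤ w.asIdeal
    · exact Or.inl (Or.inr h4)
    by_cases h5 : m ≤ (w.under (𝓞 k)).asIdeal
    · exact Or.inr h5
    by_cases h3 : w.asIdeal.inertiaDeg (𝓞 k) = 1
    · have h1 := hcon w h4
      rw [h3, Nat.cast_one, one_mul] at h1
      by_cases h2 : Spl L (w.under (𝓞 k))
      · exact Or.inl (Or.inl (Or.inl (Or.inl h2)))
      · exact Or.inl (Or.inl (Or.inl (Or.inr ⟨⟨h5, h1, h2⟩, h3⟩)))
    · exact Or.inl (Or.inl (Or.inr h3))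
  have key : ∀ s : ℝ, 1 < s → s ≤ 2 → (ℓ : ℝ) * (Real.log (1 / (s - 1)) - BE -
      (Module.finrank k E : ℝ) * BT - B3 - B4 - B5) ≤ Real.log (1 / (s - 1)) + BE1 := by
    intro s hs hs2
    have e0 := (PZ_mono hcover s hs).trans ((PZ_union _ _ s hs).trans (add_le_add_left
      ((PZ_union _ _ s hs).trans (add_le_add_left ((PZ_union _ _ s hs).trans
        (add_le_add_left (PZ_union _ _ s hs) _)) _)) _))
    have e1 := PZ_down k E {v : HeightOneSpectrum (𝓞 k) | ¬ m ≤ v.asIdeal ∧ x v = 0 ∧ ¬ Spl L v}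
      {w | (¬ m ≤ (w.under (𝓞 k)).asIdeal ∧
        x (w.under (𝓞 k)) = 0 ∧ ¬ Spl L (w.under (𝓞 k))) ∧ w.asIdeal.inertiaDeg (𝓞 k) = 1}
      (fun w hw => hw) s hs
    have e2 : (Module.finrank k E : ℝ) * PZ {v : HeightOneSpectrum (𝓞 k) | ¬ m ≤ v.asIdeal ∧
        x v = 0 ∧ ¬ Spl L v} s ≤ (Module.finrank k E : ℝ) * BT :=
      mul_le_mul_of_nonneg_left (hBT s hs hs2) (Nat.cast_nonneg _)
    have e3 := hB3 s hs
    have e4 := hB4 s hs
    have e5 := hB5 s hs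
    have e6 := PZ_up E E1 {w | Spl L (w.under (𝓞 k))} (fun w hw => hup w hw) s hs
    rw [hdeg] at e6
    have e7 := (abs_le.mp (hBE s hs hs2)).1
    have e8 := (abs_le.mp (hBE1 s hs hs2)).2
    have e9 : (ℓ : ℝ) * (Real.log (1 / (s - 1)) - BE -
      (Module.finrank k E : ℝ) * BT - B3 - B4 - B5) ≤
        (ℓ : ℝ) * PZ {w : HeightOneSpectrum (𝓞 E) | Spl L (w.under (𝓞 k))} s := by
      apply mul_le_mul_of_nonneg_left _ (Nat.cast_nonneg _)
      linarith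
    linarith
  exact DB_final ℓ _ _ (fun s hs hs2 => by
    have h1 := key s hs hs2
    have h2 : Real.log (1 / (s - 1)) - BE - (Module.finrank k E : ℝ) * BT - B3 - B4 - B5 =
      Real.log (1 / (s - 1)) - (BE + (Module.finrank k E : ℝ) * BT + B3 + B4 + B5) := by ring
    rw [h2] at h1
    exact h1)

end

end Pool.Agent.Lib.MP_1a91b9_ntT.CF
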