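import Pool.Agent.Lib.MP_1a91b9_ntT.CF.NormIdx
import Pool.Agent.Lib.MP_1a91b9_ntT.CF.LocRam
import Pool.Agent.Lib.MP_1a91b9_ntT.CF.LinAlg
import Pool.Agent.Lib.MP_1a91b9_ntT.CF.ChooseS
import Pool.Agent.Lib.MP_1a91b9_ntT.CF.ExtSum

/-! # CF: existence of a nonzero ray class function killing norms

PROOF (complete; job of helper29, see team-store bsd_D_doc_CF.md):
R = ramified places (finite: ExtSum.ram_finite; import it or reprove). S from exists_S. J = {v in S :
not Spl L v} (finite). For v in J ramified: c_v from loc_ram; otherwise c_v = ord v mod ell. They kill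
norms from L (for v inert: ord_v(N y) = f ord_w y with f = ell, ord_nmA and trichotomy). norm_index and
exists_relation (A = nmA (SU T), B = SU S): r <> 0 with sum_j r_j c_j = 0 on SU S. For v not in S let
pi_v be from exists_S and define x(v) = - sum_j r_j c_j(pi_v) (v not in S), x(v) = r_v for v in J
inert, x(v) = 0 for v in S ramified or completely split.
(*) for y in k^x: sum_v ord_v(y) x(v) + sum_{j in J ramified} r_j c_j(y) = 0: y minus the sum of
ord_v(y) pi_v over v not in S lies in SU S.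
princ: y = z = 1 mod all ramified places: c_j(y) = 0 for j ramified (loc_ram), evI_span.
Spl: v not in S completely split, w above v, y from exists_S for w: N y has order f = 1 at v, 0 at
the other v' not in S (ord_nmA), and all c_j(N y) = 0; (*) plus ord_{v'}(N y) r_{v'} = 0 in ZMod ell
for v' in J inert (ell divides the order) give x(v) = 0. Ramified: x = 0 by definition.
x <> 0: if r_v <> 0 for some inert v in J fine. Otherwise r_v <> 0 for some ramified v: take z0 from
loc_ram, by CRT z in O_k with z = z0 mod v, z = 1 mod the other ramified places, z <> 0. c_v(z) =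
c_v(z0) <> 0 (z and z0 congruent mod v and prime to v: choose t with z0 t = 1 mod v, then z t = 1 mod v,
c_v(z) = -c_v(t) = c_v(z0)). (*) for z: evI x (z) = - r_v c_v(z) <> 0, so x is not identically 0.
-/

set_option autoImplicit false

namespace Pool.Agent.Lib.MP_1a91b9_ntT.CF

open NumberField IsDedekindDomain UniqueFactorizationMonoid Pool.Agent.Lib.MP_1a91b9_nt S4

universe u

/-- inverse modulo a place -/
private theorem existsx_inv {k : Type u} [Field k] [NumberField k] (v : HeightOneSpectrum (𝓞 k))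
    (z : 𝓞 k) (hz : z ∉ v.asIdeal) : ∃ t : 𝓞 k, z * t - 1 ∈ v.asIdeal := by
  obtain ⟨t, i, hi, h⟩ := v.isMaximal.exists_inv hz
  refine ⟨t, ?_⟩
  have h1 : z * t - 1 = -i := by
    rw [← h]
    ring
  rw [h1]
  exact v.asIdeal.neg_mem hi

private theorem existsx_star {k : Type u} [Field k] [NumberField k] (ℓ : ℕ) [Fact ℓ.Prime]
    (S J : Set (HeightOneSpectrum (𝓞 k))) (hSf : S.Finite) (hJS : J ⊆ S) [Fintype J]
    (R : Set (HeightOneSpectrum (𝓞 k)))
    (c : J → (Additive kˣ →+ ZMod ℓ))
    (hc : ∀ j : J, j.1 ∉ R → ∀ y, c j y = ((ord j.1 y : ℤ) : ZMod ℓ))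
    (r : J → ZMod ℓ) (hr : ∀ y ∈ SU S, ∑ j, r j * c j y = 0)
    (π : HeightOneSpectrum (𝓞 k) → Additive kˣ) (hπ1 : ∀ v, v ∉ S → ord v (π v) = 1)
    (hπ2 : ∀ v, v ∉ S → ∀ v', v' ∉ S → v' ≠ v → ord v' (π v) = 0)
    (x : HeightOneSpectrum (𝓞 k) → ZMod ℓ)
    (hx1 : ∀ v, v ∉ S → x v = -∑ j, r j * c j (π v))
    (hx2 : ∀ j : J, j.1 ∉ R → x j.1 = r j)
    (hx3 : ∀ v ∈ S, (v ∉ J ∨ v ∈ R) → x v = 0)
    (y : Additive kˣ) :
    ∑ᶠ v : HeightOneSpectrum (𝓞 k), ord v y • x v +
      ∑ j : J, (open Classical in if j.1 ∈ R then r j * c j y else 0) = 0 := by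
  classical
  have hfin := ord_finite y
  set U : Finset (HeightOneSpectrum (𝓞 k)) := hfin.toFinset ∪ hSf.toFinset with hU
  have h1 : ∑ᶠ v : HeightOneSpectrum (𝓞 k), ord v y • x v = ∑ v ∈ U, ord v y • x v := by
    apply finsum_eq_sum_of_support_subset
    intro v hv
    rw [hU, Finset.coe_union, Set.Finite.coe_toFinset, Set.Finite.coe_toFinset]
    left
    intro h0
    apply hv
    show ord v y • x v = 0
    rw [h0, zero_smul]
  have h2 : ∑ v ∈ U, ord v y • x v = ∑ v ∈ U.filter (· ∈ S), ord v y • x v +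
      ∑ v ∈ U.filter (¬ · ∈ S), ord v y • x v :=
    (Finset.sum_filter_add_sum_filter_not U (· ∈ S) _).symm
  have h3 : ∑ v ∈ U.filter (· ∈ S), ord v y • x v = ∑ j : J, ord j.1 y • x j.1 := by
    rw [← Finset.sum_subtype (s := J.toFinset) (fun v => Set.mem_toFinset)
      (fun v => ord v y • x v)]
    symm
    apply Finset.sum_subset
    · intro v hv
      rw [Set.mem_toFinset] at hv
      rw [Finset.mem_filter, hU, Finset.mem_union, hSf.mem_toFinset]
      exact ⟨Or.inr (hJS hv), hJS hv⟩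
    · intro v hv hv'
      rw [Finset.mem_filter] at hv
      rw [Set.mem_toFinset] at hv'
      rw [hx3 v hv.2 (Or.inl hv'), smul_zero]
  set T := U.filter (¬ · ∈ S) with hT
  set y' := y - ∑ v ∈ T, ord v y • π v with hy'
  have h4 : y' ∈ SU S := by
    intro w hw
    rw [hy', map_sub, map_sum, sub_eq_zero]
    by_cases hwT : w ∈ T
    · rw [Finset.sum_eq_single_of_mem w hwT]
      · rw [map_zsmul, hπ1 w hw, smul_eq_mul, mul_one]
      · intro v hv hvw
        rw [map_zsmul, hπ2 v ((Finset.mem_filter.1 hv).2) w hw hvw.symm, smul_zero]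
    · have h5 : ord w y = 0 := by
        by_contra h6
        apply hwT
        rw [hT, Finset.mem_filter, hU, Finset.mem_union, hfin.mem_toFinset]
        exact ⟨Or.inl h6, hw⟩
      rw [h5]
      symm
      apply Finset.sum_eq_zero
      intro v hv
      have hvw : w ≠ v := by
        rintro rfl
        exact hwT hv
      rw [map_zsmul, hπ2 v ((Finset.mem_filter.1 hv).2) w hw hvw, smul_zero]
  have h5 : ∑ j, r j * c j y = ∑ v ∈ T, ord v y • ∑ j, r j * c j (π v) := by
    have h6 := hr y' h4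
    have h7 : ∀ j, c j y' = c j y - ∑ v ∈ T, ord v y • c j (π v) := by
      intro j
      rw [hy', map_sub, map_sum]
      simp only [map_zsmul]
    simp only [h7, mul_sub, Finset.sum_sub_distrib] at h6
    rw [sub_eq_zero] at h6
    rw [h6]
    simp only [Finset.mul_sum, Finset.smul_sum]
    rw [Finset.sum_comm]
    refine Finset.sum_congr rfl fun v _ => Finset.sum_congr rfl fun j _ => ?_
    rw [mul_smul_comm]
  have h8 : ∑ v ∈ T, ord v y • x v = -∑ j, r j * c j y := by
    rw [h5, ← Finset.sum_neg_distrib]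
    refine Finset.sum_congr rfl fun v hv => ?_
    rw [hx1 v (Finset.mem_filter.1 hv).2, smul_neg]
  rw [h1, h2, h3, h8]
  have h9 : ∑ j : J, ord j.1 y • x j.1 + ∑ j : J, (if j.1 ∈ R then r j * c j y else 0) =
      ∑ j, r j * c j y := by
    rw [← Finset.sum_add_distrib]
    refine Finset.sum_congr rfl fun j _ => ?_
    by_cases hR : j.1 ∈ R
    · rw [if_pos hR, hx3 _ (hJS j.2) (Or.inr hR), smul_zero, zero_add]
    · rw [if_neg hR, hx2 j hR, hc j hR, add_zero, zsmul_eq_mul, mul_comm]
  linear_combination h9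

section
variable (k L : Type u) [Field k] [NumberField k] [Field L] [NumberField L] [Algebra k L]
  [IsGalois k L] (ℓ : ℕ) [Fact ℓ.Prime]

/-- the local characters -/
private theorem existsx_char (hdeg : Module.finrank k L = ℓ)
    (ht : ∀ v : HeightOneSpectrum (𝓞 k), Ram L v → (ℓ : 𝓞 k) ∉ v.asIdeal)
    (v : HeightOneSpectrum (𝓞 k)) (hs : ¬ Spl L v) :
    ∃ c : Additive kˣ →+ ZMod ℓ, (∀ y : Additive Lˣ, c (nmA k L y) = 0) ∧
      (Ram L v → (∀ (z : 𝓞 k) (y : kˣ), (y : k) = (z : k) → z - 1 ∈ v.asIdeal →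
          c (Additive.ofMul y) = 0) ∧
        ∃ z : 𝓞 k, z ∉ v.asIdeal ∧ ∀ y : kˣ, (y : k) = (z : k) → c (Additive.ofMul y) ≠ 0) ∧
      (¬ Ram L v → ∀ y, c y = ((ord v y : ℤ) : ZMod ℓ)) := by
  by_cases hr : Ram L v
  · obtain ⟨c, h1, h2, h3⟩ := loc_ram k L ℓ hdeg v hr (ht v hr)
    exact ⟨c, h1, fun _ => ⟨h2, h3⟩, fun h => absurd hr h⟩
  · refine ⟨(Int.castAddHom (ZMod ℓ)).comp (ord v), fun y => ?_, fun h => absurd h hr,
      fun _ y => rfl⟩
    show ((ord v (nmA k L y) : ℤ) : ZMod ℓ) = 0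
    rcases trichotomy k L ℓ hdeg v with h | h | h
    · exact absurd h.1 hr
    · rw [ord_nmA, ZMod.intCast_zmod_eq_zero_iff_dvd]
      refine Finset.dvd_sum fun w _ => ?_
      rw [(h.2.2.2 w).2]
      exact dvd_mul_right _ _
    · exact absurd h.2.1 hs

end

section
variable (k L : Type u) [Field k] [NumberField k] [Field L] [NumberField L] [Algebra k L]
  [IsGalois k L] (ℓ : ℕ) [Fact ℓ.Prime]

/-- Existence of a nonzero ray class function, modulo the product of the ramified places, which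
vanishes at the completely split places. -/
theorem exists_x (h2 : ℓ ≠ 2) (hdeg : Module.finrank k L = ℓ)
    (ht : ∀ v : HeightOneSpectrum (𝓞 k), Ram L v → (ℓ : 𝓞 k) ∉ v.asIdeal) :
    ∃ x : HeightOneSpectrum (𝓞 k) → ZMod ℓ, (∃ v, x v ≠ 0) ∧ (∀ v, Ram L v → x v = 0) ∧
      (∀ v, Spl L v → x v = 0) ∧
      ∀ z : 𝓞 k, z ≠ 0 → (∀ v : HeightOneSpectrum (𝓞 k), Ram L v → z - 1 ∈ v.asIdeal) →
        evI x (Ideal.span {z}) = 0 := by
  classical
  obtain ⟨S, hSf, hRS, hSk, hSL⟩ := exists_S k L {v | Ram L v} (ram_finite k L)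
  have hJf : (S ∩ {v : HeightOneSpectrum (𝓞 k) | ¬ Spl L v}).Finite := hSf.inter_of_left _
  generalize hJ : S ∩ {v : HeightOneSpectrum (𝓞 k) | ¬ Spl L v} = J at hJf
  have hJS : J ⊆ S := by
    rw [← hJ]
    exact Set.inter_subset_left
  have hJn : ∀ j : J, ¬ Spl L j.1 := by
    intro j
    have h1 : j.1 ∈ S ∩ {v : HeightOneSpectrum (𝓞 k) | ¬ Spl L v} := by
      rw [hJ]
      exact j.2
    exact h1.2
  have : Fintype J := hJf.fintype
  choose c hc1 hc2 hc3 using fun j : J => existsx_char k L ℓ hdeg ht j.1 (hJn j)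
  have hidx := norm_index k L ℓ h2 hdeg S hSf (fun v hv => hRS hv) hSk
  rw [hJ, ← Nat.card_coe_set_eq, Nat.card_eq_fintype_card] at hidx
  obtain ⟨r, hr0, hr⟩ := exists_relation ℓ c _ (SU S) (by
    intro j y hy
    obtain ⟨y', _, rfl⟩ := AddSubgroup.mem_map.1 hy
    exact hc1 j y') hidx
  choose! π hπ1 hπ2 using hSk
  let x : HeightOneSpectrum (𝓞 k) → ZMod ℓ := fun v =>
    if v ∈ S then (if h : v ∈ J ∧ ¬ Ram L v then r ⟨v, h.1⟩ else 0)
    else -∑ j, r j * c j (π v)
  have hx1 : ∀ v, v ∉ S → x v = -∑ j, r j * c j (π v) := fun v hv => if_neg hv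
  have hx2 : ∀ j : J, j.1 ∉ {v : HeightOneSpectrum (𝓞 k) | Ram L v} → x j.1 = r j := by
    intro j hj
    show (if j.1 ∈ S then (if h : j.1 ∈ J ∧ ¬ Ram L j.1 then r ⟨j.1, h.1⟩ else 0)
      else -∑ i, r i * c i (π j.1)) = r j
    rw [if_pos (hJS j.2), dif_pos ⟨j.2, hj⟩]
  have hx3 : ∀ v ∈ S, (v ∉ J ∨ v ∈ {v : HeightOneSpectrum (𝓞 k) | Ram L v}) → x v = 0 := by
    intro v hv h
    show (if v ∈ S then (if h : v ∈ J ∧ ¬ Ram L v then r ⟨v, h.1⟩ else 0)
      else -∑ j, r j * c j (π v)) = 0
    rw [if_pos hv, dif_neg]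
    rintro ⟨h1, h3⟩
    rcases h with h | h
    · exact h h1
    · exact h3 h
  have star := existsx_star ℓ S J hSf hJS {v | Ram L v} c (fun j hj => hc3 j hj) r hr π hπ1
    (fun v hv v' hv' hne => hπ2 v hv v' hv' hne) x hx1 hx2 hx3
  refine ⟨x, ?_, fun v hv => hx3 v (hRS hv) (Or.inr hv), ?_, ?_⟩
  · obtain ⟨j0, hj0⟩ := Function.ne_iff.1 hr0
    rw [Pi.zero_apply] at hj0
    by_cases hR : Ram L j0.1
    · by_contra hcon
      push Not at hcon
      obtain ⟨z0, hz0, hcz0⟩ := (hc2 j0 hR).2
      obtain ⟨z, hz⟩ := IsDedekindDomain.exists_forall_sub_mem_ideal (R := 𝓞 k)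
        (s := (ram_finite k L).toFinset) (fun v => v.asIdeal) (fun _ => 1)
        (fun v _ => v.prime) (fun v _ v' _ hne h => hne (HeightOneSpectrum.ext h))
        (fun v => if v.1 = j0.1 then z0 else 1)
      have hzj : z - z0 ∈ j0.1.asIdeal := by
        have h1 := hz j0.1 ((Set.Finite.mem_toFinset _).2 hR)
        rwa [pow_one, if_pos rfl] at h1
      have hz1 : ∀ v, Ram L v → v ≠ j0.1 → z - 1 ∈ v.asIdeal := by
        intro v hv hne
        have h1 := hz v ((Set.Finite.mem_toFinset _).2 hv)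
        rwa [pow_one, if_neg hne] at h1
      have hzn : z ∉ j0.1.asIdeal := by
        intro h1
        apply hz0
        have h3 := j0.1.asIdeal.sub_mem h1 hzj
        rwa [sub_sub_cancel] at h3
      obtain ⟨t, ht1⟩ := existsx_inv j0.1 z0 hz0
      have hne : ∀ a : 𝓞 k, a ∉ j0.1.asIdeal → (a : k) ≠ 0 := by
        intro a ha h0
        apply ha
        have h1 : a = 0 := RingOfIntegers.ext h0
        rw [h1]
        exact j0.1.asIdeal.zero_mem
      have htn : t ∉ j0.1.asIdeal := by
        intro h1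
        apply j0.1.isPrime.ne_top
        rw [Ideal.eq_top_iff_one]
        have h3 := j0.1.asIdeal.sub_mem (j0.1.asIdeal.mul_mem_left z0 h1) ht1
        rwa [sub_sub_cancel] at h3
      have hcc : c j0 (Additive.ofMul (Units.mk0 (z : k) (hne z hzn))) ≠ 0 := by
        have e1 : ∀ a : 𝓞 k, ∀ ha : a ∉ j0.1.asIdeal, a * t - 1 ∈ j0.1.asIdeal →
            c j0 (Additive.ofMul (Units.mk0 (a : k) (hne a ha))) =
              -c j0 (Additive.ofMul (Units.mk0 (t : k) (hne t htn))) := by
          intro a ha hat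
          have h1 := (hc2 j0 hR).1 (a * t)
            (Units.mk0 (a : k) (hne a ha) * Units.mk0 (t : k) (hne t htn)) (by
              rw [Units.val_mul, Units.val_mk0, Units.val_mk0]
              exact (map_mul (algebraMap (𝓞 k) k) a t).symm) hat
          rw [ofMul_mul, map_add] at h1
          exact eq_neg_of_add_eq_zero_left h1
        rw [e1 z hzn (by
          have h3 := j0.1.asIdeal.add_mem (j0.1.asIdeal.mul_mem_right t hzj) ht1
          have h4 : (z - z0) * t + (z0 * t - 1) = z * t - 1 := by ring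
          rwa [h4] at h3), ← e1 z0 hz0 ht1]
        exact hcz0 _ rfl
      have h1 := star (Additive.ofMul (Units.mk0 (z : k) (hne z hzn)))
      have h3 : ∑ᶠ v : HeightOneSpectrum (𝓞 k),
          ord v (Additive.ofMul (Units.mk0 (z : k) (hne z hzn))) • x v = 0 := by
        rw [finsum_congr (g := fun _ => 0) (fun v => by rw [hcon v, smul_zero]), finsum_zero]
      rw [h3, zero_add, Finset.sum_eq_single_of_mem j0 (Finset.mem_univ _)] at h1
      · rw [if_pos (show j0.1 ∈ {v : HeightOneSpectrum (𝓞 k) | Ram L v} from hR)] at h1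
        rcases mul_eq_zero.1 h1 with h4 | h4
        · exact hj0 h4
        · exact hcc h4
      · intro j _ hj
        by_cases hjR : Ram L j.1
        · rw [if_pos (show j.1 ∈ {v : HeightOneSpectrum (𝓞 k) | Ram L v} from hjR),
            (hc2 j hjR).1 z _ rfl (hz1 j.1 hjR (fun h => hj (Subtype.ext h))), mul_zero]
        · rw [if_neg (show j.1 ∉ {v : HeightOneSpectrum (𝓞 k) | Ram L v} from hjR)]
    · exact ⟨j0.1, by rw [hx2 j0 hR]; exact hj0⟩
  · intro v hv
    by_cases hvS : v ∈ S
    · refine hx3 v hvS (Or.inl ?_)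
      intro hvJ
      exact hJn ⟨v, hvJ⟩ hv
    · have hcard : 0 < Fintype.card (Over L v) ∧ ∀ w : Over L v,
          w.1.asIdeal.inertiaDeg (𝓞 k) = 1 := by
        rcases trichotomy k L ℓ hdeg v with h | h | h
        · exact absurd hv h.2.1
        · exact absurd hv h.2.1
        · rw [h.2.2.1]
          exact ⟨(Fact.out : ℓ.Prime).pos, fun w => (h.2.2.2 w).2⟩
      obtain ⟨w⟩ := Fintype.card_pos_iff.1 hcard.1
      have hwv : w.1.under (𝓞 k) = v := HeightOneSpectrum.ext w.2
      obtain ⟨y, hy1, hy2⟩ := hSL w.1 (by rw [hwv]; exact hvS)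
      have h1 := star (nmA k L y)
      have h3 : ∑ j : J, (if j.1 ∈ {v : HeightOneSpectrum (𝓞 k) | Ram L v} then
          r j * c j (nmA k L y) else 0) = 0 := by
        refine Finset.sum_eq_zero fun j _ => ?_
        rw [hc1, mul_zero, ite_self]
      rw [h3, add_zero, finsum_eq_single _ v] at h1
      · have h4 : ord v (nmA k L y) = 1 := by
          rw [ord_nmA, Finset.sum_eq_single_of_mem w (Finset.mem_univ _), hy1, hcard.2 w]
          · norm_num
          · intro w' _ hne
            rw [hy2 w'.1 (by rw [HeightOneSpectrum.ext (x := w'.1.under (𝓞 k)) (y := v) w'.2]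
                             exact hvS) (fun h => hne (Subtype.ext h)), mul_zero]
        rw [h4, one_smul] at h1
        exact h1
      · intro v' hne
        by_cases hv'S : v' ∈ S
        · by_cases hv'J : v' ∈ J ∧ ¬ Ram L v'
          · have h5 := hc3 ⟨v', hv'J.1⟩ hv'J.2 (nmA k L y)
            rw [hc1] at h5
            rw [zsmul_eq_mul, ← h5, zero_mul]
          · rw [hx3 v' hv'S (by
              by_cases h6 : v' ∈ J
              · right
                by_contra h7
                exact hv'J ⟨h6, h7⟩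
              · exact Or.inl h6), smul_zero]
        · have h4 : ord v' (nmA k L y) = 0 := by
            rw [ord_nmA]
            refine Finset.sum_eq_zero fun w' _ => ?_
            have hw' : w'.1.under (𝓞 k) = v' := HeightOneSpectrum.ext w'.2
            rw [hy2 w'.1 (by rw [hw']; exact hv'S) (by
              intro h
              rw [h, hwv] at hw'
              exact hne hw'.symm), mul_zero]
          rw [h4, zero_smul]
  · intro z hz hz1
    have hzk : (z : k) ≠ 0 := by
      intro h0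
      exact hz (RingOfIntegers.ext h0)
    rw [evI_span x z (Units.mk0 (z : k) hzk) rfl]
    have h1 := star (Additive.ofMul (Units.mk0 (z : k) hzk))
    have h3 : ∑ j : J, (if j.1 ∈ {v : HeightOneSpectrum (𝓞 k) | Ram L v} then
        r j * c j (Additive.ofMul (Units.mk0 (z : k) hzk)) else 0) = 0 := by
      refine Finset.sum_eq_zero fun j _ => ?_
      by_cases hjR : Ram L j.1
      · rw [(hc2 j hjR).1 z _ rfl (hz1 j.1 hjR), mul_zero, ite_self]
      · rw [if_neg (show j.1 ∉ {v : HeightOneSpectrum (𝓞 k) | Ram L v} from hjR)]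
    rw [h3, add_zero] at h1
    exact h1

end

end Pool.Agent.Lib.MP_1a91b9_ntT.CF
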