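import Pool.Agent.Lib.MP_1a91b9_ntT.CF.TentSum

/-! # CF: boundedness near `1` from smooth sums

PROOF (complete; job of helper29, see team-store bsd_D_doc_CF.md):
For real s > 1: sum_I X(I) N I^(-s) is absolutely convergent (S4.summable_ideals). For N >= 1 and
s > 0: int_0^infty tentN y N y^(-s-1) dy = N^(-s) Phi(s), Phi(s) = int_{-1}^{1} tent(v) exp(s v)... :
substitute y = N exp(-v): Phi(s) = int tent(v) exp(s v) dv >= int_0^1 (1 - v) dv = 1/2. (Only: Phi(s)
is real, >= 1/2 for s > 0, finite.) So Phi(s) Lf X s = int_0^infty S(y) y^(-s-1) dy with S(y) =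
sum_I X(I) tentN y (absNorm I) (Fubini: integral_tsum / hasSum_integral_of_summable_norm, since
sum_I int |X(I)| tentN y (N I) y^(-s-1) dy <= Phi(s) sum N I^(-s) < infinity; X 0 = 0). For y <= 1/e
S(y) = 0 (tentN y N = 0 unless y/e < N < e y, N >= 1); for 1/e <= y <= 1: |S(y)| <= sum_{N I <= 3} 1 =
a constant; for y >= 1: |S(y)| <= D y^(1 - eta). So |int| <= C' + int_1^infty D y^(1-eta-s-1) dy <=
C' + D/(s - 1 + eta) <= C' + |D|/eta. Divide by Phi(s) >= 1/2. (A version with sums instead of
integrals is also fine.)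
-/

set_option autoImplicit false

namespace Pool.Agent.Lib.MP_1a91b9_ntT.CF

open NumberField IsDedekindDomain UniqueFactorizationMonoid Pool.Agent.Lib.MP_1a91b9_nt S4

universe u

section
variable {F : Type u} [Field F] [NumberField F]

/-- the ideals form a countable type -/
theorem lbdd_countable_ideals : Countable (Ideal (𝓞 F)) := by
  rw [← Set.countable_univ_iff]
  have h : (Set.univ : Set (Ideal (𝓞 F))) =
      ⋃ n : ℕ, {I : Ideal (𝓞 F) | Ideal.absNorm I = n} := by
    ext I
    simp
  rw [h]
  exact Set.countable_iUnion fun n => (Ideal.finite_setOfPred_absNorm_eq n).countable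

/-- the weight `v ↦ tent v * exp (s v)` -/
noncomputable def lbddWt (s v : ℝ) : ℝ := tent v * Real.exp (s * v)

theorem lbdd_continuous_tent : Continuous tent :=
  continuous_const.max (continuous_const.sub continuous_abs)

theorem lbdd_wt_nonneg (s v : ℝ) : 0 ≤ lbddWt s v := mul_nonneg (tent_nonneg v) (Real.exp_pos _).le

theorem lbdd_integrable_wt (s : ℝ) : MeasureTheory.Integrable (lbddWt s) := by
  refine Continuous.integrable_of_hasCompactSupport ?_ ?_
  · exact lbdd_continuous_tent.mul (Real.continuous_exp.comp (continuous_const.mul continuous_id))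
  · refine HasCompactSupport.intro (isCompact_Icc : IsCompact (Set.Icc (-1 : ℝ) 1)) fun x hx => ?_
    have h1 : 1 ≤ |x| := by
      by_contra hc
      push Not at hc
      rw [abs_lt] at hc
      exact hx ⟨hc.1.le, hc.2.le⟩
    rw [lbddWt, tent_eq_zero x h1, zero_mul]

theorem lbdd_integral_wt_ge (s : ℝ) (hs : 0 ≤ s) : 1 / 4 ≤ ∫ v, lbddWt s v := by
  have h1 : ∫ v : ℝ, (Set.Icc (0 : ℝ) (1 / 2)).indicator (fun _ => (1 / 2 : ℝ)) v = 1 / 4 := by
    rw [MeasureTheory.integral_indicator_const _ measurableSet_Icc]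
    simp
    norm_num
  rw [← h1]
  refine MeasureTheory.integral_mono ?_ (lbdd_integrable_wt s) fun v => ?_
  · refine (MeasureTheory.integrable_indicator_iff measurableSet_Icc).2 ?_
    exact MeasureTheory.integrableOn_const (by simp)
  · by_cases hv : v ∈ Set.Icc (0 : ℝ) (1 / 2)
    · rw [Set.indicator_of_mem hv]
      have h2 : (1 / 2 : ℝ) ≤ tent v := by
        rw [tent, abs_of_nonneg hv.1]
        exact le_max_of_le_right (by linarith [hv.2])
      have h3 : 1 ≤ Real.exp (s * v) := Real.one_le_exp (mul_nonneg hs hv.1)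
      calc (1 / 2 : ℝ) = 1 / 2 * 1 := by ring
        _ ≤ tent v * Real.exp (s * v) := mul_le_mul h2 h3 zero_le_one (tent_nonneg v)
    · rw [Set.indicator_of_notMem hv]
      exact lbdd_wt_nonneg s v

/-- Mellin transform: a power saving in the smooth sums bounds the Dirichlet series near `1` -/
theorem bdd_of_smooth (X : Ideal (𝓞 F) → ℂ) (hX0 : X 0 = 0) (hX : ∀ I, ‖X I‖ ≤ 1) (D η : ℝ)
    (hη : 0 < η)
    (h : ∀ y : ℝ, 1 ≤ y →
      ‖∑' I : Ideal (𝓞 F), X I * (tentN y (Ideal.absNorm I) : ℂ)‖ ≤
        D * y ^ (1 - η)) :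
    ∃ B : ℝ, ∀ s : ℝ, 1 < s → s ≤ 2 → ‖Lf X (s : ℂ)‖ ≤ B := by
  classical
  have hcount : Countable (Ideal (𝓞 F)) := lbdd_countable_ideals
  have hfin : {I : Ideal (𝓞 F) | Ideal.absNorm I ≤ 3}.Finite :=
    Ideal.finite_setOfPred_absNorm_le 3
  set T : Finset (Ideal (𝓞 F)) := hfin.toFinset with hT
  set C : ℝ := T.card * Real.exp 2 with hC
  have hC0 : 0 ≤ C := by positivity
  set g : ℝ → ℝ := fun x => (Set.Ioc (-1 : ℝ) 0).indicator (fun _ => C) x +
    (Set.Ioi (0 : ℝ)).indicator (fun x => |D| * Real.exp (-η * x)) x with hg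
  have hgint : MeasureTheory.Integrable g := by
    refine MeasureTheory.Integrable.add ?_ ?_
    · refine (MeasureTheory.integrable_indicator_iff measurableSet_Ioc).2 ?_
      exact MeasureTheory.integrableOn_const (by simp)
    · refine (MeasureTheory.integrable_indicator_iff measurableSet_Ioi).2 ?_
      exact (exp_neg_integrableOn_Ioi 0 hη).const_mul |D|
  refine ⟨4 * ∫ x, g x, fun s hs1 hs2 => ?_⟩
  have hs0 : 0 < s := by linarith
  set Φ : ℝ := ∫ v, lbddWt s v with hΦ
  have hΦ4 : 1 / 4 ≤ Φ := lbdd_integral_wt_ge s hs0.le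
  -- the coefficients
  set c : Ideal (𝓞 F) → ℂ := fun I => X I * (Ideal.absNorm I : ℂ) ^ (-(s : ℂ)) with hc
  have hcs : Summable fun I => ‖c I‖ := by
    refine Summable.of_nonneg_of_le (fun _ => norm_nonneg _) (fun I => ?_)
      (summable_ideals F s hs1)
    rw [hc]
    simp only [norm_mul]
    rcases Nat.eq_zero_or_pos (Ideal.absNorm I) with h0 | h0
    · have hI : I = 0 := Ideal.absNorm_eq_zero_iff.1 h0
      rw [hI, hX0, norm_zero, zero_mul]
      positivity
    · rw [Complex.norm_natCast_cpow_of_pos h0]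
      simp only [Complex.neg_re, Complex.ofReal_re]
      calc ‖X I‖ * (Ideal.absNorm I : ℝ) ^ (-s) ≤ 1 * (Ideal.absNorm I : ℝ) ^ (-s) :=
            mul_le_mul_of_nonneg_right (hX I) (by positivity)
        _ = _ := one_mul _
  set Fn : Ideal (𝓞 F) → ℝ → ℂ := fun I x =>
    c I * ((lbddWt s (Real.log (Ideal.absNorm I) - x) : ℝ) : ℂ) with hFn
  have hwint : ∀ a : ℝ, MeasureTheory.Integrable (fun x : ℝ => lbddWt s (a - x)) := fun a =>
    (lbdd_integrable_wt s).comp_sub_left a
  have hFint : ∀ I, MeasureTheory.Integrable (Fn I) := fun I =>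
    (hwint _).ofReal.const_mul (c I)
  have hFval : ∀ I, ∫ x, Fn I x = c I * (Φ : ℂ) := by
    intro I
    rw [hFn]
    simp only
    rw [MeasureTheory.integral_const_mul, integral_complex_ofReal,
      MeasureTheory.integral_sub_left_eq_self (fun v => lbddWt s v)]
  have hFnorm : ∀ I, ∫ x, ‖Fn I x‖ = ‖c I‖ * Φ := by
    intro I
    have : ∀ x, ‖Fn I x‖ = ‖c I‖ * lbddWt s (Real.log (Ideal.absNorm I) - x) := by
      intro x
      rw [hFn]
      simp only [norm_mul, Complex.norm_real, Real.norm_eq_abs, abs_of_nonneg (lbdd_wt_nonneg _ _)]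
    simp only [this]
    rw [MeasureTheory.integral_const_mul,
      MeasureTheory.integral_sub_left_eq_self (fun v => lbddWt s v)]
  have hmain := MeasureTheory.integral_tsum_of_summable_integral_norm hFint
    (by simp only [hFnorm]; exact hcs.mul_right Φ)
  simp only [hFval] at hmain
  rw [tsum_mul_right] at hmain
  have hLf : Lf X (s : ℂ) = ∑' I, c I := rfl
  rw [← hLf] at hmain
  -- the pointwise values
  have hpt : ∀ x, ∑' I, Fn I x =
      (∑' I : Ideal (𝓞 F), X I * (tentN (Real.exp x) (Ideal.absNorm I) : ℂ)) *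
        (Real.exp (-(s * x)) : ℝ) := by
    intro x
    rw [← tsum_mul_right]
    refine tsum_congr fun I => ?_
    rcases Nat.eq_zero_or_pos (Ideal.absNorm I) with h0 | h0
    · have hI : I = 0 := Ideal.absNorm_eq_zero_iff.1 h0
      simp only [hFn, hc, hI, hX0, zero_mul]
    · have hN : (0 : ℝ) < Ideal.absNorm I := by exact_mod_cast h0
      have h1 : ((Ideal.absNorm I : ℂ)) ^ (-(s : ℂ)) =
          ((Real.exp (-(s * Real.log (Ideal.absNorm I))) : ℝ) : ℂ) := by
        have : (Ideal.absNorm I : ℂ) = ((Ideal.absNorm I : ℝ) : ℂ) := by norm_cast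
        rw [this, ← Complex.ofReal_neg, ← Complex.ofReal_cpow hN.le, Real.rpow_def_of_pos hN]
        congr 2
        ring
      have h2 : tentN (Real.exp x) (Ideal.absNorm I) = tent (Real.log (Ideal.absNorm I) - x) := by
        rw [tentN, if_neg h0.ne', Real.log_div hN.ne' (Real.exp_pos _).ne', Real.log_exp]
      simp only [hFn, hc]
      rw [h1, h2, lbddWt]
      push_cast
      rw [mul_assoc, mul_assoc]
      congr 1
      rw [mul_left_comm]
      congr 1
      rw [← Complex.exp_add]
      congr 1
      ring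
  have hbd : ∀ x, ‖∑' I, Fn I x‖ ≤ g x := by
    intro x
    rw [hpt x, norm_mul, Complex.norm_real, Real.norm_eq_abs, abs_of_pos (Real.exp_pos _)]
    rcases lt_or_ge 0 x with hx | hx
    · have h1 := h (Real.exp x) (Real.one_le_exp hx.le)
      have h2 : g x = |D| * Real.exp (-η * x) := by
        simp only [hg]
        rw [Set.indicator_of_notMem (by intro hh; exact absurd hh.2 (not_le.2 hx)),
          Set.indicator_of_mem (show x ∈ Set.Ioi (0 : ℝ) from hx), zero_add]
      rw [h2]
      calc _ ≤ D * Real.exp x ^ (1 - η) * Real.exp (-(s * x)) :=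
            mul_le_mul_of_nonneg_right h1 (Real.exp_pos _).le
        _ ≤ |D| * Real.exp x ^ (1 - η) * Real.exp (-(s * x)) := by
            gcongr
            exact le_abs_self D
        _ = |D| * (Real.exp (x * (1 - η)) * Real.exp (-(s * x))) := by
            rw [Real.exp_mul, mul_assoc]
        _ ≤ |D| * Real.exp (-η * x) := by
            rw [← Real.exp_add]
            refine mul_le_mul_of_nonneg_left (Real.exp_le_exp.2 ?_) (abs_nonneg D)
            nlinarith
    · have h2 : ∀ I : Ideal (𝓞 F), (I ∉ T ∨ x ≤ -1) → tentN (Real.exp x) (Ideal.absNorm I) = 0 := by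
        intro I hI
        rcases Nat.eq_zero_or_pos (Ideal.absNorm I) with h0 | h0
        · rw [tentN, if_pos h0]
        · have hN : (0 : ℝ) < Ideal.absNorm I := by exact_mod_cast h0
          rw [tentN, if_neg h0.ne', Real.log_div hN.ne' (Real.exp_pos _).ne', Real.log_exp]
          refine tent_eq_zero _ ?_
          rcases hI with hI | hI
          · have h3 : ¬ Ideal.absNorm I ≤ 3 := by
              intro hh
              exact hI (hfin.mem_toFinset.2 hh)
            have h4 : (3 : ℝ) < Ideal.absNorm I := by exact_mod_cast not_le.1 h3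
            have h5 : 1 < Real.log (Ideal.absNorm I) := by
              rw [Real.lt_log_iff_exp_lt hN]
              exact Real.exp_one_lt_three.trans h4
            rw [abs_of_nonneg (by linarith)]
            linarith
          · have h6 : 0 ≤ Real.log (Ideal.absNorm I) := Real.log_natCast_nonneg _
            rw [abs_of_nonneg (by linarith)]
            linarith
      have h3 : (∑' I : Ideal (𝓞 F), X I * (tentN (Real.exp x) (Ideal.absNorm I) : ℂ)) =
          ∑ I ∈ T, X I * (tentN (Real.exp x) (Ideal.absNorm I) : ℂ) := by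
        refine tsum_eq_sum fun I hI => ?_
        rw [h2 I (Or.inl hI), Complex.ofReal_zero, mul_zero]
      rcases le_or_gt x (-1) with hx1 | hx1
      · have h4 : (∑ I ∈ T, X I * (tentN (Real.exp x) (Ideal.absNorm I) : ℂ)) = 0 := by
          refine Finset.sum_eq_zero fun I _ => ?_
          rw [h2 I (Or.inr hx1), Complex.ofReal_zero, mul_zero]
        rw [h3, h4, norm_zero, zero_mul]
        simp only [hg]
        refine add_nonneg (Set.indicator_nonneg (fun _ _ => hC0) _)
          (Set.indicator_nonneg (fun _ _ => by positivity) _)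
      · have h4 : g x = C := by
          simp only [hg]
          rw [Set.indicator_of_mem (show x ∈ Set.Ioc (-1 : ℝ) 0 from ⟨hx1, hx⟩),
            Set.indicator_of_notMem (by intro hh; exact absurd (Set.mem_Ioi.1 hh) (not_lt.2 hx)),
            add_zero]
        rw [h3, h4, hC]
        refine mul_le_mul ?_ (Real.exp_le_exp.2 (by nlinarith)) (Real.exp_pos _).le
          (by positivity)
        calc ‖∑ I ∈ T, X I * (tentN (Real.exp x) (Ideal.absNorm I) : ℂ)‖
            ≤ ∑ I ∈ T, ‖X I * (tentN (Real.exp x) (Ideal.absNorm I) : ℂ)‖ := norm_sum_le _ _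
          _ ≤ ∑ I ∈ T, (1 : ℝ) := by
              refine Finset.sum_le_sum fun I _ => ?_
              rw [norm_mul, Complex.norm_real, Real.norm_eq_abs]
              have h5 : |tentN (Real.exp x) (Ideal.absNorm I)| ≤ 1 := by
                rw [tentN]
                split_ifs with h0
                · simp
                · rw [abs_of_nonneg (tent_nonneg _)]
                  exact tent_le_one _
              calc _ ≤ 1 * (1 : ℝ) := mul_le_mul (hX I) h5 (abs_nonneg _) zero_le_one
                _ = 1 := one_mul _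
          _ = T.card := by simp
  have hle : ‖Lf X (s : ℂ) * (Φ : ℂ)‖ ≤ ∫ x, g x := by
    rw [hmain]
    exact MeasureTheory.norm_integral_le_of_norm_le hgint (Filter.Eventually.of_forall hbd)
  rw [norm_mul, Complex.norm_real, Real.norm_eq_abs, abs_of_nonneg (by linarith)] at hle
  have h0 := norm_nonneg (Lf X (s : ℂ))
  nlinarith

end

end Pool.Agent.Lib.MP_1a91b9_ntT.CF
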