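import Pool.Agent.Lib.MP_1a91b9_ntT.CF.ClassSum
import Pool.Agent.Lib.MP_1a91b9_ntT.S4.UnfoldL

/-! # CF: smooth sums of a ray class character

PROOF (complete; job of helper29, see team-store bsd_D_doc_CF.md):
(a) sum_classes_eq_zero: define pi : iota -> iota by RayEq m (I0 * J i) (J (pi i)) (hall; I0 J_i is
coprime to m). pi is injective: RayEq (I0 J_i) (I0 J_j) implies RayEq (J_i) (J_j): multiply by an
ideal I1 coprime to m with RayEq m (I0 I1) 1: from exists_inverse_coprime take I0 b = (z0), b coprime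
to m, z0 prime to m, and z1 in O with z0 z1 = 1 mod m, then I1 = b (z1): I0 I1 = (z0 z1), which is
RayEq to 1 (with b = 1, z' = 1); use RayEq.mul, symm, trans. So pi is bijective and sum_i X(J_i) =
sum_i X(J_{pi i}) = sum_i X(I0) X(J_i), and X(I0) <> 1 gives 0.
(b) smooth_sum: take unfold_index m c with c = 1 (top). For each i choose a set R_i with IsRep m
(b i) (t i) (R i) (S4.exists_isRep, S4/UnfoldL.lean) and the bijection e of unfold_index from
Sigma i, R i to the ideals coprime to m with e(i,r) b_i = (r), so absNorm e(i,r) = absNorm(r) /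
absNorm(b_i) and tentN y (absNorm e(i,r)) = tentN (N(b_i) y)(absNorm (r)). X vanishes on the other
ideals. X(e(i,r)) = X(J_i). So the sum over I is sum_i X(J_i) sum_{r in R_i} tentN(N(b_i) y)(N r) =
sum_i X(J_i) (kappa y + O(y^(1-1/n))) = O(y^(1-1/n)) by (a). The hypotheses of (a): hall: every I
coprime to m is e(i,r), RayEq to J_i. hinj: if RayEq m J_i J_j: every ideal I with RayEq m I J_i is
of the form e(i,r): by RayEq there are b', z1, z1' with I b' = (z1), J_i b' = (z1'), z1 - z1' in m b';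
as J_i b_i = (t_i), I b_i = (z) with z = z1 t_i / z1' in O (z in b_i I ... : (t_i) b' = (z1') b_i), and
z - t_i = t_i (z1 - z1')/z1' lies in m b_i; IsRep.ex gives z = u r, I b_i = (r), so I = e(i,r).
Apply this to I = J_j: J_j = e(i,r); and J_j = e(j,r') (t_j itself, IsRep.ex); e injective => i = j.
Note the sums are finite / absolutely convergent for fixed y (finitely many ideals of given norm).
-/

set_option autoImplicit false

namespace Pool.Agent.Lib.MP_1a91b9_ntT.CF

open NumberField IsDedekindDomain UniqueFactorizationMonoid Pool.Agent.Lib.MP_1a91b9_nt S4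

universe u

section
variable {F : Type u} [Field F] [NumberField F]

/-- the ray class characters are orthogonal to the trivial one: stated for the classes `J i` of
`unfold_index` -/
theorem sum_classes_eq_zero (m : Ideal (𝓞 F)) (hm0 : m ≠ 0) (hm1 : m ≠ 1) (X : Ideal (𝓞 F) → ℂ)
    (hX : IsRay m X) (I₀ : Ideal (𝓞 F)) (hI₀ : IsCoprime I₀ m) (hne : X I₀ ≠ 1)
    (ι : Type u) [Fintype ι] (J : ι → Ideal (𝓞 F)) (hJ : ∀ i, IsCoprime (J i) m)
    (hall : ∀ I, IsCoprime I m → ∃ i, RayEq m I (J i))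
    (hinj : ∀ i j, RayEq m (J i) (J j) → i = j) : ∑ i, X (J i) = 0 := by
  classical
  have hne0 : ∀ I : Ideal (𝓞 F), IsCoprime I m → I ≠ 0 := by
    rintro I hI rfl
    rw [isCoprime_zero_left] at hI
    exact hm1 ((Ideal.isUnit_iff.1 hI).trans Ideal.one_eq_top.symm)
  -- an inverse class
  obtain ⟨I₁, hI₁, hinv⟩ : ∃ I₁ : Ideal (𝓞 F), I₁ ≠ 0 ∧ RayEq m (I₀ * I₁) 1 := by
    obtain ⟨b, z₀, hb, hz₀, h1, h2⟩ := exists_inverse_coprime I₀ m (hne0 I₀ hI₀) hm0
    have h3 : IsCoprime (I₀ * b) m := IsCoprime.mul_left hI₀ h2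
    rw [h1, Ideal.isCoprime_iff_exists] at h3
    obtain ⟨i, hi, j, hj, hij⟩ := h3
    obtain ⟨z₁, rfl⟩ := Ideal.mem_span_singleton'.1 hi
    have hz₁ : z₁ ≠ 0 := by
      rintro rfl
      rw [zero_mul, zero_add] at hij
      rw [hij] at hj
      exact hm1 (((Ideal.eq_top_iff_one m).2 hj).trans Ideal.one_eq_top.symm)
    have hmem : z₁ * z₀ - 1 ∈ m := by
      have h4 : z₁ * z₀ - 1 = -j := by
        linear_combination hij
      rw [h4]
      exact m.neg_mem hj
    refine ⟨b * Ideal.span {z₁}, mul_ne_zero hb ?_, 1, z₁ * z₀, 1, one_ne_zero,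
      mul_ne_zero hz₁ hz₀, one_ne_zero, ?_, ?_, ?_⟩
    · intro h
      exact hz₁ (Ideal.span_singleton_eq_bot.1 h)
    · rw [mul_one, ← mul_assoc, h1, Ideal.span_singleton_mul_span_singleton, mul_comm]
    · rw [one_mul, Ideal.span_singleton_one, Ideal.one_eq_top]
    · rw [mul_one]
      exact hmem
  choose π hπ using fun i => hall (I₀ * J i) (IsCoprime.mul_left hI₀ (hJ i))
  have hcan : ∀ i, RayEq m (I₁ * (I₀ * J i)) (J i) := by
    intro i
    have h1 := hinv.mul (RayEq.refl m (hne0 (J i) (hJ i)))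
    rw [one_mul] at h1
    have h2 : I₁ * (I₀ * J i) = I₀ * I₁ * J i := by ring
    rw [h2]
    exact h1
  have hπinj : Function.Injective π := by
    intro i j hij
    apply hinj
    have h1 : RayEq m (I₀ * J i) (I₀ * J j) := by
      have h2 := hπ i
      rw [hij] at h2
      exact h2.trans (hπ j).symm
    exact ((hcan i).symm.trans ((RayEq.refl m hI₁).mul h1)).trans (hcan j)
  have hπbij : Function.Bijective π := Finite.injective_iff_bijective.1 hπinj
  have h1 : ∑ i, X (J i) = X I₀ * ∑ i, X (J i) := by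
    conv_lhs => rw [← hπbij.sum_comp fun i => X (J i)]
    rw [Finset.mul_sum]
    refine Finset.sum_congr rfl fun i _ => ?_
    rw [← hX.mul, hX.ray _ _ (hπ i)]
  have h2 : (1 - X I₀) * ∑ i, X (J i) = 0 := by
    rw [sub_mul, one_mul, ← h1, sub_self]
  exact (mul_eq_zero.1 h2).resolve_left (sub_ne_zero.2 (Ne.symm hne))

end

open NumberField IsDedekindDomain UniqueFactorizationMonoid Pool.Agent.Lib.MP_1a91b9_nt S4

section
variable {F : Type u} [Field F] [NumberField F]

/-- the cofactors of `b` in the ray class of `J` come from elements congruent to `t` -/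
private theorem smooth_class {m I J b : Ideal (𝓞 F)} {t : 𝓞 F} (_hb : b ≠ 0)
    (hJb : J * b = Ideal.span {t}) (h : RayEq m I J) :
    ∃ z : 𝓞 F, I * b = Ideal.span {z} ∧ z - t ∈ m * b := by
  obtain ⟨b', z1, z1', hb', hz1, hz1', h1, h2, h3⟩ := h
  have e1 : I * b * Ideal.span {z1'} = Ideal.span {z1 * t} := by
    calc I * b * Ideal.span {z1'} = (I * b') * (J * b) := by rw [← h2]; ring
      _ = Ideal.span {z1 * t} := by rw [h1, hJb, Ideal.span_singleton_mul_span_singleton]
  have hdvd : z1' ∣ z1 * t := by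
    rw [← Ideal.span_singleton_le_span_singleton, ← e1]
    exact Ideal.mul_le_right
  obtain ⟨z, hz⟩ := hdvd
  have hs : Ideal.span {z1'} ≠ (0 : Ideal (𝓞 F)) := by
    intro h
    exact hz1' (Ideal.span_singleton_eq_bot.mp h)
  refine ⟨z, ?_, ?_⟩
  · have e2 : Ideal.span {z1'} * (I * b) = Ideal.span {z1'} * Ideal.span {z} := by
      rw [mul_comm, e1, hz, Ideal.span_singleton_mul_span_singleton]
    exact mul_left_cancel₀ hs e2
  · have e3 : z1' * (z - t) = (z1 - z1') * t := by rw [mul_sub, ← hz]; ring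
    have e4 : z1' * (z - t) ∈ Ideal.span {z1'} * (m * b) := by
      rw [e3]
      have e5 : Ideal.span {z1'} * (m * b) = m * b' * Ideal.span {t} := by
        calc Ideal.span {z1'} * (m * b) = m * b' * (J * b) := by rw [← h2]; ring
          _ = m * b' * Ideal.span {t} := by rw [hJb]
      rw [e5]
      exact Ideal.mul_mem_mul h3 (Ideal.mem_span_singleton_self t)
    rw [Ideal.mem_span_singleton_mul] at e4
    obtain ⟨x, hx, hx'⟩ := e4
    rw [← mul_left_cancel₀ hz1' hx']
    exact hx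

private theorem smooth_tentN_mul {c : ℝ} {n b : ℕ} (hb : b ≠ 0) :
    tentN ((b : ℝ) * c) (n * b) = tentN c n := by
  have hb' : (b : ℝ) ≠ 0 := Nat.cast_ne_zero.2 hb
  unfold tentN
  by_cases hn : n = 0
  · rw [if_pos hn, if_pos (by rw [hn, zero_mul])]
  · rw [if_neg hn, if_neg (mul_ne_zero hn hb), Nat.cast_mul, mul_comm (n : ℝ) (b : ℝ),
      mul_div_mul_left _ _ hb']

private theorem smooth_tentN_zero {c : ℝ} (hc : 0 < c) {n : ℕ} (hn : Real.exp 1 * c < n) :
    tentN c n = 0 := by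
  unfold tentN
  split_ifs with h
  · rfl
  · have h1 : Real.exp 1 ≤ n / c := (le_div_iff₀ hc).2 hn.le
    have h2 : 1 ≤ Real.log (n / c) := by
      rw [Real.le_log_iff_exp_le (lt_of_lt_of_le (Real.exp_pos 1) h1)]
      exact h1
    unfold tent
    rw [abs_of_nonneg (by linarith)]
    exact max_eq_left (by linarith)

/-- smooth sums of a nontrivial ray class character are small -/
theorem smooth_sum (m : Ideal (𝓞 F)) (hm0 : m ≠ 0) (hm1 : m ≠ 1) (X : Ideal (𝓞 F) → ℂ)
    (hX : IsRay m X) (hnt : ∃ I, IsCoprime I m ∧ X I ≠ 1) :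
    ∃ D : ℝ, ∀ y : ℝ, 1 ≤ y →
      ‖∑' I : Ideal (𝓞 F), X I * (tentN y (Ideal.absNorm I) : ℂ)‖ ≤
        D * y ^ (1 - 1 / (Module.finrank ℚ F : ℝ)) := by
  classical
  obtain ⟨ι, hι, b, t, J, hb, hunf⟩ := unfold_index m (1 : Ideal (𝓞 F)) hm0 hm1 one_ne_zero
  choose R hR using fun i => exists_isRep m (b i) (t i)
  obtain ⟨e, hinj, he, hsurj⟩ := hunf R hR
  have hJ : ∀ i, IsCoprime (J i) m := fun i => (hb i).2.2.2.2.2.2
  have hJb : ∀ i, J i * b i = Ideal.span {t i} := fun i => (hb i).2.2.2.2.2.1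
  have hcl : ∀ i I, RayEq m I (J i) → ∃ r : R i, I = e ⟨i, r⟩ := by
    intro i I hI
    obtain ⟨z, hz1, hz2⟩ := smooth_class (hb i).1 (hJb i) hI
    obtain ⟨u, hu, r, hr, hzr⟩ := (hR i).ex z hz2
    refine ⟨⟨r, hr⟩, ?_⟩
    have h1 : e ⟨i, ⟨r, hr⟩⟩ * b i = Ideal.span {r} := (he ⟨i, ⟨r, hr⟩⟩).2.1
    have h2 : I * b i = Ideal.span {r} := by
      rw [hz1, hzr, mul_comm]
      exact Ideal.span_singleton_mul_right_unit u.isUnit r
    exact mul_right_cancel₀ (hb i).1 (h2.trans h1.symm)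
  have hsum0 : ∑ i, X (J i) = 0 := by
    obtain ⟨I₀, hI₀, hne⟩ := hnt
    refine sum_classes_eq_zero m hm0 hm1 X hX I₀ hI₀ hne ι J hJ ?_ ?_
    · intro I hI
      obtain ⟨x, rfl⟩ := hsurj I hI
      exact ⟨x.1, (he x).2.2⟩
    · intro i j hij
      obtain ⟨r, hr⟩ := hcl i (J j) hij.symm
      obtain ⟨r', hr'⟩ := hcl j (J j) (RayEq.refl m (ne_zero_of_coprime hm1 (hJ j)))
      have h3 := hinj (hr.symm.trans hr')
      exact congrArg Sigma.fst h3
  obtain ⟨κ, hκ⟩ := class_sum F m hm0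
  choose D hD using fun i => hκ (b i) (t i) (hb i).1 (hb i).2.2.1
  refine ⟨∑ i, D i, fun y hy => ?_⟩
  have hy0 : (0 : ℝ) < y := lt_of_lt_of_le one_pos hy
  set f : Ideal (𝓞 F) → ℂ := fun I => X I * (tentN y (Ideal.absNorm I) : ℂ) with hf
  have hsum : Summable f := by
    apply summable_of_finite_support
    refine (Ideal.finite_setOfPred_absNorm_le (S := 𝓞 F) ⌊Real.exp 1 * y⌋₊).subset ?_
    intro I hI
    by_contra hcon
    apply hI
    have h4 : ⌊Real.exp 1 * y⌋₊ < Ideal.absNorm I := not_le.1 hcon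
    have h5 : Real.exp 1 * y < (Ideal.absNorm I : ℝ) := (Nat.floor_lt (by positivity)).1 h4
    simp only [hf]
    rw [smooth_tentN_zero hy0 h5, Complex.ofReal_zero, mul_zero]
  have hsupp : Function.support f ⊆ Set.range e := by
    intro I hI
    by_cases hc : IsCoprime I m
    · exact hsurj I hc
    · exfalso
      apply hI
      simp only [hf]
      rw [hX.zero I hc, zero_mul]
  have h1 : ∑' I, f I = ∑' x, f (e x) := (hinj.tsum_eq hsupp).symm
  have hsum' : Summable fun x => f (e x) := hsum.comp_injective hinj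
  have hterm : ∀ i (r : R i), f (e ⟨i, r⟩) = X (J i) *
      ((tentN ((Ideal.absNorm (b i) : ℝ) * y) (Ideal.absNorm (Ideal.span {(r : 𝓞 F)})) : ℝ) : ℂ) := by
    intro i r
    obtain ⟨g1, g2, g3⟩ := he ⟨i, r⟩
    have g2' : e ⟨i, r⟩ * b i = Ideal.span {(r : 𝓞 F)} := g2
    have hNb : Ideal.absNorm (b i) ≠ 0 := Ideal.absNorm_ne_zero_iff_mem_nonZeroDivisors.mpr
      (mem_nonZeroDivisors_iff_ne_zero.mpr (hb i).1)
    have hXJ : X (e ⟨i, r⟩) = X (J i) := hX.ray _ _ g3
    simp only [hf]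
    rw [hXJ, ← g2', map_mul, smooth_tentN_mul hNb]
  set S : ι → ℝ := fun i => ∑' r : R i, tentN ((Ideal.absNorm (b i) : ℝ) * y)
    (Ideal.absNorm (Ideal.span {(r : 𝓞 F)})) with hS
  have h2 : ∑' I, f I = ∑ i, X (J i) * (S i : ℂ) := by
    rw [h1, hsum'.tsum_sigma, tsum_fintype]
    refine Finset.sum_congr rfl fun i _ => ?_
    rw [tsum_congr (hterm i), tsum_mul_left, hS, Complex.ofReal_tsum]
  have h3 : ∑' I, f I = ∑ i, X (J i) * ((S i - κ * y : ℝ) : ℂ) := by
    rw [h2]
    have h4 : ∑ i, X (J i) * ((S i - κ * y : ℝ) : ℂ) =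
        ∑ i, X (J i) * (S i : ℂ) - (∑ i, X (J i)) * ((κ * y : ℝ) : ℂ) := by
      rw [Finset.sum_mul, ← Finset.sum_sub_distrib]
      refine Finset.sum_congr rfl fun i _ => ?_
      rw [Complex.ofReal_sub]
      ring
    rw [h4, hsum0, zero_mul, sub_zero]
  show ‖∑' I, f I‖ ≤ _
  rw [h3, Finset.sum_mul]
  refine (norm_sum_le _ _).trans (Finset.sum_le_sum fun i _ => ?_)
  rw [norm_mul, hX.norm _ (hJ i), one_mul, Complex.norm_real, Real.norm_eq_abs]
  exact hD i (R i) (hR i) y hy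

end

end Pool.Agent.Lib.MP_1a91b9_ntT.CF
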