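import Pool.Agent.Lib.MP_1a91b9_ntT.CF.RayFun
import Pool.Agent.Lib.MP_1a91b9_ntT.CF.DensFam
import Pool.Agent.Lib.MP_1a91b9_ntT.CF.Smooth
import Pool.Agent.Lib.MP_1a91b9_ntT.CF.LBdd

/-! # CF: the first inequality

PROOF (complete; job of helper29, see team-store bsd_D_doc_CF.md):
chr_bdd: the modulus m, X = chr ell m x is IsRay and nontrivial: x v <> 0 for some v, not m <= v by
RC.zero, v coprime to m, stdAddChar (x v) <> 1 as ell is prime / stdAddChar injective. smooth_sum +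
bdd_of_smooth with eta = 1/n. dens_one: dens_family with iota = ZMod ell, X_j = chr ell m (j x), i0 =
0, sum_j stdAddChar(j x(w)) = ell if x w = 0, else 0 (AddChar orthogonality); for m <= w all are 0.
For j <> 0 j x is not identically 0. dens_two: iota = ZMod ell x ZMod ell, X_(i,j) = chr (i x + j y),
hind gives nontriviality for (i,j) <> 0. first_ineq: if hind fails there is (i,j) <> (0,0) with
i x + j y = 0; j <> 0 (else x = 0), so y = -(i/j) x. If hind holds, the set {x = 0, y = 0} equals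
{x = 0} (prime to m) by hxy, so ell (log(1/(s-1)) - B) <= ell^2 PZ <= log(1/(s-1)) + B', false for s
close to 1 as ell >= 2.
-/

set_option autoImplicit false

namespace Pool.Agent.Lib.MP_1a91b9_ntT.CF

open NumberField IsDedekindDomain UniqueFactorizationMonoid Pool.Agent.Lib.MP_1a91b9_nt S4

universe u

section
variable {F : Type u} [Field F] [NumberField F]

private theorem firstIneq_coprime {m : Ideal (𝓞 F)} {v : HeightOneSpectrum (𝓞 F)}
    (hmv : ¬ m ≤ v.asIdeal) : IsCoprime v.asIdeal m := by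
  rw [Ideal.isCoprime_iff_sup_eq]
  have hmax : v.asIdeal.IsMaximal := v.isMaximal
  by_contra h
  have h1 := hmax.eq_of_le h le_sup_left
  exact hmv (h1 ▸ le_sup_right)

/-- the `L`-series of a nontrivial ray class function is bounded near `1` -/
theorem chr_bdd (ℓ : ℕ) [Fact ℓ.Prime] (m : Ideal (𝓞 F)) (hm0 : m ≠ 0) (hm1 : m ≠ 1)
    (x : HeightOneSpectrum (𝓞 F) → ZMod ℓ) (hx : RC m x) (hne : ∃ v, x v ≠ 0) :
    ∃ B : ℝ, ∀ s : ℝ, 1 < s → s ≤ 2 → ‖Lf (chr ℓ m x) (s : ℂ)‖ ≤ B := by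
  have hR := isRay_chr ℓ m hm0 hm1 x hx
  obtain ⟨v, hv⟩ := hne
  have hmv : ¬ m ≤ v.asIdeal := fun h => hv (hx.zero v h)
  have hcop : IsCoprime v.asIdeal m := firstIneq_coprime hmv
  have hnt : ∃ I, IsCoprime I m ∧ chr ℓ m x I ≠ 1 := by
    refine ⟨v.asIdeal, hcop, ?_⟩
    rw [chr_place ℓ m x v hmv]
    intro h
    apply hv
    apply ZMod.injective_stdAddChar
    rw [h, AddChar.map_zero_eq_one]
  obtain ⟨D, hD⟩ := smooth_sum m hm0 hm1 _ hR hnt
  have hfin : 0 < Module.finrank ℚ F := Module.finrank_pos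
  refine bdd_of_smooth (chr ℓ m x) ?_ ?_ D (1 / (Module.finrank ℚ F : ℝ)) (by positivity) hD
  · apply hR.zero
    intro h
    rw [isCoprime_zero_left, Ideal.isUnit_iff] at h
    exact hm1 (by rw [h, Ideal.one_eq_top])
  · intro I
    by_cases hI : IsCoprime I m
    · exact (hR.norm I hI).le
    · rw [hR.zero I hI, norm_zero]
      exact zero_le_one

/-- density bound for one ray class function -/
theorem dens_one (ℓ : ℕ) [Fact ℓ.Prime] (m : Ideal (𝓞 F)) (hm0 : m ≠ 0) (hm1 : m ≠ 1)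
    (x : HeightOneSpectrum (𝓞 F) → ZMod ℓ) (hx : RC m x) (hne : ∃ v, x v ≠ 0) :
    ∃ B : ℝ, ∀ s : ℝ, 1 < s → s ≤ 2 →
      (ℓ : ℝ) * PZ {v : HeightOneSpectrum (𝓞 F) | ¬ m ≤ v.asIdeal ∧ x v = 0} s ≤
        Real.log (1 / (s - 1)) + B := by
  classical
  have hRC : ∀ j : ZMod ℓ, RC m (fun v => j * x v) := by
    intro j
    have h := hx.lin hx j 0
    simpa using h
  have hℓ : (ℓ : ℝ) = (Fintype.card (ZMod ℓ) : ℝ) := by rw [ZMod.card]
  rw [hℓ]
  refine dens_family m hm0 hm1 (fun j : ZMod ℓ => chr ℓ m (fun v => j * x v)) 0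
    (fun j => isRay_chr ℓ m hm0 hm1 _ (hRC j)) ?_ _ ?_
  · intro j hj
    obtain ⟨v, hv⟩ := hne
    exact chr_bdd ℓ m hm0 hm1 _ (hRC j) ⟨v, mul_ne_zero hj hv⟩
  · intro w
    by_cases hw : m ≤ w.asIdeal
    · have h1 : w ∉ {v : HeightOneSpectrum (𝓞 F) | ¬ m ≤ v.asIdeal ∧ x v = 0} := fun h => h.1 hw
      rw [Set.indicator_of_notMem h1, mul_zero]
      refine Finset.sum_nonneg fun j _ => ?_
      show 0 ≤ (chr ℓ m (fun v => j * x v) w.asIdeal).re
      rw [chr_bad ℓ m _ w hw]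
      exact le_refl _
    · have h2 : ∀ j : ZMod ℓ, chr ℓ m (fun v => j * x v) w.asIdeal =
          ZMod.stdAddChar (j * x w) := fun j => chr_place ℓ m _ w hw
      have h3 := AddChar.sum_mulShift (x w) (ZMod.isPrimitive_stdAddChar ℓ)
      have h4 : ∑ j : ZMod ℓ, (chr ℓ m (fun v => j * x v) w.asIdeal).re =
          (∑ j : ZMod ℓ, ZMod.stdAddChar (j * x w)).re := by
        rw [Complex.re_sum]
        exact Finset.sum_congr rfl fun j _ => by rw [h2 j]
      show _ ≤ ∑ j : ZMod ℓ, (chr ℓ m (fun v => j * x v) w.asIdeal).re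
      rw [h4, h3]
      by_cases hxw : x w = 0
      · have h1 : w ∈ {v : HeightOneSpectrum (𝓞 F) | ¬ m ≤ v.asIdeal ∧ x v = 0} := ⟨hw, hxw⟩
        rw [Set.indicator_of_mem h1, if_pos hxw, Complex.natCast_re]
        simp
      · have h1 : w ∉ {v : HeightOneSpectrum (𝓞 F) | ¬ m ≤ v.asIdeal ∧ x v = 0} :=
          fun h => hxw h.2
        rw [Set.indicator_of_notMem h1, if_neg hxw, mul_zero]
        simp

end

open NumberField IsDedekindDomain UniqueFactorizationMonoid Pool.Agent.Lib.MP_1a91b9_nt S4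

section
variable {F : Type u} [Field F] [NumberField F]

/-- density bound for two independent ray class functions -/
theorem dens_two (ℓ : ℕ) [Fact ℓ.Prime] (m : Ideal (𝓞 F)) (hm0 : m ≠ 0) (hm1 : m ≠ 1)
    (x y : HeightOneSpectrum (𝓞 F) → ZMod ℓ) (hx : RC m x) (hy : RC m y)
    (hind : ∀ i j : ZMod ℓ, (∀ v, i * x v + j * y v = 0) → i = 0 ∧ j = 0) :
    ∃ B : ℝ, ∀ s : ℝ, 1 < s → s ≤ 2 →
      (ℓ : ℝ) ^ 2 * PZ {v : HeightOneSpectrum (𝓞 F) | ¬ m ≤ v.asIdeal ∧ x v = 0 ∧ y v = 0} s ≤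
        Real.log (1 / (s - 1)) + B := by
  classical
  set Z : Set (HeightOneSpectrum (𝓞 F)) :=
    {v : HeightOneSpectrum (𝓞 F) | ¬ m ≤ v.asIdeal ∧ x v = 0 ∧ y v = 0} with hZ
  have hcard : (Fintype.card (ZMod ℓ × ZMod ℓ) : ℝ) = (ℓ : ℝ) ^ 2 := by
    rw [Fintype.card_prod, ZMod.card]
    push_cast
    ring
  rw [← hcard]
  refine dens_family m hm0 hm1
    (fun p : ZMod ℓ × ZMod ℓ => chr ℓ m (fun v => p.1 * x v + p.2 * y v)) 0
    (fun p => isRay_chr ℓ m hm0 hm1 _ (hx.lin hy p.1 p.2)) ?_ Z ?_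
  · intro p hp
    refine chr_bdd ℓ m hm0 hm1 _ (hx.lin hy p.1 p.2) ?_
    by_contra hcon
    push Not at hcon
    obtain ⟨h1, h2⟩ := hind p.1 p.2 hcon
    exact hp (Prod.ext h1 h2)
  · intro w
    by_cases hmw : m ≤ w.asIdeal
    · have hw : w ∉ Z := fun h => h.1 hmw
      rw [Set.indicator_of_notMem hw, mul_zero]
      refine le_of_eq (Finset.sum_eq_zero fun p _ => ?_).symm
      rw [chr_bad ℓ m _ w hmw, Complex.zero_re]
    · have hval : ∑ p : ZMod ℓ × ZMod ℓ,
          (chr ℓ m (fun v => p.1 * x v + p.2 * y v) w.asIdeal).re =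
          ((∑ i : ZMod ℓ, ZMod.stdAddChar (i * x w)) *
            (∑ j : ZMod ℓ, ZMod.stdAddChar (j * y w)) : ℂ).re := by
        rw [Finset.sum_mul_sum, ← Finset.univ_product_univ, Finset.sum_product, Complex.re_sum]
        refine Finset.sum_congr rfl fun i _ => ?_
        rw [Complex.re_sum]
        refine Finset.sum_congr rfl fun j _ => ?_
        rw [chr_place ℓ m _ w hmw, AddChar.map_add_eq_mul]
      have hprim := ZMod.isPrimitive_stdAddChar ℓ
      rw [hval, AddChar.sum_mulShift _ hprim, AddChar.sum_mulShift _ hprim]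
      by_cases hxw : x w = 0
      · by_cases hyw : y w = 0
        · have hw : w ∈ Z := ⟨hmw, hxw, hyw⟩
          rw [Set.indicator_of_mem hw, if_pos hxw, if_pos hyw, hcard, ZMod.card]
          simp only [Pi.one_apply, mul_one]
          rw [← Nat.cast_mul, Complex.natCast_re]
          push_cast
          rw [sq]
        · have hw : w ∉ Z := fun h => hyw h.2.2
          rw [Set.indicator_of_notMem hw, if_neg hyw]
          simp
      · have hw : w ∉ Z := fun h => hxw h.2.1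
        rw [Set.indicator_of_notMem hw, if_neg hxw]
        simp

/-- the first inequality: if `x = 0` on a set of density at least `1 / ℓ` and `y = 0` wherever
`x = 0`, then `y` is a multiple of `x` -/
theorem first_ineq (ℓ : ℕ) [Fact ℓ.Prime] (m : Ideal (𝓞 F)) (hm0 : m ≠ 0) (hm1 : m ≠ 1)
    (x y : HeightOneSpectrum (𝓞 F) → ZMod ℓ) (hx : RC m x) (hy : RC m y) (hne : ∃ v, x v ≠ 0)
    (hxy : ∀ v : HeightOneSpectrum (𝓞 F), ¬ m ≤ v.asIdeal → x v = 0 → y v = 0)
    (hlow : ∃ B : ℝ, ∀ s : ℝ, 1 < s → s ≤ 2 → Real.log (1 / (s - 1)) - B ≤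
      (ℓ : ℝ) * PZ {v : HeightOneSpectrum (𝓞 F) | ¬ m ≤ v.asIdeal ∧ x v = 0} s) :
    ∃ κ : ZMod ℓ, ∀ v, y v = κ * x v := by
  by_cases hind : ∀ i j : ZMod ℓ, (∀ v, i * x v + j * y v = 0) → i = 0 ∧ j = 0
  · exfalso
    obtain ⟨B, hB⟩ := dens_two ℓ m hm0 hm1 x y hx hy hind
    obtain ⟨B', hB'⟩ := hlow
    have hset : {v : HeightOneSpectrum (𝓞 F) | ¬ m ≤ v.asIdeal ∧ x v = 0 ∧ y v = 0} =
        {v : HeightOneSpectrum (𝓞 F) | ¬ m ≤ v.asIdeal ∧ x v = 0} := by
      ext v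
      exact ⟨fun h => ⟨h.1, h.2.1⟩, fun h => ⟨h.1, h.2, hxy v h.1 h.2⟩⟩
    rw [hset] at hB
    have hℓ : (2 : ℝ) ≤ (ℓ : ℝ) := by
      exact_mod_cast (Fact.out : ℓ.Prime).two_le
    set T : ℝ := |B| + (ℓ : ℝ) * |B'| + 1 with hT
    have hT0 : 0 < T := by positivity
    have hs1 : 1 < 1 + Real.exp (-T) := by
      have := Real.exp_pos (-T)
      linarith
    have hs2 : 1 + Real.exp (-T) ≤ 2 := by
      have : Real.exp (-T) ≤ 1 := Real.exp_le_one_iff.mpr (by linarith)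
      linarith
    have hlog : Real.log (1 / (1 + Real.exp (-T) - 1)) = T := by
      rw [add_sub_cancel_left, one_div, Real.log_inv, Real.log_exp, neg_neg]
    have h1 := hB _ hs1 hs2
    have h2 := hB' _ hs1 hs2
    rw [hlog] at h1 h2
    set P : ℝ := PZ {v : HeightOneSpectrum (𝓞 F) | ¬ m ≤ v.asIdeal ∧ x v = 0}
      (1 + Real.exp (-T)) with hP
    have h3 : (ℓ : ℝ) * (T - B') ≤ (ℓ : ℝ) ^ 2 * P := by
      rw [sq, mul_assoc]
      exact mul_le_mul_of_nonneg_left h2 (by linarith)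
    have h4 : (ℓ : ℝ) * B' ≤ (ℓ : ℝ) * |B'| :=
      mul_le_mul_of_nonneg_left (le_abs_self B') (by linarith)
    have h5 : B ≤ |B| := le_abs_self B
    nlinarith
  · push Not at hind
    obtain ⟨i, j, hij, hne0⟩ := hind
    have hj : j ≠ 0 := by
      rintro rfl
      have hi : i ≠ 0 := fun h => hne0 h rfl
      obtain ⟨v, hv⟩ := hne
      have h := hij v
      rw [zero_mul, add_zero] at h
      exact hv ((mul_eq_zero.mp h).resolve_left hi)
    refine ⟨-(j⁻¹ * i), fun v => ?_⟩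
    have h := hij v
    have h2 : y v = j⁻¹ * (j * y v) := by
      rw [← mul_assoc, inv_mul_cancel₀ hj, one_mul]
    have h3 : j * y v = -(i * x v) := eq_neg_of_add_eq_zero_right h
    rw [h2, h3]
    ring

end

end Pool.Agent.Lib.MP_1a91b9_ntT.CF
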