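import Mathlib

/-! # CF: the product of `1 - σ ^ i`

PROOF (complete; job of helper29, see team-store bsd_D_doc_CF.md):
In Z[X]: prod_{i=1}^{ell-1} (1 - X^i) - ell is divisible by Phi = 1 + X + ... + X^(ell-1) =
cyclotomic ell Z: it vanishes at a primitive ell-th root of unity zeta of C (IsPrimitiveRoot.
prod_one_sub_pow_eq_order), and cyclotomic ell Z is the minimal polynomial of zeta (minpoly.
isIntegrallyClosed_dvd, cyclotomic_eq_minpoly). Apply aeval sigma (Polynomial.aeval into the ring R,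
a Z-algebra); the list product is the image of the product (commuting powers of sigma).
-/

set_option autoImplicit false

namespace Pool.Agent.Lib.MP_1a91b9_ntT.CF

/-- if `1 + σ + ... + σ ^ (ℓ - 1) = 0` then `(1 - σ) (1 - σ ^ 2) ... (1 - σ ^ (ℓ - 1)) = ℓ` -/
theorem prod_one_sub {R : Type*} [Ring R] (σ : R) (ℓ : ℕ) (hℓ : ℓ.Prime)
    (h : ∑ i ∈ Finset.range ℓ, σ ^ i = 0) :
    ((List.range (ℓ - 1)).map fun i => 1 - σ ^ (i + 1)).prod = (ℓ : R) := by
  have := Fact.mk hℓ
  obtain ⟨n, rfl⟩ : ∃ n, ℓ = n + 1 := ⟨ℓ - 1, by have := hℓ.pos; omega⟩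
  rw [Nat.add_sub_cancel]
  have hdvd : Polynomial.cyclotomic (n + 1) ℤ ∣
      ((List.range n).map fun i => 1 - (Polynomial.X : Polynomial ℤ) ^ (i + 1)).prod -
        Polynomial.C ((n : ℤ) + 1) := by
    have hζ := Complex.isPrimitiveRoot_exp (n + 1) (by omega)
    rw [Polynomial.cyclotomic_eq_minpoly hζ (by omega)]
    apply minpoly.isIntegrallyClosed_dvd (hζ.isIntegral (by omega))
    rw [map_sub, Polynomial.aeval_C, map_list_prod, List.map_map]
    have h2 := hζ.prod_one_sub_pow_eq_order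
    rw [Finset.prod_eq_multiset_prod] at h2
    have h3 : (Multiset.map (fun k => 1 - Complex.exp (2 * Real.pi * Complex.I /
        ((n + 1 : ℕ) : ℂ)) ^ (k + 1)) (Finset.range n).val).prod =
        ((List.range n).map (fun k => 1 - Complex.exp (2 * Real.pi * Complex.I /
          ((n + 1 : ℕ) : ℂ)) ^ (k + 1))).prod := rfl
    rw [h3] at h2
    have h4 : (⇑(Polynomial.aeval (Complex.exp (2 * Real.pi * Complex.I / ((n + 1 : ℕ) : ℂ)))) ∘
        fun i => 1 - (Polynomial.X : Polynomial ℤ) ^ (i + 1)) =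
        fun k => 1 - Complex.exp (2 * Real.pi * Complex.I / ((n + 1 : ℕ) : ℂ)) ^ (k + 1) := by
      funext i
      simp
    rw [h4, h2]
    simp
  obtain ⟨Q, hQ⟩ := hdvd
  have h5 := congrArg (Polynomial.aeval σ) hQ
  rw [map_sub, map_mul, Polynomial.aeval_C, map_list_prod, List.map_map,
    Polynomial.cyclotomic_prime ℤ (n + 1), map_sum] at h5
  have h6 : ∑ i ∈ Finset.range (n + 1), Polynomial.aeval σ ((Polynomial.X : Polynomial ℤ) ^ i) =
      ∑ i ∈ Finset.range (n + 1), σ ^ i := by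
    refine Finset.sum_congr rfl fun i _ => ?_
    simp
  rw [h6, h, zero_mul, sub_eq_zero] at h5
  have h7 : (⇑(Polynomial.aeval σ) ∘ fun i => 1 - (Polynomial.X : Polynomial ℤ) ^ (i + 1)) =
      fun i => 1 - σ ^ (i + 1) := by
    funext i
    simp
  rw [h7] at h5
  rw [h5]
  simp

end Pool.Agent.Lib.MP_1a91b9_ntT.CF
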