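import Pool.Agent.Lib.MP_1a91b9_ntT.CF.OrdExt

/-! # CF: Hilbert 90 for `S`-units

PROOF (complete; job of helper29, see team-store bsd_D_doc_CF.md):
hilbert90: Mathlib's groupCohomology.exists_div_of_norm_eq_one is only for Type; use
groupCohomology.isMulCoboundary1_of_isMulCocycle1_of_aut_to_units (any universe) or the classical
proof (Dedekind independence of characters: z = sum_i (prod_{j<i} sigma^j y) sigma^i(t) <> 0).
Note the sign: y = sigma z - z additively i.e. y = sigma(z)/z. hilbert90_su: z0 with y = sigma z0 - z0.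
For w not above S: ord_w(autA sigma z0) = ord_w(z0). So ord is constant on the places above each v
not in S (sigma generates; ord_transport; ord_w(autA tau z0) = ord_w z0 for all tau): call it n_v,
zero for almost all v. b = sum_v n_v pi_v (finite sum, pi_v from hS). For w over v not in S: e = 1 (v
not ramified), ord_w(incA b) = n_v. z = z0 - incA b is in SU, autA sigma (incA b) = incA b.
-/

set_option autoImplicit false

namespace Pool.Agent.Lib.MP_1a91b9_ntT.CF

open NumberField IsDedekindDomain UniqueFactorizationMonoid Pool.Agent.Lib.MP_1a91b9_nt S4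

universe u

section
variable (k L : Type u) [Field k] [NumberField k] [Field L] [NumberField L] [Algebra k L]
  [IsGalois k L]

/-- independence of the powers of `σ` below its order -/
private theorem hilbs_indep (σ : Gal(L/k)) (c : ℕ → L) (n : ℕ) (hn : n = orderOf σ) (h0 : c 0 ≠ 0)
    (hnpos : 0 < n) : ∃ t : L, ∑ i ∈ Finset.range n, c i * (σ ^ i) t ≠ 0 := by
  by_contra hcon
  push Not at hcon
  have hinj : Function.Injective (fun i : Fin n => (((σ ^ (i : ℕ) : Gal(L/k)) : L →* L))) := by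
    intro i j hij
    have h1 : (σ ^ (i : ℕ) : Gal(L/k)) = σ ^ (j : ℕ) := by
      ext x
      exact DFunLike.congr_fun hij x
    apply Fin.ext
    exact pow_injOn_Iio_orderOf (by simp [← hn]) (by simp [← hn]) h1
  have hli := (linearIndependent_monoidHom L L).comp _ hinj
  have := (Fintype.linearIndependent_iff.1 hli) (fun i => c i) (by
    funext t
    have := hcon t
    rw [← Fin.sum_univ_eq_sum_range (fun i => c i * (σ ^ i) t) n] at this
    simpa [Finset.sum_apply] using this) ⟨0, hnpos⟩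
  exact h0 this

/-- Hilbert 90, multiplicative form -/
private theorem hilbs_mul (σ : Gal(L/k)) (hσ : ∀ τ : Gal(L/k), τ ∈ Subgroup.zpowers σ)
    (y : L) (hy : Algebra.norm k y = 1) : ∃ z : L, z ≠ 0 ∧ σ z * y = z := by
  classical
  have hnpos : 0 < orderOf σ := orderOf_pos σ
  have hprod : ∏ i ∈ Finset.range (orderOf σ), (σ ^ i) y = 1 := by
    have h1 : ∏ τ : Gal(L/k), τ y = 1 := by
      rw [← Algebra.norm_eq_prod_automorphisms, hy, map_one]
    rw [← h1]
    refine Finset.prod_bij (fun i _ => σ ^ i) (fun _ _ => Finset.mem_univ _) ?_ ?_ ?_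
    · intro i hi j hj hij
      exact pow_injOn_Iio_orderOf (by simpa using hi) (by simpa using hj) hij
    · intro τ _
      have := hσ τ
      rw [← mem_powers_iff_mem_zpowers, Submonoid.mem_powers_iff] at this
      obtain ⟨m, hm⟩ := this
      refine ⟨m % orderOf σ, by simpa using Nat.mod_lt _ hnpos, ?_⟩
      rw [← hm]
      exact pow_mod_orderOf σ m
    · intro i _
      rfl
  set P : ℕ → L := fun i => ∏ j ∈ Finset.range i, (σ ^ j) y with hP
  have hP0 : P 0 = 1 := by simp [hP]
  have hPn : P (orderOf σ) = 1 := hprod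
  have hPs : ∀ i, P (i + 1) = y * σ (P i) := by
    intro i
    simp only [hP]
    rw [Finset.prod_range_succ', map_prod, mul_comm]
    simp [pow_succ']
  obtain ⟨t, ht⟩ := hilbs_indep k L σ P (orderOf σ) rfl (by rw [hP0]; exact one_ne_zero) hnpos
  refine ⟨_, ht, ?_⟩
  rw [map_sum, Finset.sum_mul]
  have h2 : ∀ i ∈ Finset.range (orderOf σ), σ (P i * (σ ^ i) t) * y = P (i + 1) * (σ ^ (i + 1)) t := by
    intro i _
    rw [hPs, map_mul, pow_succ' σ i]
    simp only [AlgEquiv.mul_apply]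
    ring
  rw [Finset.sum_congr rfl h2]
  have h3 := Finset.sum_range_succ (fun i => P i * (σ ^ i) t) (orderOf σ)
  have h4 := Finset.sum_range_succ' (fun i => P i * (σ ^ i) t) (orderOf σ)
  rw [h3] at h4
  rw [hPn, hP0, pow_orderOf_eq_one] at h4
  simp only [pow_zero] at h4
  exact (add_right_cancel h4).symm

/-- Hilbert 90 for a cyclic extension -/
theorem hilbert90 (σ : Gal(L/k)) (hσ : ∀ τ : Gal(L/k), τ ∈ Subgroup.zpowers σ)
    (y : Additive Lˣ) (hy : nmA k L y = 0) : ∃ z : Additive Lˣ, y = autA σ z - z := by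
  have hy' : Algebra.norm k ((y.toMul : Lˣ) : L) = 1 := by
    have h : (nmA k L y).toMul = 1 := by rw [hy]; rfl
    have h2 := congrArg (fun u : kˣ => (u : k)) h
    exact h2
  obtain ⟨z, hz, hzy⟩ := hilbs_mul k L σ hσ _ hy'
  refine ⟨-(Additive.ofMul (Units.mk0 z hz)), ?_⟩
  rw [map_neg, neg_sub_neg, eq_sub_iff_add_eq]
  apply Additive.toMul.injective
  apply Units.ext
  have h5 : ((y.toMul : Lˣ) : L) * σ z = z := by rw [mul_comm]; exact hzy
  exact h5

end

open NumberField IsDedekindDomain UniqueFactorizationMonoid Pool.Agent.Lib.MP_1a91b9_nt S4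

section
variable (k L : Type u) [Field k] [NumberField k] [Field L] [NumberField L] [Algebra k L]
  [IsGalois k L]

/-- Hilbert 90 for `S`-units, if `S` contains the ramified places and the places outside `S` are
principal up to `S` -/
theorem hilbert90_su (σ : Gal(L/k)) (hσ : ∀ τ : Gal(L/k), τ ∈ Subgroup.zpowers σ)
    (S : Set (HeightOneSpectrum (𝓞 k))) (hram : ∀ v, Ram L v → v ∈ S)
    (hS : ∀ v : HeightOneSpectrum (𝓞 k), v ∉ S → ∃ y : Additive kˣ, ord v y = 1 ∧
        ∀ v' : HeightOneSpectrum (𝓞 k), v' ∉ S → v' ≠ v → ord v' y = 0)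
    (y : Additive Lˣ) (hyS : y ∈ SU {w : HeightOneSpectrum (𝓞 L) | w.under (𝓞 k) ∈ S})
    (hy : nmA k L y = 0) :
    ∃ z ∈ SU {w : HeightOneSpectrum (𝓞 L) | w.under (𝓞 k) ∈ S}, y = autA σ z - z := by
  classical
  obtain ⟨z₀, hz₀⟩ := hilbert90 k L σ hσ y hy
  -- `ord w (σ z₀) = ord w z₀` outside `S`
  have h1 : ∀ w : HeightOneSpectrum (𝓞 L), w.under (𝓞 k) ∉ S →
      ord w (autA σ z₀) = ord w z₀ := by
    intro w hw
    have h := hyS w hw
    rw [hz₀, map_sub] at h
    exact sub_eq_zero.mp h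
  have h2 : ∀ (n : ℕ) (w : HeightOneSpectrum (𝓞 L)), w.under (𝓞 k) ∉ S →
      ord w (autA (σ ^ n) z₀) = ord w z₀ := by
    intro n
    induction n with
    | zero =>
      intro w hw
      rw [pow_zero]
      rfl
    | succ n ih =>
      intro w hw
      obtain ⟨w', hw', hww'⟩ := ord_autA (σ ^ n) w
      have h3 : autA (σ ^ (n + 1)) z₀ = autA (σ ^ n) (autA σ z₀) := by
        rw [pow_succ]
        rfl
      have hw'S : w'.under (𝓞 k) ∉ S := by rw [hw']; exact hw
      rw [h3, hww', h1 w' hw'S, ← hww', ih w hw]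
  have h4 : ∀ w w' : HeightOneSpectrum (𝓞 L), w.under (𝓞 k) = w'.under (𝓞 k) →
      w.under (𝓞 k) ∉ S → ord w z₀ = ord w' z₀ := by
    intro w w' hww' hw
    obtain ⟨τ, hτ⟩ := ord_transport w w' hww'
    have hτσ : τ ∈ Submonoid.powers σ := by
      rw [mem_powers_iff_mem_zpowers]
      exact hσ τ
    obtain ⟨n, hn⟩ := hτσ
    rw [← hτ z₀, ← hn]
    exact h2 n w' (by rw [← hww']; exact hw)
  -- the element `b`
  have hfin : ({w : HeightOneSpectrum (𝓞 L) | ord w z₀ ≠ 0}).Finite := ord_finite z₀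
  set V : Set (HeightOneSpectrum (𝓞 k)) :=
    ((fun w : HeightOneSpectrum (𝓞 L) => w.under (𝓞 k)) '' {w | ord w z₀ ≠ 0}) \ S with hV
  have hVfin : V.Finite := (hfin.image _).subset Set.sdiff_subset
  have hVw : ∀ v : V, ∃ w : HeightOneSpectrum (𝓞 L), w.under (𝓞 k) = v.1 := by
    rintro ⟨v, ⟨w, _, hw⟩, _⟩
    exact ⟨w, hw⟩
  choose wv hwv using hVw
  have hπ : ∀ v : V, ∃ y : Additive kˣ, ord v.1 y = 1 ∧
      ∀ v' : HeightOneSpectrum (𝓞 k), v' ∉ S → v' ≠ v.1 → ord v' y = 0 :=
    fun v => hS v.1 v.2.2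
  choose π hπ1 hπ2 using hπ
  have : Fintype V := hVfin.fintype
  set b : Additive kˣ := ∑ v : V, (ord (wv v) z₀) • π v with hb
  have hordb : ∀ v' : HeightOneSpectrum (𝓞 k), v' ∉ S →
      ord v' b = ∑ v : V, (ord (wv v) z₀) * ord v' (π v) := by
    intro v' _
    rw [hb, map_sum]
    refine Finset.sum_congr rfl fun v _ => ?_
    rw [map_zsmul, smul_eq_mul]
  have hram1 : ∀ w : HeightOneSpectrum (𝓞 L), w.under (𝓞 k) ∉ S →
      w.asIdeal.ramificationIdx (𝓞 k) = 1 := by
    intro w hw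
    have hR : ¬ Ram L (w.under (𝓞 k)) := fun h => hw (hram _ h)
    unfold Ram at hR
    rw [not_not] at hR
    have i1 : (w.under (𝓞 k)).asIdeal.IsPrime := (w.under (𝓞 k)).isPrime
    have i2 : w.asIdeal.IsPrime := w.isPrime
    have i3 : w.asIdeal.LiesOver (w.under (𝓞 k)).asIdeal := ⟨rfl⟩
    rw [Ideal.ramificationIdxIn_eq_ramificationIdx (w.under (𝓞 k)).asIdeal w.asIdeal
      Gal(L/k)] at hR
    exact hR
  refine ⟨z₀ - incA k L b, ?_, ?_⟩
  · intro w hw
    have hw' : w.under (𝓞 k) ∉ S := hw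
    rw [map_sub, ord_incA, hram1 w hw', Nat.cast_one, one_mul, hordb _ hw', sub_eq_zero]
    by_cases hv : w.under (𝓞 k) ∈ V
    · rw [Finset.sum_eq_single (⟨w.under (𝓞 k), hv⟩ : V)]
      · rw [hπ1 ⟨w.under (𝓞 k), hv⟩, mul_one]
        exact (h4 (wv ⟨w.under (𝓞 k), hv⟩) w (hwv ⟨w.under (𝓞 k), hv⟩)
          (by rw [hwv ⟨w.under (𝓞 k), hv⟩]; exact hw')).symm
      · intro v _ hne
        rw [hπ2 v _ hw' (fun h => hne (Subtype.ext h.symm)), mul_zero]
      · intro h
        exact absurd (Finset.mem_univ _) h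
    · have hz : ord w z₀ = 0 := by
        by_contra hne
        exact hv ⟨⟨w, hne, rfl⟩, hw'⟩
      rw [hz]
      symm
      refine Finset.sum_eq_zero fun v _ => ?_
      rw [hπ2 v _ hw' (fun h => hv (h ▸ v.2)), mul_zero]
  · have hfix : autA σ (incA k L b) = incA k L b := by
      apply Additive.toMul.injective
      ext
      exact σ.commutes _
    rw [map_sub, hfix, hz₀]
    abel

end

end Pool.Agent.Lib.MP_1a91b9_ntT.CF
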