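import Pool.Agent.Lib.MP_1a91b9_ntT.CF.Defs

/-! # CF: Riemann sums of Lipschitz functions over translates of `ℤ ^ n`

PROOF (complete; job of helper29, see team-store bsd_D_doc_CF.md):
Let n = card iota. G has support in the ball ||x|| <= K0 (sup norm). For e in Z^iota let Q_e be the
cube prod_i [(t_i + e_i)/R, (t_i + e_i + 1)/R), volume R^(-n); the cubes are disjoint and cover.
int G = sum_e int_{Q_e} G. For x in Q_e: |G(x) - G((t+e)/R)| <= C / R (sup norm distance <= 1/R).
The difference is 0 unless Q_e meets the ball of radius K0 or its base point lies in it, i.e. all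
|t_i + e_i| <= (K0 + 1) R + 1; for each i at most 2(K0+1)R + 3 <= (2 K0 + 5) R values of e_i.
So |R^(-n) sum_e G((t+e)/R) - int G| <= R^(-n) (C/R) ((2K0+5) R)^n = C (2K0+5)^n / R. Multiply by
R^n. A convenient formulation: substitute to reduce to the cubes: int G = R^(-n) int G(y/R) dy and
for H(y) = G((t + y)/R): int H = sum_e int_{[0,1)^n} H(e + y) dy (integral over R^n as the sum over
the translates of the fundamental domain, e.g. MeasureTheory.IsAddFundamentalDomain.integral_eq_tsum
for the lattice Z^n, or Pi version; or `integral over the countable union` directly). n = 0 is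
allowed (both sides equal G of the only point). lat_support_finite: bounded integer vectors.
-/

set_option autoImplicit false

namespace Pool.Agent.Lib.MP_1a91b9_ntT.CF

open NumberField IsDedekindDomain UniqueFactorizationMonoid Pool.Agent.Lib.MP_1a91b9_nt S4

universe u

/-- the integer vectors in a box -/
private noncomputable def latsum_T {ι : Type*} [Fintype ι] [DecidableEq ι] (t : ι → ℝ) (B : ℝ) : Finset (ι → ℤ) :=
  Fintype.piFinset fun i => Finset.Icc ⌈-B - t i⌉ ⌊B - t i⌋

private theorem latsum_mem {ι : Type*} [Fintype ι] [DecidableEq ι] (t : ι → ℝ) (B : ℝ) (e : ι → ℤ) :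
    e ∈ latsum_T t B ↔ ∀ i, |t i + e i| ≤ B := by
  unfold latsum_T
  rw [Fintype.mem_piFinset]
  refine forall_congr' fun i => ?_
  rw [Finset.mem_Icc, Int.ceil_le, Int.le_floor, abs_le]
  constructor
  · rintro ⟨h1, h2⟩
    constructor <;> linarith
  · rintro ⟨h1, h2⟩
    constructor <;> linarith

private theorem latsum_card {ι : Type*} [Fintype ι] [DecidableEq ι] (t : ι → ℝ) (B : ℝ) (hB : 0 ≤ B) :
    ((latsum_T t B).card : ℝ) ≤ (2 * B + 1) ^ Fintype.card ι := by
  unfold latsum_T
  rw [Fintype.card_piFinset]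
  push_cast
  rw [← Finset.card_univ, ← Finset.prod_const]
  refine Finset.prod_le_prod (fun i _ => Nat.cast_nonneg _) fun i _ => ?_
  rw [Int.card_Icc]
  have h1 : ((⌊B - t i⌋ : ℤ) : ℝ) ≤ B - t i := Int.floor_le _
  have h2 : -B - t i ≤ ((⌈-B - t i⌉ : ℤ) : ℝ) := Int.le_ceil _
  rcases le_or_gt 0 (⌊B - t i⌋ + 1 - ⌈-B - t i⌉) with h | h
  · have h3 : (((⌊B - t i⌋ + 1 - ⌈-B - t i⌉).toNat : ℤ) : ℝ) = ((⌊B - t i⌋ + 1 - ⌈-B - t i⌉ : ℤ) : ℝ) := by
      rw [Int.toNat_of_nonneg h]
    have h4 : (((⌊B - t i⌋ + 1 - ⌈-B - t i⌉).toNat : ℕ) : ℝ) = (((⌊B - t i⌋ + 1 - ⌈-B - t i⌉).toNat : ℤ) : ℝ) := by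
      norm_cast
    rw [h4, h3]
    push_cast
    linarith
  · rw [Int.toNat_of_nonpos h.le]
    push_cast
    linarith

/-- the radius of the support -/
private theorem latsum_rad {ι : Type*} [Fintype ι] (G : (ι → ℝ) → ℝ) (hc : HasCompactSupport G) :
    ∃ K : ℝ, 0 ≤ K ∧ ∀ x, G x ≠ 0 → ∀ i, |x i| ≤ K := by
  obtain ⟨K, hK⟩ := hc.isCompact.isBounded.subset_closedBall (0 : ι → ℝ)
  refine ⟨max K 0, le_max_right _ _, fun x hx i => ?_⟩
  have h1 := hK (subset_tsupport G hx)
  rw [mem_closedBall_zero_iff] at h1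
  have h2 := norm_le_pi_norm x i
  rw [Real.norm_eq_abs] at h2
  exact h2.trans (h1.trans (le_max_left _ _))

open MeasureTheory in
/-- sums of a compactly supported Lipschitz function over a translate of a fine cubic lattice -/
theorem lat_sum {ι : Type*} [Fintype ι] (G : (ι → ℝ) → ℝ) (C : NNReal) (hG : LipschitzWith C G)
    (hc : HasCompactSupport G) :
    ∃ D : ℝ, ∀ (t : ι → ℝ) (R : ℝ), 1 ≤ R →
      |∑' e : ι → ℤ, G (fun i => (t i + e i) / R) - R ^ Fintype.card ι * ∫ x, G x| ≤
        D * R ^ Fintype.card ι / R := by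
  classical
  obtain ⟨K, hK0, hK⟩ := latsum_rad G hc
  refine ⟨C * (2 * K + 3) ^ Fintype.card ι, fun t R hR => ?_⟩
  have hR0 : (0 : ℝ) < R := by linarith
  set H : (ι → ℝ) → ℝ := fun y => G (fun i => (t i + y i) / R) with hH
  have hHG : ∀ y, H y = G (R⁻¹ • (t + y)) := by
    intro y
    show G _ = G _
    congr 1
    funext i
    simp only [Pi.smul_apply, Pi.add_apply, smul_eq_mul]
    rw [div_eq_inv_mul]
  have hGint : Integrable G := hG.continuous.integrable_of_hasCompactSupport hc
  have hHint : Integrable H := by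
    have h1 : Integrable (fun x => G (R⁻¹ • x)) :=
      (integrable_comp_smul_iff volume G (inv_ne_zero hR0.ne')).mpr hGint
    have h2 := h1.comp_add_left t
    refine h2.congr (Filter.Eventually.of_forall fun y => ?_)
    exact (hHG y).symm
  have hintH : ∫ y, H y = R ^ Fintype.card ι * ∫ x, G x := by
    have h1 : ∫ y, H y = ∫ y, G (R⁻¹ • (t + y)) := integral_congr_ae (Filter.Eventually.of_forall hHG)
    rw [h1, integral_add_left_eq_self (fun x => G (R⁻¹ • x)) t, Measure.integral_comp_smul, Module.finrank_fintype_fun_eq_card]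
    rw [smul_eq_mul, inv_pow, inv_inv, abs_of_pos (pow_pos hR0 _)]
  -- the cubes
  set s : (ι → ℤ) → Set (ι → ℝ) := fun e => Set.pi Set.univ fun i => Set.Ico (e i : ℝ) (e i + 1) with hs
  have hmem : ∀ e y, y ∈ s e ↔ ∀ i, ⌊y i⌋ = e i := by
    intro e y
    show y ∈ Set.pi Set.univ _ ↔ _
    rw [Set.mem_univ_pi]
    refine forall_congr' fun i => ?_
    rw [Set.mem_Ico, Int.floor_eq_iff]
  have hsm : ∀ e, MeasurableSet (s e) := fun e => MeasurableSet.univ_pi fun i => measurableSet_Ico
  have hsv : ∀ e, volume (s e) = 1 := by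
    intro e
    rw [hs, Real.volume_pi_Ico]
    simp
  have hsvr : ∀ e, volume.real (s e) = 1 := by
    intro e
    rw [measureReal_def, hsv]
    rfl
  have hun : (⋃ e, s e) = Set.univ := by
    rw [Set.eq_univ_iff_forall]
    intro y
    rw [Set.mem_iUnion]
    exact ⟨fun i => ⌊y i⌋, (hmem _ _).mpr fun i => rfl⟩
  have hdis : Pairwise (Function.onFun Disjoint s) := by
    intro e e' hee
    rw [Function.onFun, Set.disjoint_left]
    intro y hy hy'
    apply hee
    funext i
    rw [← (hmem e y).mp hy i, ← (hmem e' y).mp hy' i]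
  have hsplit : ∫ y, H y = ∑' e, ∫ y in s e, H y := by
    have h1 := integral_iUnion (f := H) hsm hdis hHint.integrableOn
    rw [hun, Measure.restrict_univ] at h1
    exact h1
  -- the finite set
  set T := latsum_T t (K * R + 1) with hT
  have hKR : 0 ≤ K * R + 1 := by positivity
  have hbound : ∀ y, H y ≠ 0 → ∀ i, |t i + y i| ≤ K * R := by
    intro y hy i
    have h1 := hK _ hy i
    rw [abs_div, abs_of_pos hR0, div_le_iff₀ hR0] at h1
    exact h1
  have hout1 : ∀ e ∉ T, H (fun i => (e i : ℝ)) = 0 := by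
    intro e he
    by_contra h
    apply he
    rw [hT, latsum_mem]
    intro i
    have := hbound _ h i
    linarith
  have hout2 : ∀ e ∉ T, ∫ y in s e, H y = 0 := by
    intro e he
    refine setIntegral_eq_zero_of_forall_eq_zero fun y hy => ?_
    by_contra h
    apply he
    rw [hT, latsum_mem]
    intro i
    have h1 := hbound _ h i
    have h2 := (hmem e y).mp hy i
    rw [Int.floor_eq_iff] at h2
    rw [abs_le] at h1 ⊢
    constructor <;> linarith [h1.1, h1.2, h2.1, h2.2]
  have hsum1 : ∑' e : ι → ℤ, H (fun i => (e i : ℝ)) = ∑ e ∈ T, H (fun i => (e i : ℝ)) := tsum_eq_sum hout1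
  have hsum2 : ∑' e, ∫ y in s e, H y = ∑ e ∈ T, ∫ y in s e, H y := tsum_eq_sum hout2
  show |∑' e : ι → ℤ, H (fun i => (e i : ℝ)) - _| ≤ _
  rw [← hintH, hsplit, hsum1, hsum2, ← Finset.sum_sub_distrib]
  have hterm : ∀ e ∈ T, |H (fun i => (e i : ℝ)) - ∫ y in s e, H y| ≤ C / R := by
    intro e _
    have h1 : ∫ y in s e, (H (fun i => (e i : ℝ)) - H y) = H (fun i => (e i : ℝ)) - ∫ y in s e, H y := by
      have h0 : IntegrableOn (fun _ : ι → ℝ => H (fun i => (e i : ℝ))) (s e) volume :=
        integrableOn_const (by rw [hsv]; exact ENNReal.one_ne_top)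
      rw [integral_sub h0 hHint.integrableOn, setIntegral_const, hsvr, one_smul]
    rw [← h1, ← Real.norm_eq_abs]
    have h2 : ‖∫ y in s e, (H (fun i => (e i : ℝ)) - H y)‖ ≤ C / R * volume.real (s e) := by
      refine norm_setIntegral_le_of_norm_le_const (by rw [hsv]; exact ENNReal.one_lt_top) fun y hy => ?_
      rw [Real.norm_eq_abs, ← Real.dist_eq]
      have h3 := hG.dist_le_mul (fun i => (t i + (e i : ℝ)) / R) (fun i => (t i + y i) / R)
      refine h3.trans ?_
      rw [div_eq_mul_one_div]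
      refine mul_le_mul_of_nonneg_left ?_ C.2
      rw [dist_pi_le_iff (by positivity)]
      intro i
      rw [Real.dist_eq, ← sub_div, abs_div, abs_of_pos hR0]
      refine div_le_div_of_nonneg_right ?_ hR0.le
      have h4 := (hmem e y).mp hy i
      rw [Int.floor_eq_iff] at h4
      rw [abs_le]
      constructor <;> linarith [h4.1, h4.2]
    rw [hsvr, mul_one] at h2
    exact h2
  refine (Finset.abs_sum_le_sum_abs _ _).trans ((Finset.sum_le_card_nsmul _ _ _ hterm).trans ?_)
  rw [nsmul_eq_mul]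
  have hcard := latsum_card t (K * R + 1) hKR
  have h5 : (2 * (K * R + 1) + 1) ^ Fintype.card ι ≤ ((2 * K + 3) * R) ^ Fintype.card ι := by
    refine pow_le_pow_left₀ (by positivity) ?_ _
    nlinarith
  calc (T.card : ℝ) * (C / R) ≤ ((2 * K + 3) * R) ^ Fintype.card ι * (C / R) := by
        refine mul_le_mul_of_nonneg_right (hcard.trans h5) ?_
        exact div_nonneg C.2 hR0.le
    _ = C * (2 * K + 3) ^ Fintype.card ι * R ^ Fintype.card ι / R := by
        rw [mul_pow]
        ring

/-- these sums are finite -/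
theorem lat_support_finite {ι : Type*} [Fintype ι] (G : (ι → ℝ) → ℝ)
    (hc : HasCompactSupport G) (t : ι → ℝ) (R : ℝ) (hR : 1 ≤ R) :
    (Function.support fun e : ι → ℤ => G (fun i => (t i + e i) / R)).Finite := by
  classical
  obtain ⟨K, hK0, hK⟩ := latsum_rad G hc
  have hR0 : (0 : ℝ) < R := by linarith
  refine (latsum_T t (K * R)).finite_toSet.subset fun e he => ?_
  rw [Finset.mem_coe, latsum_mem]
  intro i
  have h1 := hK _ he i
  rw [abs_div, abs_of_pos hR0, div_le_iff₀ hR0] at h1
  exact h1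

end Pool.Agent.Lib.MP_1a91b9_ntT.CF
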