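import Pool.Agent.Lib.MP_1a91b9_ntT.CF.DensZero
import Pool.Agent.Lib.MP_1a91b9_ntT.CF.CycRC
import Pool.Agent.Lib.MP_1a91b9_ntT.CF.NormRC
import Pool.Agent.Lib.MP_1a91b9_ntT.CF.AuxF

/-! # CF: the cyclotomic trick

PROOF (complete; job of helper29, see team-store bsd_D_doc_CF.md):
Let q, a, E, E1 be from exists_aux (v0 is not Ram because not m <= v0). n = (m O_E) (q): a nonzero
ideal <> 1. x_E(w) = f(w) x(w.under) (rc_norm: RC (m O_E)), A from rc_cyc (RC (q)). Let X = x_E with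
the values at w | q replaced by 0, A' = A with the values at w | m O_E replaced by 0: both RC n
(RC.le). first_ineq for x := A', y := X on E: A' nonzero: A'(w0) = 1 (nrm w0 = nrm v0 = a, i = 1; w0
does not divide n: q not in v0, not m <= v0). hxy: not n <= w, A' w = 0: then w = a^i with ell | i; if
v = w.under is Ram then m <= v, excluded; if Spl x v = 0; else ell | f(w); in all cases X w = 0.
hlow: PZ_down for E1/E with Z' = {w in E1 : q not in w, w.under k not dividing m, f(w/k) = 1} and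
Z = {not n <= w, A' w = 0}: by exists_aux (third property) and f(w/E) = 1; PZ Z' >= PZ univ - PZ{f <> 1}
- PZ(finite) >= log(1/(s-1)) - B; finrank E E1 = ell. So X = kappa A'. If kappa = 0 then X = 0,
contradiction with norm_ne_zero (with the ideal n; hT from dens_zero). So kappa <> 0 and x(v0) =
X(w0) = kappa A'(w0) = kappa <> 0 (f(w0) = 1).
-/

set_option autoImplicit false

namespace Pool.Agent.Lib.MP_1a91b9_ntT.CF

open NumberField IsDedekindDomain UniqueFactorizationMonoid Pool.Agent.Lib.MP_1a91b9_nt S4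

universe u

section
variable {k E : Type u} [Field k] [NumberField k] [Field E] [NumberField E] [Algebra k E]

private theorem trick_le (m : Ideal (𝓞 k)) (q : ℕ) (w : HeightOneSpectrum (𝓞 E)) :
    m.map (algebraMap (𝓞 k) (𝓞 E)) * Ideal.span {(q : 𝓞 E)} ≤ w.asIdeal ↔
      (m ≤ (w.under (𝓞 k)).asIdeal ∨ (q : 𝓞 E) ∈ w.asIdeal) := by
  rw [Ideal.IsPrime.mul_le w.isPrime, Ideal.map_le_iff_le_comap, Ideal.span_singleton_le_iff_mem]
  rfl

private theorem trick_ne (m : Ideal (𝓞 k)) (hm : m ≠ 0) (q : ℕ) (hq : q ≠ 0) :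
    m.map (algebraMap (𝓞 k) (𝓞 E)) * Ideal.span {(q : 𝓞 E)} ≠ 0 := by
  refine mul_ne_zero ?_ ?_
  · intro h
    apply hm
    have h1 := (Ideal.map_eq_bot_iff_of_injective
      (FaithfulSMul.algebraMap_injective (𝓞 k) (𝓞 E))).1 h
    exact h1
  · intro h
    have h1 : (q : 𝓞 E) = 0 := Ideal.span_singleton_eq_bot.1 h
    exact hq (by exact_mod_cast h1)

private theorem trick_one (m : Ideal (𝓞 k)) (q : ℕ) (hq : q.Prime) :
    m.map (algebraMap (𝓞 k) (𝓞 E)) * Ideal.span {(q : 𝓞 E)} ≠ 1 := by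
  intro h
  have h1 : Ideal.span {(q : 𝓞 E)} = ⊤ := by
    rw [eq_top_iff, ← Ideal.one_eq_top, ← h]
    exact Ideal.mul_le_right
  have h2 := Ideal.absNorm_span_natCast (S := 𝓞 E) q
  rw [h1, Ideal.absNorm_top] at h2
  have h3 : Module.finrank ℤ (𝓞 E) ≠ 0 := by
    rw [RingOfIntegers.rank]
    exact Module.finrank_pos.ne'
  have h4 := (Nat.pow_eq_one.1 h2.symm).resolve_right h3
  exact hq.one_lt.ne' h4

private theorem trick_norm (w : HeightOneSpectrum (𝓞 E)) :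
    nrm w = nrm (w.under (𝓞 k)) ^ w.asIdeal.inertiaDeg (𝓞 k) := by
  have hlo : w.asIdeal.LiesOver (w.under (𝓞 k)).asIdeal := ⟨rfl⟩
  rw [nrm_eq, nrm_eq, Ideal.absNorm_pow_inertiaDeg (w.under (𝓞 k)).asIdeal w.asIdeal]

private theorem trick_nat (q : ℕ) (w : HeightOneSpectrum (𝓞 E)) :
    (q : 𝓞 k) ∈ (w.under (𝓞 k)).asIdeal ↔ (q : 𝓞 E) ∈ w.asIdeal := by
  show algebraMap (𝓞 k) (𝓞 E) (q : 𝓞 k) ∈ w.asIdeal ↔ _
  rw [map_natCast]

end

section
variable (k E E1 : Type u) [Field k] [NumberField k] [Field E] [NumberField E] [Field E1]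
  [NumberField E1] [Algebra k E] [Algebra k E1] [Algebra E E1] [IsScalarTower k E E1]

private theorem trick_under (w : HeightOneSpectrum (𝓞 E1)) :
    (w.under (𝓞 E)).under (𝓞 k) = w.under (𝓞 k) := by
  apply HeightOneSpectrum.ext
  show Ideal.under (𝓞 k) (Ideal.under (𝓞 E) w.asIdeal) = Ideal.under (𝓞 k) w.asIdeal
  exact Ideal.under_under _

private theorem trick_deg (w : HeightOneSpectrum (𝓞 E1)) (h : w.asIdeal.inertiaDeg (𝓞 k) = 1) :
    w.asIdeal.inertiaDeg (𝓞 E) = 1 := by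
  have hlo : w.asIdeal.LiesOver (w.under (𝓞 E)).asIdeal := ⟨rfl⟩
  have h1 := Ideal.inertiaDeg_tower (R := 𝓞 k) (q := (w.under (𝓞 E)).asIdeal) (r := w.asIdeal)
  rw [h] at h1
  exact Nat.eq_one_of_mul_eq_one_left h1.symm

private theorem trick_low (m : Ideal (𝓞 k)) (hm : m ≠ 0) (q : ℕ) (hq : q ≠ 0)
    (Z : Set (HeightOneSpectrum (𝓞 E)))
    (hZ : ∀ w : HeightOneSpectrum (𝓞 E1), (q : 𝓞 E1) ∉ w.asIdeal →
      ¬ m ≤ (w.under (𝓞 k)).asIdeal → w.asIdeal.inertiaDeg (𝓞 k) = 1 → w.under (𝓞 E) ∈ Z) :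
    ∃ B : ℝ, ∀ s : ℝ, 1 < s → s ≤ 2 → Real.log (1 / (s - 1)) - B ≤
      (Module.finrank E E1 : ℝ) * PZ Z s := by
  obtain ⟨B₁, hB₁⟩ := prime_sum E1
  obtain ⟨B₂, hB₂⟩ := PZ_high_deg k E1
  have hfin : {w : HeightOneSpectrum (𝓞 E1) |
      m.map (algebraMap (𝓞 k) (𝓞 E1)) * Ideal.span {(q : 𝓞 E1)} ≤ w.asIdeal}.Finite := by
    refine (Ideal.finite_factors (trick_ne (E := E1) m hm q hq)).subset fun w hw => ?_
    exact Ideal.dvd_iff_le.2 hw
  obtain ⟨B₃, hB₃⟩ := PZ_finite _ hfin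
  refine ⟨B₁ + B₂ + B₃, fun s hs hs2 => ?_⟩
  have h1 : PZ (Set.univ : Set (HeightOneSpectrum (𝓞 E1))) s ≤
      PZ {w : HeightOneSpectrum (𝓞 E1) | (q : 𝓞 E1) ∉ w.asIdeal ∧
        ¬ m ≤ (w.under (𝓞 k)).asIdeal ∧ w.asIdeal.inertiaDeg (𝓞 k) = 1} s +
      (PZ {w : HeightOneSpectrum (𝓞 E1) | w.asIdeal.inertiaDeg (𝓞 k) ≠ 1} s +
        PZ {w : HeightOneSpectrum (𝓞 E1) |
          m.map (algebraMap (𝓞 k) (𝓞 E1)) * Ideal.span {(q : 𝓞 E1)} ≤ w.asIdeal} s) := by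
    refine (PZ_mono ?_ s hs).trans ((PZ_union _ _ s hs).trans
      (add_le_add le_rfl (PZ_union _ _ s hs)))
    intro w _
    by_cases h2 : w.asIdeal.inertiaDeg (𝓞 k) = 1
    · by_cases h3 : m.map (algebraMap (𝓞 k) (𝓞 E1)) * Ideal.span {(q : 𝓞 E1)} ≤ w.asIdeal
      · exact Or.inr (Or.inr h3)
      · left
        rw [trick_le] at h3
        push Not at h3
        exact ⟨h3.2, h3.1, h2⟩
    · exact Or.inr (Or.inl h2)
  have h4 : PZ {w : HeightOneSpectrum (𝓞 E1) | (q : 𝓞 E1) ∉ w.asIdeal ∧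
        ¬ m ≤ (w.under (𝓞 k)).asIdeal ∧ w.asIdeal.inertiaDeg (𝓞 k) = 1} s ≤
      (Module.finrank E E1 : ℝ) * PZ Z s := by
    refine PZ_down E E1 Z _ ?_ s hs
    rintro w ⟨hw1, hw2, hw3⟩
    exact ⟨hZ w hw1 hw2 hw3, trick_deg k E E1 w hw3⟩
  have h5 := (abs_le.1 (hB₁ s hs hs2)).1
  have h6 := hB₂ s hs
  have h7 := hB₃ s hs
  linarith

end

section
variable (k L : Type u) [Field k] [NumberField k] [Field L] [NumberField L] [Algebra k L]
  [IsGalois k L] (ℓ : ℕ) [Fact ℓ.Prime]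

/-- A nonzero ray class function of `k` modulo `m` which vanishes on the completely split places
does not vanish on the other places prime to `m` (`m` divisible by the ramified places). -/
theorem ne_zero_of_inert (h2 : ℓ ≠ 2) (hdeg : Module.finrank k L = ℓ) (m : Ideal (𝓞 k))
    (hm0 : m ≠ 0) (hm1 : m ≠ 1) (hram : ∀ v, Ram L v → m ≤ v.asIdeal)
    (x : HeightOneSpectrum (𝓞 k) → ZMod ℓ) (hx : RC m x) (hne : ∃ v, x v ≠ 0)
    (hspl : ∀ v, Spl L v → x v = 0) (v₀ : HeightOneSpectrum (𝓞 k)) (hv : ¬ m ≤ v₀.asIdeal)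
    (hs : ¬ Spl L v₀) : x v₀ ≠ 0 := by
  classical
  have hr : ¬ Ram L v₀ := fun h => hv (hram v₀ h)
  obtain ⟨q, a, E, E1, _, _, _, _, _, _, _, _, hq, ha, hqv₀, hnv₀, hG, hdegE, ⟨w₀, hw₀, hw₀1⟩,
    hAw, hE1, hup⟩ := exists_aux k L ℓ hdeg v₀ hr hs
  have hn0 := trick_ne (E := E) m hm0 q hq.ne_zero
  have hn1 := trick_one (E := E) m q hq
  have hnle := trick_le (E := E) m q
  set n : Ideal (𝓞 E) := m.map (algebraMap (𝓞 k) (𝓞 E)) * Ideal.span {(q : 𝓞 E)} with hn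
  have hxE := rc_norm k E m x hx
  obtain ⟨A, hA, hAi⟩ := rc_cyc E ℓ q h2 hq a ha fun w hw => by
    obtain ⟨i, hi, _⟩ := hAw w hw
    exact ⟨i, hi⟩
  set X : HeightOneSpectrum (𝓞 E) → ZMod ℓ := fun w => if n ≤ w.asIdeal then 0 else
    (w.asIdeal.inertiaDeg (𝓞 k) : ZMod ℓ) * x (w.under (𝓞 k)) with hXdef
  set A' : HeightOneSpectrum (𝓞 E) → ZMod ℓ := fun w => if n ≤ w.asIdeal then 0 else A w with hAdef
  have hX : RC n X := hxE.le Ideal.mul_le_left (fun w hw => by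
    simp only [hXdef]
    rw [if_neg hw]) (fun w hw => by
    simp only [hXdef]
    rw [if_pos hw])
  have hA' : RC n A' := hA.le Ideal.mul_le_right (fun w hw => by
    simp only [hAdef]
    rw [if_neg hw]) (fun w hw => by
    simp only [hAdef]
    rw [if_pos hw])
  have hw₀n : ¬ n ≤ w₀.asIdeal := by
    rw [hnle w₀, hw₀]
    rintro (h | h)
    · exact hv h
    · exact hqv₀ (by rw [← hw₀, trick_nat]; exact h)
  have hqw₀ : (q : 𝓞 E) ∉ w₀.asIdeal := fun h => hw₀n ((hnle w₀).2 (Or.inr h))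
  have hAw₀ : A' w₀ = 1 := by
    simp only [hAdef]
    rw [if_neg hw₀n, hAi w₀ hqw₀ 1, Nat.cast_one]
    rw [trick_norm (k := k) w₀, hw₀1, pow_one, hw₀, hnv₀, pow_one]
  have hXw₀ : X w₀ = x v₀ := by
    simp only [hXdef]
    rw [if_neg hw₀n, hw₀1, hw₀, Nat.cast_one, one_mul]
  have hxy : ∀ w : HeightOneSpectrum (𝓞 E), ¬ n ≤ w.asIdeal → A' w = 0 → X w = 0 := by
    intro w hw hAz
    have hw' := hw
    rw [hnle w] at hw'
    push Not at hw'
    obtain ⟨i, hi, hi2⟩ := hAw w hw'.2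
    simp only [hAdef] at hAz
    rw [if_neg hw, hAi w hw'.2 i hi] at hAz
    have hli : ℓ ∣ i := (ZMod.natCast_eq_zero_iff i ℓ).1 hAz
    simp only [hXdef]
    rw [if_neg hw]
    have hnr : ¬ Ram L (w.under (𝓞 k)) := fun h => hw'.1 (hram _ h)
    by_cases hsp : Spl L (w.under (𝓞 k))
    · rw [hspl _ hsp, mul_zero]
    · have h3 := hi2 hli hnr hsp
      rw [(ZMod.natCast_eq_zero_iff _ ℓ).2 h3, zero_mul]
  have hlow : ∃ B : ℝ, ∀ s : ℝ, 1 < s → s ≤ 2 → Real.log (1 / (s - 1)) - B ≤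
      (ℓ : ℝ) * PZ {w : HeightOneSpectrum (𝓞 E) | ¬ n ≤ w.asIdeal ∧ A' w = 0} s := by
    have h3 := trick_low k E E1 m hm0 q hq.ne_zero
      {w : HeightOneSpectrum (𝓞 E) | ¬ n ≤ w.asIdeal ∧ A' w = 0} (by
        intro w hw1 hw2 hw3
        have hu := trick_under k E E1 w
        have hq1 : (q : 𝓞 E) ∉ (w.under (𝓞 E)).asIdeal := by
          rw [trick_nat]
          exact hw1
        have hnw : ¬ n ≤ (w.under (𝓞 E)).asIdeal := by
          rw [hnle, hu]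
          rintro (h | h)
          · exact hw2 h
          · exact hq1 h
        refine ⟨hnw, ?_⟩
        obtain ⟨i, hi1, hi2⟩ := hE1 w hw1 (fun h => hw2 (hram _ h)) hw3
        simp only [hAdef]
        rw [if_neg hnw, hAi _ hq1 i hi2]
        exact (ZMod.natCast_eq_zero_iff i ℓ).2 hi1)
    rw [hdegE] at h3
    exact h3
  obtain ⟨κ, hκ⟩ := first_ineq ℓ n hn0 hn1 A' X hA' hX ⟨w₀, by rw [hAw₀]; exact one_ne_zero⟩
    hxy hlow
  have hκ0 : κ ≠ 0 := by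
    rintro rfl
    obtain ⟨w, hw1, hw2⟩ := norm_ne_zero k L ℓ E E1 hdegE m hm0 x
      (dens_zero k L ℓ hdeg m hm0 hm1 x hx hne hspl) hup n hn0
    apply hw2
    have h3 := hκ w
    rw [zero_mul] at h3
    simp only [hXdef] at h3
    rw [if_neg hw1] at h3
    exact h3
  have h4 := hκ w₀
  rw [hXw₀, hAw₀, mul_one] at h4
  rw [h4]
  exact hκ0

end

end Pool.Agent.Lib.MP_1a91b9_ntT.CF
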