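import Pool.Agent.Lib.MP_1a91b9_ntT.CF.Ord

/-! # CF: Dirichlet's theorem for `T`-units

PROOF (complete; job of helper29, see team-store bsd_D_doc_CF.md):
Induction on T (finite set) or directly: ord : SU T -> (T -> Z), kernel = units of O_F (Additive of
the image of (O_F)^x, rank Units.rank F), the image has finite index in Z^T: for v in T, v^h = (z)
with h the class number, z in SU T with ord vector h e_v. finrank is additive (Submodule.finrank_
quotient_add_finrank / rank-nullity over Z) and a finite index subgroup has the same rank.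
Finitely generated: extension of f.g. by f.g.; units are f.g. (NumberField.Units: Monoid.FG or
Module.Finite Z (Additive (O F)^x) instance). rank_odd: an odd degree Galois extension is unramified
at the infinite places (IsUnramifiedAtInfinitePlaces_of_odd_finrank), card (InfinitePlace L) = card
(InfinitePlace k) * finrank (IsUnramifiedAtInfinitePlaces.card_infinitePlace), Units.rank = card - 1.
-/

set_option autoImplicit false

namespace Pool.Agent.Lib.MP_1a91b9_ntT.CF

open NumberField IsDedekindDomain UniqueFactorizationMonoid Pool.Agent.Lib.MP_1a91b9_nt S4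

universe u

section
variable {F : Type u} [Field F] [NumberField F]

private theorem srank_ker {M : Type*} [AddCommGroup M] (φ : M →ₗ[ℤ] ℤ) (hφ : ∃ m, φ m ≠ 0)
    (hk : Module.Finite ℤ (LinearMap.ker φ)) :
    Module.Finite ℤ M ∧ Module.finrank ℤ M = Module.finrank ℤ (LinearMap.ker φ) + 1 := by
  have e : (M ⧸ LinearMap.ker φ) ≃ₗ[ℤ] LinearMap.range φ := φ.quotKerEquivRange
  have h0 : Module.Finite ℤ (M ⧸ LinearMap.ker φ) := Module.Finite.equiv e.symm
  have hM : Module.Finite ℤ M := Module.Finite.of_submodule_quotient (LinearMap.ker φ)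
  have h1 := Submodule.finrank_quotient_add_finrank (LinearMap.ker φ)
  rw [e.finrank_eq] at h1
  have h2 : Module.finrank ℤ (LinearMap.range φ) = 1 := by
    refine le_antisymm ?_ ?_
    · have h3 := Submodule.finrank_le (LinearMap.range φ)
      rwa [Module.finrank_self] at h3
    · obtain ⟨m, hm⟩ := hφ
      have h4 : Nontrivial (LinearMap.range φ) :=
        ⟨⟨φ m, LinearMap.mem_range_self φ m⟩, 0, fun h => hm (congrArg Subtype.val h)⟩
      exact Module.finrank_pos
  refine ⟨hM, ?_⟩
  omega

private theorem srank_pm (y : Fˣ) (z z' : 𝓞 F) (h : (y : F) = (z : F))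
    (h' : ((y⁻¹ : Fˣ) : F) = (z' : F)) (w : HeightOneSpectrum (𝓞 F)) :
    ord w (Additive.ofMul y) = 0 := by
  have h1 := (ord_nonneg_iff y).mpr ⟨z, h⟩ w
  have h2 := (ord_nonneg_iff y⁻¹).mpr ⟨z', h'⟩ w
  rw [ofMul_inv, map_neg] at h2
  omega

private noncomputable def srank_unit (F : Type u) [Field F] [NumberField F] :
    Additive (𝓞 F)ˣ →+ Additive Fˣ :=
  MonoidHom.toAdditive (Units.map (algebraMap (𝓞 F) F : 𝓞 F →* F))

private theorem srank_unit_mem (u : Additive (𝓞 F)ˣ) :
    srank_unit F u ∈ SU (∅ : Set (HeightOneSpectrum (𝓞 F))) := by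
  rw [mem_SU]
  intro w _
  exact srank_pm (Units.map (algebraMap (𝓞 F) F : 𝓞 F →* F) u.toMul) (u.toMul : 𝓞 F)
    ((u.toMul⁻¹ : (𝓞 F)ˣ) : 𝓞 F) rfl rfl w

private theorem srank_empty : Module.Finite ℤ (SU (∅ : Set (HeightOneSpectrum (𝓞 F)))) ∧
    Module.finrank ℤ (SU (∅ : Set (HeightOneSpectrum (𝓞 F)))) = Units.rank F := by
  have hinj : Function.Injective
      ((srank_unit F).codRestrict (SU (∅ : Set (HeightOneSpectrum (𝓞 F)))) srank_unit_mem) := by
    intro a b hab
    have h1 : srank_unit F a = srank_unit F b := congrArg Subtype.val hab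
    have h2 : Units.map (algebraMap (𝓞 F) F : 𝓞 F →* F) a.toMul =
        Units.map (algebraMap (𝓞 F) F : 𝓞 F →* F) b.toMul := h1
    have h3 : ((a.toMul : 𝓞 F) : F) = ((b.toMul : 𝓞 F) : F) := congrArg Units.val h2
    have h4 : (a.toMul : 𝓞 F) = (b.toMul : 𝓞 F) := RingOfIntegers.coe_injective h3
    have h5 : a.toMul = b.toMul := Units.ext h4
    exact h5
  have hsur : Function.Surjective
      ((srank_unit F).codRestrict (SU (∅ : Set (HeightOneSpectrum (𝓞 F)))) srank_unit_mem) := by
    rintro ⟨y, hy⟩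
    have hy' : ∀ w : HeightOneSpectrum (𝓞 F), ord w y = 0 := fun w => hy w (Set.notMem_empty w)
    obtain ⟨z, hz⟩ := (ord_nonneg_iff y.toMul).mp fun w => (hy' w).ge
    obtain ⟨z', hz'⟩ := (ord_nonneg_iff y.toMul⁻¹).mp fun w => by
      have h1 : ord w (Additive.ofMul y.toMul⁻¹) = 0 := by
        have h2 : ord w (-y) = 0 := by rw [map_neg, hy' w, neg_zero]
        exact h2
      exact h1.ge
    have hzz : z * z' = 1 := by
      apply RingOfIntegers.coe_injective
      show ((z * z' : 𝓞 F) : F) = ((1 : 𝓞 F) : F)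
      have h3 : ((z * z' : 𝓞 F) : F) = (z : F) * (z' : F) := map_mul (algebraMap (𝓞 F) F) z z'
      have h4 : ((1 : 𝓞 F) : F) = 1 := map_one (algebraMap (𝓞 F) F)
      rw [h3, h4, ← hz, ← hz', Units.mul_inv]
    refine ⟨Additive.ofMul (Units.mkOfMulEqOne z z' hzz), ?_⟩
    apply Subtype.ext
    have h5 : Units.map (algebraMap (𝓞 F) F : 𝓞 F →* F) (Units.mkOfMulEqOne z z' hzz) =
        y.toMul := by
      apply Units.ext
      exact hz.symm
    exact h5
  have e : Additive (𝓞 F)ˣ ≃ₗ[ℤ] SU (∅ : Set (HeightOneSpectrum (𝓞 F))) :=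
    LinearEquiv.ofBijective
      ((srank_unit F).codRestrict (SU (∅ : Set (HeightOneSpectrum (𝓞 F))))
        srank_unit_mem).toIntLinearMap ⟨hinj, hsur⟩
  refine ⟨Module.Finite.equiv e, ?_⟩
  rw [← e.finrank_eq, NumberField.Units.finrank_eq]

private theorem srank_exists (v : HeightOneSpectrum (𝓞 F)) (T : Set (HeightOneSpectrum (𝓞 F))) :
    ∃ y ∈ SU (insert v T), ord v y ≠ 0 := by
  classical
  have hI : v.asIdeal ∈ nonZeroDivisors (Ideal (𝓞 F)) :=
    mem_nonZeroDivisors_iff_ne_zero.mpr v.ne_bot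
  obtain ⟨h, hh⟩ : ∃ h : ℕ, h = Fintype.card (ClassGroup (𝓞 F)) := ⟨_, rfl⟩
  have hpos : h ≠ 0 := by
    rw [hh]
    exact Fintype.card_ne_zero
  have h1 : ClassGroup.mk0 (⟨v.asIdeal, hI⟩ : nonZeroDivisors (Ideal (𝓞 F))) ^ h = 1 := by
    rw [hh]
    exact pow_card_eq_one
  rw [← map_pow, ClassGroup.mk0_eq_one_iff] at h1
  obtain ⟨z, hz⟩ := h1.principal
  have hz' : v.asIdeal ^ h = Ideal.span {z} := hz
  have hvne : v.asIdeal ≠ 0 := v.ne_bot
  have hz0 : z ≠ 0 := by
    intro h0
    rw [h0, Ideal.span_singleton_zero] at hz'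
    exact pow_ne_zero h hvne hz'
  have hzF : (z : F) ≠ 0 := by
    intro h0
    exact hz0 (RingOfIntegers.coe_injective (h0.trans (map_zero (algebraMap (𝓞 F) F)).symm))
  have hord : ∀ w : HeightOneSpectrum (𝓞 F), ord w (Additive.ofMul (Units.mk0 (z : F) hzF)) =
      ((h • ({v.asIdeal} : Multiset (Ideal (𝓞 F)))).count w.asIdeal : ℕ) := fun w => by
    rw [ord_int w z (Units.mk0 (z : F) hzF) rfl, ← hz', normalizedFactors_pow,
      normalizedFactors_irreducible (Ideal.prime_of_isPrime v.ne_bot v.isPrime).irreducible,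
      normalize_eq]
  refine ⟨Additive.ofMul (Units.mk0 (z : F) hzF), ?_, ?_⟩
  · rw [mem_SU]
    intro w hw
    rw [hord w, Multiset.count_nsmul, Multiset.count_singleton, if_neg, mul_zero, Nat.cast_zero]
    intro h2
    exact hw (Set.mem_insert_iff.mpr (Or.inl (HeightOneSpectrum.ext h2)))
  · rw [hord v, Multiset.count_nsmul, Multiset.count_singleton, if_pos rfl, mul_one]
    exact_mod_cast hpos

private theorem srank_both (T : Set (HeightOneSpectrum (𝓞 F))) (hT : T.Finite) :
    Module.Finite ℤ (SU T) ∧ Module.finrank ℤ (SU T) = Units.rank F + T.ncard := by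
  induction T, hT using Set.Finite.induction_on with
  | empty =>
    rw [Set.ncard_empty, add_zero]
    exact srank_empty
  | @insert v T hv hT ih =>
    obtain ⟨ihf, ihr⟩ := ih
    obtain ⟨φ, hφ⟩ : ∃ φ : SU (insert v T) →ₗ[ℤ] ℤ, ∀ y, φ y = ord v y.1 :=
      ⟨((ord v).comp (SU (insert v T)).subtype).toIntLinearMap, fun _ => rfl⟩
    have hmem : ∀ y : LinearMap.ker φ, y.1.1 ∈ SU T := fun y => by
      rw [mem_SU]
      intro w hw
      by_cases hwv : w = v
      · have h1 : φ y.1 = 0 := y.2
        rw [hφ] at h1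
        rw [hwv]
        exact h1
      · exact (mem_SU _ _).mp y.1.2 w fun h => (Set.mem_insert_iff.mp h).elim hwv hw
    have hmem' : ∀ y : SU T, y.1 ∈ SU (insert v T) := fun y => by
      rw [mem_SU]
      intro w hw
      exact (mem_SU _ _).mp y.2 w fun h => hw (Set.mem_insert_of_mem _ h)
    obtain ⟨f, hf⟩ : ∃ f : LinearMap.ker φ →+ SU T, ∀ y, (f y).1 = y.1.1 :=
      ⟨{ toFun := fun y => ⟨y.1.1, hmem y⟩
         map_zero' := rfl
         map_add' := fun _ _ => rfl }, fun _ => rfl⟩
    have hbij : Function.Bijective f.toIntLinearMap := by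
      constructor
      · intro a b hab
        have h1 : (f a).1 = (f b).1 := congrArg Subtype.val hab
        rw [hf, hf] at h1
        exact Subtype.ext (Subtype.ext h1)
      · intro y
        refine ⟨⟨⟨y.1, hmem' y⟩, ?_⟩, ?_⟩
        · rw [LinearMap.mem_ker, hφ]
          exact (mem_SU _ _).mp y.2 v hv
        · exact Subtype.ext (hf _)
    have e : LinearMap.ker φ ≃ₗ[ℤ] SU T := LinearEquiv.ofBijective f.toIntLinearMap hbij
    obtain ⟨y, hy, hy0⟩ := srank_exists v T
    obtain ⟨h2, h3⟩ := srank_ker φ ⟨⟨y, hy⟩, by rw [hφ]; exact hy0⟩ (Module.Finite.equiv e.symm)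
    refine ⟨h2, ?_⟩
    rw [h3, e.finrank_eq, ihr, Set.ncard_insert_of_notMem hv hT]
    ring

theorem su_finite (T : Set (HeightOneSpectrum (𝓞 F))) (hT : T.Finite) :
    Module.Finite ℤ (SU T) := by
  exact (srank_both T hT).1

theorem su_finrank (T : Set (HeightOneSpectrum (𝓞 F))) (hT : T.Finite) :
    Module.finrank ℤ (SU T) = Units.rank F + T.ncard := by
  exact (srank_both T hT).2

end

open NumberField IsDedekindDomain UniqueFactorizationMonoid Pool.Agent.Lib.MP_1a91b9_nt S4

section
variable {F : Type u} [Field F] [NumberField F]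

end

/-- the unit ranks in a Galois extension of odd degree -/
theorem rank_odd (k L : Type u) [Field k] [NumberField k] [Field L] [NumberField L] [Algebra k L]
    [IsGalois k L] (h : Odd (Module.finrank k L)) :
    Units.rank L + 1 = Module.finrank k L * (Units.rank k + 1) := by
  have : IsUnramifiedAtInfinitePlaces k L := IsUnramifiedAtInfinitePlaces_of_odd_finrank h
  have h1 := IsUnramifiedAtInfinitePlaces.card_infinitePlace k L
  have h2 : 0 < Fintype.card (InfinitePlace L) := Fintype.card_pos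
  have h3 : 0 < Fintype.card (InfinitePlace k) := Fintype.card_pos
  have e2 : Units.rank L + 1 = Fintype.card (InfinitePlace L) := by
    unfold Units.rank; omega
  have e3 : Units.rank k + 1 = Fintype.card (InfinitePlace k) := by
    unfold Units.rank; omega
  rw [e2, e3, h1, mul_comm]

end Pool.Agent.Lib.MP_1a91b9_ntT.CF
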