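import Pool.Agent.Lib.MP_1a91b9_ntT.CF.HerbE
import Pool.Agent.Lib.MP_1a91b9_ntT.CF.SRank
import Pool.Agent.Lib.MP_1a91b9_ntT.CF.HilbS

/-! # CF: the norm index of the `S`-units

PROOF (complete; job of helper29, see team-store bsd_D_doc_CF.md):
ncard_above: trichotomy. norm_index: M = SU T (T = places above S), sigma a generator of Gal(L/k)
acting on M (ord_autA), sigma^ell = 1, sum sigma^i = incA o nmA on M. ker(sigma - 1) = incA(SU S) (mem_
range_incA; ord_incA, e > 0), rank a = Units.rank k + |S| (su_finrank). rank M = Units.rank L +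
|T| = ell (Units.rank k + 1) - 1 + ell |S_split| + s with s = |S_nonsplit| (rank_odd, ncard_above), so b =
Units.rank k + 1 + |S_split| satisfies rank M = a + (ell - 1) b, and a + 1 = b + s. hN: HilbS (N y = 0
implies nmA y = 0 by incA injective). herbrand: index * ell^b = ell^a, so index * ell = ell^s. Transport
the index along the injective map incA: [incA SU S : incA nmA M] = [SU S : nmA M].
-/

set_option autoImplicit false

namespace Pool.Agent.Lib.MP_1a91b9_ntT.CF

open NumberField IsDedekindDomain UniqueFactorizationMonoid Pool.Agent.Lib.MP_1a91b9_nt S4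

universe u

section
variable (k L : Type u) [Field k] [NumberField k] [Field L] [NumberField L] [Algebra k L]
  [IsGalois k L] (ℓ : ℕ) [Fact ℓ.Prime]

variable {k L} in
private theorem normidx_fib (v : HeightOneSpectrum (𝓞 k)) :
    {w : HeightOneSpectrum (𝓞 L) | w.under (𝓞 k) = v}.Finite ∧
    {w : HeightOneSpectrum (𝓞 L) | w.under (𝓞 k) = v}.ncard = Fintype.card (Over L v) := by
  have he : {w : HeightOneSpectrum (𝓞 L) | w.under (𝓞 k) = v} =
      {w : HeightOneSpectrum (𝓞 L) | w.asIdeal.under (𝓞 k) = v.asIdeal} := by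
    ext w
    exact ⟨fun h => congrArg HeightOneSpectrum.asIdeal h, fun h => HeightOneSpectrum.ext h⟩
  have hfin : {w : HeightOneSpectrum (𝓞 L) | w.asIdeal.under (𝓞 k) = v.asIdeal}.Finite :=
    Set.finite_coe_iff.mp (inferInstanceAs (Finite (Over L v)))
  rw [he]
  exact ⟨hfin, by
    rw [← Nat.card_coe_set_eq]
    exact Nat.card_eq_fintype_card (α := Over L v)⟩

/-- the number of places of `L` above `S` -/
theorem ncard_above (hdeg : Module.finrank k L = ℓ) (S : Set (HeightOneSpectrum (𝓞 k)))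
    (hS : S.Finite) :
    {w : HeightOneSpectrum (𝓞 L) | w.under (𝓞 k) ∈ S}.Finite ∧
    {w : HeightOneSpectrum (𝓞 L) | w.under (𝓞 k) ∈ S}.ncard =
      ℓ * (S ∩ {v | Spl L v}).ncard + (S ∩ {v | ¬ Spl L v}).ncard := by
  classical
  have hfin : {w : HeightOneSpectrum (𝓞 L) | w.under (𝓞 k) ∈ S}.Finite := by
    have h1 : {w : HeightOneSpectrum (𝓞 L) | w.under (𝓞 k) ∈ S} =
        ⋃ v ∈ S, {w : HeightOneSpectrum (𝓞 L) | w.under (𝓞 k) = v} := by
      ext w
      simp
    rw [h1]
    exact hS.biUnion fun v _ => (normidx_fib (k := k) (L := L) v).1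
  refine ⟨hfin, ?_⟩
  have hmaps : ((hfin.toFinset : Finset (HeightOneSpectrum (𝓞 L))) : Set
      (HeightOneSpectrum (𝓞 L))).MapsTo (fun w => w.under (𝓞 k)) hS.toFinset := by
    intro w hw
    simpa using hw
  rw [Set.ncard_eq_toFinset_card _ hfin, Finset.card_eq_sum_card_fiberwise hmaps]
  have h2 : ∀ v ∈ hS.toFinset, (hfin.toFinset.filter fun w => w.under (𝓞 k) = v).card =
      if Spl L v then ℓ else 1 := by
    intro v hv
    have hvS : v ∈ S := by simpa using hv
    have h3 : ((hfin.toFinset.filter fun w => w.under (𝓞 k) = v :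
        Finset (HeightOneSpectrum (𝓞 L))) : Set (HeightOneSpectrum (𝓞 L))) =
        {w : HeightOneSpectrum (𝓞 L) | w.under (𝓞 k) = v} := by
      ext w
      simp only [Finset.coe_filter, Set.Finite.mem_toFinset, Set.mem_ofPred_eq]
      exact ⟨fun h => h.2, fun h => ⟨h ▸ hvS, h⟩⟩
    rw [← Set.ncard_coe_finset, h3, (normidx_fib (k := k) (L := L) v).2]
    rcases trichotomy k L ℓ hdeg v with h | h | h
    · rw [if_neg h.2.1, h.2.2.1]
    · rw [if_neg h.2.1, h.2.2.1]
    · rw [if_pos h.2.1, h.2.2.1]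
  rw [Finset.sum_congr rfl h2, Finset.sum_ite, Finset.sum_const, Finset.sum_const]
  have h4 : (S ∩ {v | Spl L v}).ncard = (hS.toFinset.filter fun v => Spl L v).card := by
    rw [← Set.ncard_coe_finset]
    congr 1
    ext v
    simp
  have h5 : (S ∩ {v | ¬ Spl L v}).ncard = (hS.toFinset.filter fun v => ¬ Spl L v).card := by
    rw [← Set.ncard_coe_finset]
    congr 1
    ext v
    simp
  rw [h4, h5, smul_eq_mul, smul_eq_mul, mul_one, mul_comm]

variable {k L} in
private theorem normidx_mul (σ τ : Gal(L/k)) (y : Additive Lˣ) :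
    autA (σ * τ) y = autA σ (autA τ y) := rfl

variable {k L} in
private theorem normidx_one (y : Additive Lˣ) : autA (1 : Gal(L/k)) y = y := rfl

variable {k L} in
private theorem normidx_stable (S : Set (HeightOneSpectrum (𝓞 k))) (σ : Gal(L/k))
    (y : Additive Lˣ) (hy : y ∈ SU {w : HeightOneSpectrum (𝓞 L) | w.under (𝓞 k) ∈ S}) :
    autA σ y ∈ SU {w : HeightOneSpectrum (𝓞 L) | w.under (𝓞 k) ∈ S} := by
  rw [mem_SU] at hy ⊢
  intro w hw
  obtain ⟨w', h1, h2⟩ := ord_autA σ w
  rw [h2 y]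
  refine hy w' ?_
  simpa only [Set.mem_ofPred_eq, h1] using hw

/-- the action of `σ` on the units above `S` -/
private noncomputable def normidxEnd (S : Set (HeightOneSpectrum (𝓞 k))) (σ : Gal(L/k)) :
    AddMonoid.End (SU {w : HeightOneSpectrum (𝓞 L) | w.under (𝓞 k) ∈ S}) :=
  ((autA σ).comp (SU {w : HeightOneSpectrum (𝓞 L) | w.under (𝓞 k) ∈ S}).subtype).codRestrict
    (SU {w : HeightOneSpectrum (𝓞 L) | w.under (𝓞 k) ∈ S})
    (fun x => normidx_stable S σ x.1 x.2)

private theorem normidxEnd_coe (S : Set (HeightOneSpectrum (𝓞 k))) (σ : Gal(L/k))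
    (x : SU {w : HeightOneSpectrum (𝓞 L) | w.under (𝓞 k) ∈ S}) :
    ((normidxEnd k L S σ x : SU {w : HeightOneSpectrum (𝓞 L) | w.under (𝓞 k) ∈ S}) :
      Additive Lˣ) = autA σ x.1 := rfl

private theorem normidxEnd_pow (S : Set (HeightOneSpectrum (𝓞 k))) (σ : Gal(L/k)) (i : ℕ) :
    normidxEnd k L S σ ^ i = normidxEnd k L S (σ ^ i) := by
  induction i with
  | zero =>
    rw [pow_zero, pow_zero]
    ext x
    rfl
  | succ i ih =>
    rw [pow_succ, pow_succ, ih]
    ext x
    rfl

private theorem normidx_over (hdeg : Module.finrank k L = ℓ) (v : HeightOneSpectrum (𝓞 k)) :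
    ∃ w : HeightOneSpectrum (𝓞 L), w.under (𝓞 k) = v := by
  have h1 : 0 < Fintype.card (Over L v) := by
    rcases trichotomy k L ℓ hdeg v with h | h | h
    · rw [h.2.2.1]; exact one_pos
    · rw [h.2.2.1]; exact one_pos
    · rw [h.2.2.1]; exact (Fact.out : ℓ.Prime).pos
  obtain ⟨w⟩ := Fintype.card_pos_iff.mp h1
  exact ⟨w.1, HeightOneSpectrum.ext w.2⟩

/-- `[k_S : N L_S] = ℓ ^ (s - 1)`, `s` the number of places of `S` which are not completely split -/
theorem norm_index (h2 : ℓ ≠ 2) (hdeg : Module.finrank k L = ℓ)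
    (S : Set (HeightOneSpectrum (𝓞 k))) (hSf : S.Finite) (hram : ∀ v, Ram L v → v ∈ S)
    (hS : ∀ v : HeightOneSpectrum (𝓞 k), v ∉ S → ∃ y : Additive kˣ, ord v y = 1 ∧
        ∀ v' : HeightOneSpectrum (𝓞 k), v' ∉ S → v' ≠ v → ord v' y = 0) :
    (AddSubgroup.map (nmA k L) (SU {w : HeightOneSpectrum (𝓞 L) | w.under (𝓞 k) ∈ S})).relIndex
      (SU S) * ℓ = ℓ ^ (S ∩ {v | ¬ Spl L v}).ncard := by
  classical
  have hℓ : ℓ.Prime := Fact.out
  set T : Set (HeightOneSpectrum (𝓞 L)) := {w : HeightOneSpectrum (𝓞 L) | w.under (𝓞 k) ∈ S}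
    with hT
  -- a generator of the Galois group
  have hcard : Nat.card Gal(L/k) = ℓ := by rw [IsGalois.card_aut_eq_finrank, hdeg]
  haveI : IsCyclic Gal(L/k) := isCyclic_of_prime_card hcard
  obtain ⟨σ, hσ⟩ := IsCyclic.exists_generator (α := Gal(L/k))
  have hord : orderOf σ = ℓ := by rw [orderOf_eq_card_of_forall_mem_zpowers hσ, hcard]
  have hσℓ : σ ^ ℓ = 1 := by rw [← hord]; exact pow_orderOf_eq_one σ
  -- fixed elements
  have hfix : ∀ y : Additive Lˣ, autA σ y = y → ∀ τ : Gal(L/k), autA τ y = y := by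
    intro y hy τ
    obtain ⟨i, hi⟩ := (Submonoid.mem_powers_iff τ σ).mp (mem_powers_iff_mem_zpowers.mpr (hσ τ))
    have h1 : ∀ j : ℕ, autA (σ ^ j) y = y := by
      intro j
      induction j with
      | zero => rw [pow_zero, normidx_one]
      | succ j ih => rw [pow_succ, normidx_mul, hy, ih]
    rw [← hi, h1]
  -- the sum over the group
  have hsum : ∀ y : Additive Lˣ, ∑ i ∈ Finset.range ℓ, autA (σ ^ i) y = incA k L (nmA k L y) := by
    intro y
    rw [inc_nmA, ← IsCyclic.image_range_orderOf hσ, Finset.sum_image, hord]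
    intro i hi j hj h
    exact pow_injOn_Iio_orderOf (by simpa using hi) (by simpa using hj) h
  let E : AddMonoid.End (SU T) := normidxEnd k L S σ
  have hEℓ : E ^ ℓ = 1 := by
    rw [normidxEnd_pow, hσℓ]
    ext x
    rfl
  have hEsum : ∀ x : SU T, (((∑ i ∈ Finset.range ℓ, E ^ i : AddMonoid.End (SU T)) x : SU T) :
      Additive Lˣ) = incA k L (nmA k L x.1) := by
    intro x
    rw [← hsum]
    have key : ∀ n : ℕ, (((∑ i ∈ Finset.range n, E ^ i : AddMonoid.End (SU T)) x : SU T) :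
        Additive Lˣ) = ∑ i ∈ Finset.range n, autA (σ ^ i) x.1 := by
      intro n
      induction n with
      | zero =>
        rw [Finset.sum_range_zero, Finset.sum_range_zero]
        rfl
      | succ n ih =>
        rw [Finset.sum_range_succ, Finset.sum_range_succ, ← ih, normidxEnd_pow]
        rfl
    exact key ℓ
  -- Hilbert 90
  have hN : ∀ x : SU T, (∑ i ∈ Finset.range ℓ, E ^ i : AddMonoid.End (SU T)) x = 0 →
      ∃ y : SU T, x = E y - y := by
    intro x hx
    have h1 : nmA k L x.1 = 0 := by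
      apply incA_injective (k := k) (L := L)
      rw [← hEsum, hx, map_zero]
      rfl
    obtain ⟨z, hz, hxz⟩ := hilbert90_su k L σ hσ S hram hS x.1 x.2 h1
    exact ⟨⟨z, hz⟩, Subtype.ext hxz⟩
  -- the fixed points
  have hker : AddSubgroup.map (SU T).subtype (AddMonoidHom.ker (E - 1 : AddMonoid.End (SU T))) =
      AddSubgroup.map (incA k L) (SU S) := by
    ext y
    rw [AddSubgroup.mem_map, AddSubgroup.mem_map]
    constructor
    · rintro ⟨x, hx, rfl⟩
      have h1 : autA σ x.1 = x.1 := by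
        have h2 : E x - x = 0 := hx
        have h3 : E x = x := sub_eq_zero.mp h2
        exact congrArg Subtype.val h3
      obtain ⟨a, ha⟩ := mem_range_incA x.1 (hfix x.1 h1)
      refine ⟨a, ?_, ha⟩
      rw [mem_SU]
      intro v hv
      obtain ⟨w, hw⟩ := normidx_over k L ℓ hdeg v
      have h4 := ord_incA (k := k) w a
      rw [hw, ha, (mem_SU T x.1).mp x.2 w (by rw [hT, Set.mem_ofPred_eq, hw]; exact hv)] at h4
      rcases mul_eq_zero.mp h4.symm with h5 | h5
      · exfalso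
        have h6 := trichotomy k L ℓ hdeg v
        have h7 : w.asIdeal.under (𝓞 k) = v.asIdeal := congrArg HeightOneSpectrum.asIdeal hw
        have h8 : w.asIdeal.ramificationIdx (𝓞 k) ≠ 0 := by
          rcases h6 with h | h | h
          · rw [(h.2.2.2 ⟨w, h7⟩).1]; exact hℓ.ne_zero
          · rw [(h.2.2.2 ⟨w, h7⟩).1]; exact one_ne_zero
          · rw [(h.2.2.2 ⟨w, h7⟩).1]; exact one_ne_zero
        exact h8 (by exact_mod_cast h5)
      · exact h5
    · rintro ⟨a, ha, rfl⟩
      have h1 : incA k L a ∈ SU T := by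
        rw [mem_SU]
        intro w hw
        rw [ord_incA, (mem_SU S a).mp ha _ hw, mul_zero]
      refine ⟨⟨incA k L a, h1⟩, ?_, rfl⟩
      have h2 : autA σ (incA k L a) = incA k L a := by
        apply Additive.toMul.injective
        apply Units.ext
        exact σ.commutes _
      have h3 : E ⟨incA k L a, h1⟩ = ⟨incA k L a, h1⟩ := Subtype.ext h2
      have h4 : E ⟨incA k L a, h1⟩ - ⟨incA k L a, h1⟩ = 0 := sub_eq_zero.mpr h3
      exact h4
  have hrange : AddSubgroup.map (SU T).subtype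
      (AddMonoidHom.range (∑ i ∈ Finset.range ℓ, E ^ i : AddMonoid.End (SU T))) =
      AddSubgroup.map (incA k L) (AddSubgroup.map (nmA k L) (SU T)) := by
    ext y
    constructor
    · rintro ⟨_, ⟨x, rfl⟩, rfl⟩
      exact ⟨nmA k L x.1, ⟨x.1, x.2, rfl⟩, (hEsum x).symm⟩
    · rintro ⟨_, ⟨x, hx, rfl⟩, rfl⟩
      exact ⟨_, ⟨⟨x, hx⟩, rfl⟩, hEsum ⟨x, hx⟩⟩
  have hidx : (AddMonoidHom.range (∑ i ∈ Finset.range ℓ, E ^ i : AddMonoid.End (SU T))).relIndex
      (AddMonoidHom.ker (E - 1 : AddMonoid.End (SU T))) =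
      (AddSubgroup.map (nmA k L) (SU T)).relIndex (SU S) := by
    rw [← AddSubgroup.relIndex_map_map_of_injective _ _ (incA_injective (k := k) (L := L)),
      ← hker, ← hrange,
      AddSubgroup.relIndex_map_map_of_injective _ _ (SU T).subtype_injective]
  -- ranks
  obtain ⟨hTf, hTc⟩ := ncard_above k L ℓ hdeg S hSf
  have hSc : S.ncard = (S ∩ {v | Spl L v}).ncard + (S ∩ {v | ¬ Spl L v}).ncard := by
    rw [← Set.ncard_inter_add_ncard_sdiff_eq_ncard S {v | Spl L v} hSf]
    rfl
  haveI : Module.Finite ℤ (SU T) := su_finite T hTf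
  have hrkS : Module.finrank ℤ (AddMonoidHom.ker (E - 1 : AddMonoid.End (SU T))) =
      Units.rank k + S.ncard := by
    rw [← su_finrank S hSf]
    have e1 := (AddSubgroup.equivMapOfInjective (AddMonoidHom.ker (E - 1 : AddMonoid.End (SU T)))
      (SU T).subtype (SU T).subtype_injective).toIntLinearEquiv.finrank_eq
    have e2 := (AddSubgroup.equivMapOfInjective (SU S)
      (incA k L) (incA_injective (k := k) (L := L))).toIntLinearEquiv.finrank_eq
    rw [e1, e2, hker]
  have hrkT : Module.finrank ℤ (SU T) = (Units.rank k + S.ncard) +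
      (ℓ - 1) * (Units.rank k + 1 + (S ∩ {v | Spl L v}).ncard) := by
    rw [su_finrank T hTf, hTc, hSc]
    have h1 := rank_odd k L (by rw [hdeg]; exact hℓ.odd_of_ne_two h2)
    rw [hdeg] at h1
    obtain ⟨q, hq⟩ : ∃ q, ℓ = q + 1 := ⟨ℓ - 1, (Nat.sub_add_cancel hℓ.one_le).symm⟩
    rw [hq] at h1 ⊢
    rw [Nat.add_sub_cancel]
    nlinarith [h1]
  have hmain := herbrand (SU T) E ℓ _ _ hℓ hEℓ hN hrkS hrkT
  rw [hidx] at hmain
  have hpos : 0 < ℓ ^ (Units.rank k + 1 + (S ∩ {v | Spl L v}).ncard) := pow_pos hℓ.pos _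
  apply Nat.eq_of_mul_eq_mul_right hpos
  calc (AddSubgroup.map (nmA k L) (SU T)).relIndex (SU S) * ℓ *
        ℓ ^ (Units.rank k + 1 + (S ∩ {v | Spl L v}).ncard)
      = ((AddSubgroup.map (nmA k L) (SU T)).relIndex (SU S) *
        ℓ ^ (Units.rank k + 1 + (S ∩ {v | Spl L v}).ncard)) * ℓ := by ring
    _ = ℓ ^ (Units.rank k + S.ncard) * ℓ := by rw [hmain]
    _ = ℓ ^ (S ∩ {v | ¬ Spl L v}).ncard *
        ℓ ^ (Units.rank k + 1 + (S ∩ {v | Spl L v}).ncard) := by
      rw [hSc, ← pow_succ, ← pow_add]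
      congr 1
      ring

end

end Pool.Agent.Lib.MP_1a91b9_ntT.CF
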