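import Pool.Agent.Lib.MP_1a91b9_ntT.CF.RayFun

/-! # CF: orders and `T`-units

PROOF (complete; job of helper29, see team-store bsd_D_doc_CF.md):
valuationOfNeZero_eq; the valuation of an integer is exp(-multiplicity) (HeightOneSpectrum.
intValuation_def, count in Associates.factors; relate to normalizedFactors count). ord_nonneg_iff:
elements with all valuations <= 1 are integral (HeightOneSpectrum.mem_integers_of_valuation_le_one).
ord_finite: finitely many places with valuation <> 1 (write y = z1/z2). evI_span: the multiset sum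
as a finsum over places with multiplicities ord_w.
-/

set_option autoImplicit false

namespace Pool.Agent.Lib.MP_1a91b9_ntT.CF

open NumberField IsDedekindDomain UniqueFactorizationMonoid Pool.Agent.Lib.MP_1a91b9_nt S4

universe u

noncomputable section

section
variable {F : Type u} [Field F] [NumberField F]

/-- the order at the place `w`, as a homomorphism on `Fˣ` -/
def ord (w : HeightOneSpectrum (𝓞 F)) : Additive Fˣ →+ ℤ :=
  -(MonoidHom.toAdditiveLeft (w.valuationOfNeZero (K := F)))

/-- the elements of `Fˣ` which are units outside `T` -/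
def SU (T : Set (HeightOneSpectrum (𝓞 F))) : AddSubgroup (Additive Fˣ) where
  carrier := {y | ∀ w : HeightOneSpectrum (𝓞 F), w ∉ T → ord w y = 0}
  add_mem' := by
    intro a b ha hb w hw
    rw [map_add, ha w hw, hb w hw, add_zero]
  zero_mem' := fun w _ => map_zero _
  neg_mem' := by
    intro a ha w hw
    rw [map_neg, ha w hw, neg_zero]

theorem mem_SU (T : Set (HeightOneSpectrum (𝓞 F))) (y : Additive Fˣ) :
    y ∈ SU T ↔ ∀ w : HeightOneSpectrum (𝓞 F), w ∉ T → ord w y = 0 := Iff.rfl

theorem ord_val (w : HeightOneSpectrum (𝓞 F)) (y : Fˣ) :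
    w.valuation F (y : F) = WithZero.exp (-(ord w (Additive.ofMul y))) := by
  rw [← HeightOneSpectrum.valuationOfNeZero_eq]
  have e : -(ord w (Additive.ofMul y)) = Multiplicative.toAdd (w.valuationOfNeZero (K := F) y) :=
    neg_neg _
  rw [e]
  rfl

omit [NumberField F] in
theorem ord_ne_zero (z : 𝓞 F) (y : Fˣ) (hy : (y : F) = (z : F)) : z ≠ 0 := by
  rintro rfl
  exact y.ne_zero (hy.trans (map_zero (algebraMap (𝓞 F) F)))

/-- the order of a nonzero integer is its multiplicity -/
theorem ord_int (w : HeightOneSpectrum (𝓞 F)) (z : 𝓞 F) (y : Fˣ) (hy : (y : F) = (z : F)) :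
    ord w (Additive.ofMul y) =
      ((open Classical in (normalizedFactors (Ideal.span {z})).count w.asIdeal : ℕ) : ℤ) := by
  classical
  have hz : z ≠ 0 := ord_ne_zero z y hy
  have hsp : Ideal.span {z} ≠ (0 : Ideal (𝓞 F)) := by
    rw [Ne, Ideal.zero_eq_bot, Ideal.span_singleton_eq_bot]
    exact hz
  have h := ord_val w y
  rw [hy, show (z : F) = algebraMap (𝓞 F) F z from rfl, HeightOneSpectrum.valuation_of_algebraMap,
    w.intValuation_if_neg hz, WithZero.exp_inj, neg_inj,
    Ideal.count_associates_factors_eq hsp w.isPrime w.ne_bot] at h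
  rw [← h]

theorem ord_nonneg_iff (y : Fˣ) : (∀ w : HeightOneSpectrum (𝓞 F), 0 ≤ ord w (Additive.ofMul y)) ↔
    ∃ z : 𝓞 F, (y : F) = (z : F) := by
  constructor
  · intro h
    obtain ⟨z, hz⟩ := HeightOneSpectrum.mem_integers_of_valuation_le_one (R := 𝓞 F) F (y : F)
      (fun v => by
        rw [ord_val, ← WithZero.exp_zero, WithZero.exp_le_exp]
        have := h v
        omega)
    exact ⟨z, hz.symm⟩
  · rintro ⟨z, hz⟩ w
    rw [ord_int w z y hz]
    exact Int.natCast_nonneg _

theorem ord_pos_iff (w : HeightOneSpectrum (𝓞 F)) (z : 𝓞 F) (y : Fˣ) (hy : (y : F) = (z : F)) :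
    0 < ord w (Additive.ofMul y) ↔ z ∈ w.asIdeal := by
  have h : w.valuation F (y : F) < 1 ↔ z ∈ w.asIdeal := by
    rw [hy]
    exact HeightOneSpectrum.valuation_lt_one_iff_mem (K := F) w z
  rw [← h, ord_val, ← WithZero.exp_zero, WithZero.exp_lt_exp]
  omega

theorem ord_finite (y : Additive Fˣ) : {w : HeightOneSpectrum (𝓞 F) | ord w y ≠ 0}.Finite := by
  obtain ⟨a, b, hb, hab⟩ := IsFractionRing.div_surjective (A := 𝓞 F) ((Additive.toMul y : Fˣ) : F)
  have hb0 : algebraMap (𝓞 F) F b ≠ 0 := by
    have h1 : b ≠ 0 := nonZeroDivisors.ne_zero hb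
    rw [Ne, FaithfulSMul.algebraMap_eq_zero_iff]
    exact h1
  have ha0 : algebraMap (𝓞 F) F a ≠ 0 := by
    intro h0
    rw [h0, zero_div] at hab
    exact (Additive.toMul y : Fˣ).ne_zero hab.symm
  have hfin : ∀ c : 𝓞 F, c ≠ 0 → {w : HeightOneSpectrum (𝓞 F) | c ∈ w.asIdeal}.Finite := by
    intro c hc
    have hsp : Ideal.span {c} ≠ (0 : Ideal (𝓞 F)) := by
      rw [Ne, Ideal.zero_eq_bot, Ideal.span_singleton_eq_bot]
      exact hc
    refine (Ideal.finite_factors hsp).subset ?_
    intro w hw
    show w.asIdeal ∣ Ideal.span {c}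
    rw [Ideal.dvd_span_singleton]
    exact hw
  have hy : y = Additive.ofMul (Units.mk0 _ ha0) - Additive.ofMul (Units.mk0 _ hb0) := by
    rw [← ofMul_div]
    apply Additive.toMul.injective
    apply Units.ext
    rw [toMul_ofMul, Units.val_div_eq_div_val, Units.val_mk0, Units.val_mk0]
    exact hab.symm
  have ha1 : a ≠ 0 := by
    rintro rfl
    exact ha0 (map_zero _)
  have hb1 : b ≠ 0 := by
    rintro rfl
    exact hb0 (map_zero _)
  refine ((hfin a ha1).union (hfin b hb1)).subset ?_
  intro w hw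
  by_contra hcon
  rw [Set.mem_union, not_or] at hcon
  obtain ⟨h1, h2⟩ := hcon
  apply hw
  have e1 : ord w (Additive.ofMul (Units.mk0 _ ha0)) = 0 := by
    have h3 := (ord_pos_iff w a (Units.mk0 _ ha0) rfl).not.2 h1
    have h4 := (ord_nonneg_iff (Units.mk0 _ ha0)).2 ⟨a, rfl⟩ w
    omega
  have e2 : ord w (Additive.ofMul (Units.mk0 _ hb0)) = 0 := by
    have h3 := (ord_pos_iff w b (Units.mk0 _ hb0) rfl).not.2 h2
    have h4 := (ord_nonneg_iff (Units.mk0 _ hb0)).2 ⟨b, rfl⟩ w
    omega
  rw [hy, map_sub, e1, e2, sub_zero]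

/-- an element of order `1` at `w` -/
theorem exists_ord_one (w : HeightOneSpectrum (𝓞 F)) :
    ∃ z : 𝓞 F, ∃ y : Fˣ, (y : F) = (z : F) ∧ ord w (Additive.ofMul y) = 1 := by
  obtain ⟨π, hπ⟩ := w.intValuation_exists_uniformizer
  have hπ0 : (π : F) ≠ 0 := by
    intro h0
    have h1 : π = 0 := by
      apply RingOfIntegers.ext
      rw [h0]
      rfl
    rw [h1, map_zero] at hπ
    exact WithZero.exp_ne_zero hπ.symm
  refine ⟨π, Units.mk0 (π : F) hπ0, rfl, ?_⟩
  have h := ord_val w (Units.mk0 (π : F) hπ0)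
  have h3 : w.valuation F (π : F) = w.intValuation π := w.valuation_of_algebraMap π
  rw [Units.val_mk0, h3, hπ, WithZero.exp_inj] at h
  omega

/-- the value of `x` on a principal ideal in terms of orders -/
theorem evI_span {A : Type*} [AddCommGroup A] (x : HeightOneSpectrum (𝓞 F) → A) (z : 𝓞 F)
    (y : Fˣ) (hy : (y : F) = (z : F)) :
    evI x (Ideal.span {z}) = ∑ᶠ w : HeightOneSpectrum (𝓞 F), ord w (Additive.ofMul y) • x w := by
  classical
  have hfin := ord_finite (Additive.ofMul y)
  rw [finsum_eq_sum_of_support_subset (s := hfin.toFinset) _ (by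
    intro w hw
    rw [Set.Finite.coe_toFinset]
    intro h0
    apply hw
    show ord w (Additive.ofMul y) • x w = 0
    rw [h0, zero_smul])]
  rw [evI, Finset.sum_multiset_map_count]
  symm
  refine Finset.sum_nbij (fun w => w.asIdeal) ?_ ?_ ?_ ?_
  · intro w hw
    rw [Set.Finite.mem_toFinset] at hw
    rw [Multiset.mem_toFinset, ← Multiset.count_ne_zero]
    intro h0
    apply hw
    show ord w (Additive.ofMul y) = 0
    rw [ord_int w z y hy]
    have e : (open Classical in (normalizedFactors (Ideal.span {z})).count w.asIdeal : ℕ) = 0 := by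
      convert h0
    rw [e, Nat.cast_zero]
  · intro w _ w' _ h
    exact HeightOneSpectrum.ext h
  · intro P hP
    rw [Finset.mem_coe, Multiset.mem_toFinset] at hP
    have hPp := prime_of_normalized_factor P hP
    refine ⟨⟨P, Ideal.isPrime_of_prime hPp, hPp.ne_zero⟩, ?_, rfl⟩
    rw [Finset.mem_coe, Set.Finite.mem_toFinset]
    show ord _ (Additive.ofMul y) ≠ 0
    rw [ord_int _ z y hy]
    intro h0
    rw [Nat.cast_eq_zero] at h0
    have e : (normalizedFactors (Ideal.span {z})).count P = 0 := by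
      convert h0
    exact (Multiset.count_ne_zero.2 hP) e
  · intro w _
    rw [atI_place, ord_int w z y hy, natCast_zsmul]

end

end

end Pool.Agent.Lib.MP_1a91b9_ntT.CF
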