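import Pool.Agent.Lib.MP_1a91b9_ntT.CF.Defs

/-! # CF: ray class functions and ray class characters

PROOF (complete; job of helper29, see team-store bsd_D_doc_CF.md):
atI_place: unfold, v.asIdeal is prime and nonzero. evI_mul: normalizedFactors_mul. evI_place:
normalizedFactors of a prime is the singleton (normalize = id for ideals). evI_lin: map/sum over a
multiset. RC.le: if n <= v then y v = 0 by hy0; princ: z - 1 in n <= m; the factors v of (z) satisfy
not n <= v (else z and z - 1 in v), so y = x at all the factors of (z), evI y (z) = evI x (z) = 0.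
isRay_chr: I, J coprime to m iff I J coprime (IsCoprime.mul_left_iff); coprime ideals are nonzero
(m <> 1); stdAddChar is a homomorphism with values of norm 1. ray: let RayEq m I J. If I is not
coprime to m then J is not (RayEq.coprime and symm). Otherwise RayEq.normalize with c = m: b coprime
to m, I b = (z), J b = (z'), z - z' in m b, contained in m; (z) coprime to m; choose y0 in O with
z y0 - 1 in m, y0 <> 0 (coprimality; m <> 1 so y0 <> 0 unless ... if m = 1 excluded); then z' y0 - 1 in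
m; evI x (z y0) = 0 = evI x (z' y0) so evI x (z) = evI x (z'), and evI x I = evI x J by evI_mul.
-/

set_option autoImplicit false

namespace Pool.Agent.Lib.MP_1a91b9_ntT.CF

open NumberField IsDedekindDomain UniqueFactorizationMonoid Pool.Agent.Lib.MP_1a91b9_nt S4

universe u

noncomputable section

section
variable {F : Type u} [Field F] [NumberField F]

theorem atI_place {A : Type*} [Zero A] (x : HeightOneSpectrum (𝓞 F) → A)
    (v : HeightOneSpectrum (𝓞 F)) : atI x v.asIdeal = x v := by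
  unfold atI
  rw [dif_pos ⟨v.isPrime, v.ne_bot⟩]

theorem evI_one {A : Type*} [AddCommMonoid A] (x : HeightOneSpectrum (𝓞 F) → A) :
    evI x 1 = 0 := by
  unfold evI
  rw [normalizedFactors_one]
  simp

theorem evI_mul {A : Type*} [AddCommMonoid A] (x : HeightOneSpectrum (𝓞 F) → A)
    (I J : Ideal (𝓞 F)) (hI : I ≠ 0) (hJ : J ≠ 0) : evI x (I * J) = evI x I + evI x J := by
  unfold evI
  rw [normalizedFactors_mul hI hJ, Multiset.map_add, Multiset.sum_add]

theorem evI_place {A : Type*} [AddCommMonoid A] (x : HeightOneSpectrum (𝓞 F) → A)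
    (v : HeightOneSpectrum (𝓞 F)) : evI x v.asIdeal = x v := by
  unfold evI
  rw [normalizedFactors_irreducible v.irreducible]
  simp [atI_place]

private theorem rayfun_atI_lin {A : Type*} [CommSemiring A] (x y : HeightOneSpectrum (𝓞 F) → A)
    (a b : A) (P : Ideal (𝓞 F)) :
    atI (fun v => a * x v + b * y v) P = a * atI x P + b * atI y P := by
  unfold atI
  split_ifs <;> simp

theorem evI_lin {A : Type*} [CommSemiring A] (x y : HeightOneSpectrum (𝓞 F) → A) (a b : A)
    (I : Ideal (𝓞 F)) : evI (fun v => a * x v + b * y v) I = a * evI x I + b * evI y I := by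
  unfold evI
  rw [Multiset.map_congr rfl (fun P _ => rayfun_atI_lin x y a b P), Multiset.sum_map_add,
    Multiset.sum_map_mul_left, Multiset.sum_map_mul_left]

theorem RC.lin {A : Type*} [CommSemiring A] {m : Ideal (𝓞 F)} {x y : HeightOneSpectrum (𝓞 F) → A}
    (hx : RC m x) (hy : RC m y) (a b : A) : RC m (fun v => a * x v + b * y v) := by
  refine ⟨fun v hv => ?_, fun z hz hm => ?_⟩
  · simp only [hx.zero v hv, hy.zero v hv, mul_zero, add_zero]
  · rw [evI_lin, hx.princ z hz hm, hy.princ z hz hm, mul_zero, mul_zero, add_zero]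

/-- change of modulus: to a multiple, killing the values at the new primes -/
theorem RC.le {A : Type*} [AddCommMonoid A] {m n : Ideal (𝓞 F)}
    {x y : HeightOneSpectrum (𝓞 F) → A} (hx : RC m x) (h : n ≤ m)
    (hy : ∀ v : HeightOneSpectrum (𝓞 F), ¬ n ≤ v.asIdeal → y v = x v)
    (hy0 : ∀ v : HeightOneSpectrum (𝓞 F), n ≤ v.asIdeal → y v = 0) : RC n y := by
  refine ⟨hy0, fun z hz hn => ?_⟩
  have h0 : evI x (Ideal.span {z}) = 0 := hx.princ z hz (h hn)
  rw [← h0]
  unfold evI
  congr 1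
  refine Multiset.map_congr rfl (fun P hP => ?_)
  have hPp : P.IsPrime := Ideal.isPrime_of_prime (prime_of_normalized_factor P hP)
  have hP0 : P ≠ ⊥ := (prime_of_normalized_factor P hP).ne_zero
  have hdvd : P ∣ Ideal.span {z} := dvd_of_mem_normalizedFactors hP
  have hzP : z ∈ P := by
    have := Ideal.le_of_dvd hdvd
    exact this (Ideal.mem_span_singleton_self z)
  have hnP : ¬ n ≤ P := by
    intro hle
    have h1 : z - 1 ∈ P := hle hn
    apply hPp.ne_top
    rw [Ideal.eq_top_iff_one]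
    have : (1 : 𝓞 F) = z - (z - 1) := by ring
    rw [this]
    exact P.sub_mem hzP h1
  have e1 : atI y P = y ⟨P, hPp, hP0⟩ := by
    have := atI_place y (⟨P, hPp, hP0⟩ : HeightOneSpectrum (𝓞 F))
    simpa using this
  have e2 : atI x P = x ⟨P, hPp, hP0⟩ := by
    have := atI_place x (⟨P, hPp, hP0⟩ : HeightOneSpectrum (𝓞 F))
    simpa using this
  rw [e1, e2]
  exact hy _ hnP

/-- the complex character attached to a ray class function with values in `ZMod ℓ` -/
def chr (ℓ : ℕ) [NeZero ℓ] (m : Ideal (𝓞 F)) (x : HeightOneSpectrum (𝓞 F) → ZMod ℓ)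
    (I : Ideal (𝓞 F)) : ℂ :=
  open Classical in if IsCoprime I m then ZMod.stdAddChar (evI x I) else 0

end

end

open NumberField IsDedekindDomain UniqueFactorizationMonoid Pool.Agent.Lib.MP_1a91b9_nt S4

noncomputable section

section
variable {F : Type u} [Field F] [NumberField F]

private theorem rayFun_norm (ℓ : ℕ) [NeZero ℓ] (a : ZMod ℓ) :
    ‖(ZMod.stdAddChar a : ℂ)‖ = 1 := by
  rw [ZMod.stdAddChar_apply]
  exact Circle.norm_coe _

private theorem rayFun_ray {ℓ : ℕ} [NeZero ℓ] {m : Ideal (𝓞 F)} (hm0 : m ≠ 0) (hm1 : m ≠ 1)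
    {x : HeightOneSpectrum (𝓞 F) → ZMod ℓ} (hx : RC m x) {I J : Ideal (𝓞 F)} (h : RayEq m I J)
    (hI : IsCoprime I m) : evI x I = evI x J := by
  have hJ := h.coprime hI
  have hI0 : I ≠ 0 := S4.ne_zero_of_coprime hm1 hI
  have hJ0 : J ≠ 0 := S4.ne_zero_of_coprime hm1 hJ
  obtain ⟨b, z, z', hb, hz, hz', h1, h2, h3, h4⟩ := h.normalize m hm0
  have hcop : IsCoprime (Ideal.span {z}) m := by
    rw [← h1]
    exact IsCoprime.mul_left hI h4
  obtain ⟨i, hi, j, hj, hij⟩ := Ideal.isCoprime_iff_exists.mp hcop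
  obtain ⟨y, hy⟩ := Ideal.mem_span_singleton'.mp hi
  have hzy : z * y - 1 ∈ m := by
    have e : z * y - 1 = -j := by
      rw [← hij, ← hy]
      ring
    rw [e]
    exact Ideal.neg_mem_iff _ |>.mpr hj
  have hy0 : y ≠ 0 := by
    rintro rfl
    rw [mul_zero, zero_sub] at hzy
    have h5 := Ideal.neg_mem_iff _ |>.mp hzy
    exact hm1 (by rw [Ideal.one_eq_top]; exact (Ideal.eq_top_iff_one _).mpr h5)
  have hzy' : z' * y - 1 ∈ m := by
    have e : z' * y - 1 = (z * y - 1) - (z - z') * y := by ring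
    rw [e]
    exact Ideal.sub_mem _ hzy (Ideal.mul_mem_right _ _ (Ideal.mul_le_left h3))
  have hs : ∀ w : 𝓞 F, w ≠ 0 → Ideal.span {w} ≠ (0 : Ideal (𝓞 F)) := fun w hw h5 =>
    hw (Ideal.span_singleton_eq_bot.mp h5)
  have e1 := hx.princ (z * y) (mul_ne_zero hz hy0) hzy
  have e2 := hx.princ (z' * y) (mul_ne_zero hz' hy0) hzy'
  rw [← Ideal.span_singleton_mul_span_singleton, evI_mul x _ _ (hs z hz) (hs y hy0), ← h1,
    evI_mul x _ _ hI0 hb] at e1
  rw [← Ideal.span_singleton_mul_span_singleton, evI_mul x _ _ (hs z' hz') (hs y hy0), ← h2,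
    evI_mul x _ _ hJ0 hb] at e2
  have e3 := e1.trans e2.symm
  exact add_right_cancel (add_right_cancel e3)

theorem isRay_chr (ℓ : ℕ) [NeZero ℓ] (m : Ideal (𝓞 F)) (hm0 : m ≠ 0) (hm1 : m ≠ 1)
    (x : HeightOneSpectrum (𝓞 F) → ZMod ℓ) (hx : RC m x) : IsRay m (chr ℓ m x) := by
  constructor
  · unfold chr
    rw [if_pos isCoprime_one_left, evI_one, AddChar.map_zero_eq_one]
  · intro I J
    unfold chr
    by_cases hI : IsCoprime I m
    · by_cases hJ : IsCoprime J m
      · rw [if_pos (IsCoprime.mul_left hI hJ), if_pos hI, if_pos hJ,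
          evI_mul x I J (S4.ne_zero_of_coprime hm1 hI) (S4.ne_zero_of_coprime hm1 hJ),
          AddChar.map_add_eq_mul]
      · rw [if_neg (fun h => hJ (IsCoprime.of_mul_left_right h)), if_neg hJ, mul_zero]
    · rw [if_neg (fun h => hI (IsCoprime.of_mul_left_left h)), if_neg hI, zero_mul]
  · intro I hI
    unfold chr
    rw [if_neg hI]
  · intro I hI
    unfold chr
    rw [if_pos hI, rayFun_norm]
  · intro I J h
    unfold chr
    by_cases hI : IsCoprime I m
    · rw [if_pos hI, if_pos (h.coprime hI), rayFun_ray hm0 hm1 hx h hI]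
    · rw [if_neg hI, if_neg (fun hJ => hI (h.symm.coprime hJ))]

theorem chr_place (ℓ : ℕ) [NeZero ℓ] (m : Ideal (𝓞 F)) (x : HeightOneSpectrum (𝓞 F) → ZMod ℓ)
    (v : HeightOneSpectrum (𝓞 F)) (hv : ¬ m ≤ v.asIdeal) :
    chr ℓ m x v.asIdeal = ZMod.stdAddChar (x v) := by
  have h1 : IsCoprime v.asIdeal m := by
    rw [Ideal.isCoprime_iff_sup_eq]
    refine v.isMaximal.out.2 _ (lt_of_le_of_ne le_sup_left fun h => hv ?_)
    rw [h]
    exact le_sup_right
  unfold chr
  rw [if_pos h1, evI_place]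

theorem chr_bad (ℓ : ℕ) [NeZero ℓ] (m : Ideal (𝓞 F)) (x : HeightOneSpectrum (𝓞 F) → ZMod ℓ)
    (v : HeightOneSpectrum (𝓞 F)) (hv : m ≤ v.asIdeal) : chr ℓ m x v.asIdeal = 0 := by
  unfold chr
  rw [if_neg]
  intro h
  rw [Ideal.isCoprime_iff_sup_eq, sup_eq_left.mpr hv] at h
  exact v.isPrime.ne_top h

end

end

end Pool.Agent.Lib.MP_1a91b9_ntT.CF
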